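import Mathlib

/-! Definitions for the dual `λ`-approximation property and the renormings of the predual. -/

set_option autoImplicit false

namespace Pool.Agent.Helper130.DL

open Filter Topology

/-- `X` has the `lam`-approximation property for the norm `N` (used for norms equivalent to the
norm of `X`): for every compact `K` and every `ε > 0` there is a bounded finite-rank operator `u`
with `N (u x) ≤ lam * N x` for all `x` and `N (u x - x) < ε` for all `x ∈ K`. -/
def HasLAP (X : Type) [NormedAddCommGroup X] [NormedSpace ℝ X] (N : X → ℝ) (lam : ℝ) : Prop :=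
  ∀ K : Set X, IsCompact K → ∀ ε : ℝ, 0 < ε →
    ∃ u : X →L[ℝ] X, FiniteDimensional ℝ (LinearMap.range (u : X →ₗ[ℝ] X)) ∧
      (∀ x, N (u x) ≤ lam * N x) ∧ ∀ x ∈ K, N (u x - x) < ε

/-- The norm `|f| = ‖f‖ + 4 β dist(f, Γ)` on the dual. -/
noncomputable def dualN {X : Type} [NormedAddCommGroup X] [NormedSpace ℝ X]
    (Γ : Submodule ℝ (StrongDual ℝ X)) (β : ℝ) (f : StrongDual ℝ X) : ℝ :=
  ‖f‖ + 4 * β * Metric.infDist f (Γ : Set (StrongDual ℝ X))

/-- The norm on `X` whose dual norm is `dualN Γ β`: `|x| = sup {|f x| : |f| ≤ 1}`. -/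
noncomputable def preN {X : Type} [NormedAddCommGroup X] [NormedSpace ℝ X]
    (Γ : Submodule ℝ (StrongDual ℝ X)) (β : ℝ) (x : X) : ℝ :=
  sSup {t : ℝ | ∃ f : StrongDual ℝ X, dualN Γ β f ≤ 1 ∧ t = |f x|}

end Pool.Agent.Helper130.DL
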