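import Mathlib
import Pool.Agent.Helper130.DL.Defs

set_option autoImplicit false

namespace Pool.Agent.Helper130.DL

open Filter Topology

/-! ### Auxiliary definitions -/

/-- `T` moves the unit ball of `N` into its `s`-neighbourhood. -/
def Moves {Y : Type} [NormedAddCommGroup Y] [NormedSpace ℝ Y] (N : Seminorm ℝ Y)
    (T : Y →L[ℝ] Y) (s : ℝ) : Prop :=
  ∀ y, N y ≤ 1 → ∃ z, N z ≤ 1 ∧ ‖T y - z‖ ≤ s

/-- There are finite-rank almost contractions, with adjoint close to the identity, that move the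
unit ball of `N` by at most `s`. -/
def Good {Y : Type} [NormedAddCommGroup Y] [NormedSpace ℝ Y] (N : Seminorm ℝ Y) (s : ℝ) : Prop :=
  ∀ (Φ : Finset (StrongDual ℝ Y)) (ε : ℝ), 0 < ε → ∃ T : Y →L[ℝ] Y,
    FiniteDimensional ℝ (LinearMap.range (T : Y →ₗ[ℝ] Y)) ∧ ‖T‖ ≤ 1 + ε ∧
    (∀ f ∈ Φ, ‖f.comp T - f‖ ≤ ε) ∧ Moves N T s

/-- The abstract structure of the space `E` built over `E0` and the increasing finite-dimensional
subspaces `G n` of `E0`. -/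
structure Tower (E0 : Type) [NormedAddCommGroup E0] [NormedSpace ℝ E0]
    (G : ℕ → Submodule ℝ E0) (c : ℝ) (E : Type) [NormedAddCommGroup E] [NormedSpace ℝ E] where
  L : E →L[ℝ] E0
  P : ℕ → E →L[ℝ] E
  j : ∀ n, G n →L[ℝ] E
  fin : ∀ M, FiniteDimensional ℝ (LinearMap.range (P M : E →ₗ[ℝ] E))
  idem : ∀ M g, P M (P M g) = P M g
  main : ∀ M g, ‖P M g‖ + ‖L (g - P M g)‖ ≤ (1 + c) * ‖g‖
  j_norm : ∀ n x, ‖j n x‖ ≤ ‖x‖
  L_norm : ∀ g, ‖L g‖ ≤ ‖g‖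
  L_j : ∀ n (x : G n), L (j n x) = x
  P_j : ∀ M n x, M < n → P M (j n x) = 0
  P_lim : ∀ g, Tendsto (fun M => P M g) atTop (𝓝 g)
  dual : ∀ F : StrongDual ℝ E, ∃ F' : StrongDual ℝ E0, ∀ ε : ℝ, 0 < ε → ∃ M0, ∀ M ≥ M0, ∀ g,
    |F g - F (P M g) - F' (L (g - P M g))| ≤ ε * ‖g‖

/-- The functional `F` on `E` is carried by the levels `≤ M` and infinity, with part `F'` at
infinity. -/
def Supp {E0 : Type} [NormedAddCommGroup E0] [NormedSpace ℝ E0]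
    {G : ℕ → Submodule ℝ E0} {c : ℝ} {E : Type} [NormedAddCommGroup E] [NormedSpace ℝ E]
    (tw : Tower E0 G c E) (M : ℕ) (F : StrongDual ℝ E) (F' : StrongDual ℝ E0) : Prop :=
  ∀ g, F g = F (tw.P M g) + F' (tw.L (g - tw.P M g))

/-- The subspaces `ℝ ⊕ H n`. -/
def Gs {Y : Type} [NormedAddCommGroup Y] [NormedSpace ℝ Y] {E0 : Type} [NormedAddCommGroup E0]
    [NormedSpace ℝ E0] (e : (ℝ × Y) ≃L[ℝ] E0) (H : ℕ → Submodule ℝ Y) (n : ℕ) :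
    Submodule ℝ E0 :=
  Submodule.map (e.toLinearEquiv : (ℝ × Y) →ₗ[ℝ] E0) (Submodule.prod ⊤ (H n))

/-- The norm formula of `E0 = ℝ ⊕ Y`: the unit ball is the hull of the ball of `Y` and of
`±(x0 + r B_N)`. -/
def NormF {Y : Type} [NormedAddCommGroup Y] [NormedSpace ℝ Y] {E0 : Type} [NormedAddCommGroup E0]
    [NormedSpace ℝ E0] (N : Seminorm ℝ Y) (r : ℝ) (e : (ℝ × Y) ≃L[ℝ] E0) : Prop :=
  ∀ a y, ‖e (a, y)‖ = |a| + Metric.infDist y {z | N z ≤ r * |a|}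

/-- interface of the base space of convergent sequences -/
structure Base (E0 : Type) [NormedAddCommGroup E0] [NormedSpace ℝ E0]
    (G : ℕ → Submodule ℝ E0) (X : Type) [NormedAddCommGroup X] [NormedSpace ℝ X] where
  ev : ℕ → X →L[ℝ] E0
  L : X →L[ℝ] E0
  P : ℕ → X →L[ℝ] X
  j : ∀ n, G n →L[ℝ] X
  ev_mem : ∀ n g, ev n g ∈ G n
  lim : ∀ g, Tendsto (fun n => ev n g) atTop (𝓝 (L g))
  ev_norm : ∀ n g, ‖ev n g‖ ≤ ‖g‖
  norm_le : ∀ g C, 0 ≤ C → (∀ n, ‖ev n g‖ ≤ C) → ‖g‖ ≤ C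
  ev_P : ∀ M n g, ev n (P M g) = ev (min n M) g
  ev_j : ∀ n m (x : G n), ev m (j n x) = if m < n then 0 else (x : E0)

/-- the data used for one operator -/
structure Setup {Y : Type} [NormedAddCommGroup Y] [NormedSpace ℝ Y] {E0 : Type}
    [NormedAddCommGroup E0] [NormedSpace ℝ E0] {E : Type} [NormedAddCommGroup E]
    [NormedSpace ℝ E] (N : Seminorm ℝ Y) (e : (ℝ × Y) ≃L[ℝ] E0) (H : ℕ → Submodule ℝ Y) {c : ℝ}
    (tw : Tower E0 (Gs e H) c E) (M : ℕ) (Γ : Submodule ℝ (StrongDual ℝ E)) (s δ : ℝ)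
    (M' : ℕ) (T : Y →L[ℝ] Y) : Prop where
  lt : M < M'
  mem : ∀ y, T y ∈ H M'
  norm : ‖T‖ ≤ 1 + δ
  mov : Moves N T (s + δ)
  close : ∀ F ∈ Γ, ∀ F', Supp tw M F F' → ∀ y, |F' (e (0, T y - y))| ≤ δ * ‖F‖ * ‖y‖
  net : ∀ z, N z ≤ 1 → ∃ y ∈ H M', (∃ z', N z' ≤ 1 ∧ ‖y - z'‖ ≤ δ) ∧
    ∀ F ∈ Γ, ∀ F', Supp tw M F F' → |F' (e (0, z - y))| ≤ δ * ‖F‖


/-- the operator `g ↦ P g + j (v_q (L (g - P g)))` -/
def IsU {Y : Type} [NormedAddCommGroup Y] [NormedSpace ℝ Y] {E0 : Type}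
    [NormedAddCommGroup E0] [NormedSpace ℝ E0] {E : Type} [NormedAddCommGroup E]
    [NormedSpace ℝ E] (e : (ℝ × Y) ≃L[ℝ] E0) (H : ℕ → Submodule ℝ Y) {c : ℝ}
    (tw : Tower E0 (Gs e H) c E) (M M' : ℕ) (T : Y →L[ℝ] Y) (q : ℝ) (U : E →L[ℝ] E) : Prop :=
  ∀ g, ∃ x : Gs e H M',
    (x : E0) = e ((1 - q) * (e.symm (tw.L (g - tw.P M g))).1, T (e.symm (tw.L (g - tw.P M g))).2) ∧
    U g = tw.P M g + tw.j M' x


end Pool.Agent.Helper130.DL
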