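import Mathlib
import Pool.Agent.Helper130.DL.AuxDefs


set_option autoImplicit false

namespace Pool.Agent.Helper130.DL

open Filter Topology

namespace JA2

open BoundedContinuousFunction in
/-- the space of convergent sequences -/
private def Sp {E0 : Type} [NormedAddCommGroup E0] [NormedSpace ℝ E0]
    (G : ℕ → Submodule ℝ E0) : Submodule ℝ (BoundedContinuousFunction ℕ E0) where
  carrier := {g | (∀ n, g n ∈ G n) ∧ CauchySeq (fun n => g n)}
  add_mem' := by
    rintro a b ⟨ha, ha'⟩ ⟨hb, hb'⟩
    exact ⟨fun n => (G n).add_mem (ha n) (hb n), ha'.add hb'⟩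
  zero_mem' := ⟨fun n => (G n).zero_mem, cauchySeq_const 0⟩
  smul_mem' := by
    rintro c a ⟨ha, ha'⟩
    exact ⟨fun n => (G n).smul_mem c (ha n), (uniformContinuous_const_smul c).comp_cauchySeq ha'⟩

private theorem Sp_closed {E0 : Type} [NormedAddCommGroup E0] [NormedSpace ℝ E0]
    (G : ℕ → Submodule ℝ E0) (hfd : ∀ n, FiniteDimensional ℝ (G n)) :
    IsClosed (Sp G : Set (BoundedContinuousFunction ℕ E0)) := by
  rw [← isSeqClosed_iff_isClosed]
  intro u g hu hg
  refine ⟨fun n => ?_, ?_⟩
  · have := hfd n
    have hcl : IsClosed (G n : Set E0) := (G n).closed_of_finiteDimensional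
    have hlim : Tendsto (fun k => u k n) atTop (𝓝 (g n)) :=
      ((continuous_eval_const (F := BoundedContinuousFunction ℕ E0) n).tendsto g).comp hg
    exact hcl.mem_of_tendsto hlim (Eventually.of_forall fun k => (hu k).1 n)
  · rw [Metric.cauchySeq_iff]
    intro ε hε
    obtain ⟨k, hk⟩ := (Metric.tendsto_atTop.1 hg (ε / 3) (by linarith))
    have hk := hk k le_rfl
    obtain ⟨N, hN⟩ := Metric.cauchySeq_iff.1 (hu k).2 (ε / 3) (by linarith)
    refine ⟨N, fun m hm n hn => ?_⟩
    have h1 : dist (g m) (u k m) ≤ dist g (u k) := BoundedContinuousFunction.dist_coe_le_dist m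
    have h2 : dist (u k n) (g n) ≤ dist (u k) g := BoundedContinuousFunction.dist_coe_le_dist n
    have h3 := hN m hm n hn
    rw [dist_comm] at hk
    have h4 : dist (u k) g = dist g (u k) := dist_comm _ _
    calc dist (g m) (g n) ≤ dist (g m) (u k m) + dist (u k m) (u k n) + dist (u k n) (g n) :=
          dist_triangle4 _ _ _ _
      _ < ε := by linarith

private theorem Sp_lim {E0 : Type} [NormedAddCommGroup E0] [NormedSpace ℝ E0] [CompleteSpace E0]
    (G : ℕ → Submodule ℝ E0) (g : Sp G) :
    ∃ a, Tendsto (fun n => (g : BoundedContinuousFunction ℕ E0) n) atTop (𝓝 a) :=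
  cauchySeq_tendsto_of_complete g.2.2

private noncomputable def SpEv {E0 : Type} [NormedAddCommGroup E0] [NormedSpace ℝ E0]
    (G : ℕ → Submodule ℝ E0) (n : ℕ) : Sp G →L[ℝ] E0 :=
  LinearMap.mkContinuous
    { toFun := fun g => (g : BoundedContinuousFunction ℕ E0) n
      map_add' := fun _ _ => rfl
      map_smul' := fun _ _ => rfl } 1 (fun g => by
        rw [one_mul]
        exact BoundedContinuousFunction.norm_coe_le_norm (g : BoundedContinuousFunction ℕ E0) n)

private noncomputable def SpL {E0 : Type} [NormedAddCommGroup E0] [NormedSpace ℝ E0]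
    [CompleteSpace E0] (G : ℕ → Submodule ℝ E0) : Sp G →L[ℝ] E0 :=
  LinearMap.mkContinuous
    { toFun := fun g => Classical.choose (Sp_lim G g)
      map_add' := fun a b =>
        tendsto_nhds_unique (Classical.choose_spec (Sp_lim G (a + b)))
          ((Classical.choose_spec (Sp_lim G a)).add (Classical.choose_spec (Sp_lim G b)))
      map_smul' := fun c a =>
        tendsto_nhds_unique (Classical.choose_spec (Sp_lim G (c • a)))
          ((Classical.choose_spec (Sp_lim G a)).const_smul c) } 1 (fun g => by
        rw [one_mul]
        refine le_of_tendsto (Classical.choose_spec (Sp_lim G g)).norm (Eventually.of_forall ?_)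
        intro n
        exact BoundedContinuousFunction.norm_coe_le_norm (g : BoundedContinuousFunction ℕ E0) n)

private noncomputable def SpP {E0 : Type} [NormedAddCommGroup E0] [NormedSpace ℝ E0]
    (G : ℕ → Submodule ℝ E0) (hG : Monotone G) (M : ℕ) : Sp G →L[ℝ] Sp G :=
  LinearMap.mkContinuous
    { toFun := fun g => ⟨(g : BoundedContinuousFunction ℕ E0).compContinuous
          ⟨fun n => min n M, continuous_of_discreteTopology⟩,
        fun n => hG (min_le_left n M) (g.2.1 (min n M)), by
          refine (tendsto_const_nhds (x := (g : BoundedContinuousFunction ℕ E0) M)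
            (f := atTop)).congr' ?_ |>.cauchySeq
          filter_upwards [eventually_ge_atTop M] with n hn
          show _ = (g : BoundedContinuousFunction ℕ E0) (min n M)
          rw [min_eq_right hn]⟩
      map_add' := fun _ _ => rfl
      map_smul' := fun _ _ => rfl } 1 (fun g => by
        rw [one_mul]
        show ‖(g : BoundedContinuousFunction ℕ E0).compContinuous _‖ ≤ ‖(g : BoundedContinuousFunction ℕ E0)‖
        rw [BoundedContinuousFunction.norm_le (norm_nonneg _)]
        intro n
        exact BoundedContinuousFunction.norm_coe_le_norm (g : BoundedContinuousFunction ℕ E0) _)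

private noncomputable def SpJf {E0 : Type} [NormedAddCommGroup E0] [NormedSpace ℝ E0]
    (n : ℕ) (x : E0) : BoundedContinuousFunction ℕ E0 :=
  BoundedContinuousFunction.ofNormedAddCommGroupDiscrete
          (fun m => if m < n then (0 : E0) else x) ‖x‖ (by
            intro m
            split_ifs
            · simp
            · exact le_rfl)

private noncomputable def SpJ {E0 : Type} [NormedAddCommGroup E0] [NormedSpace ℝ E0]
    (G : ℕ → Submodule ℝ E0) (hG : Monotone G) (n : ℕ) : G n →L[ℝ] Sp G :=
  LinearMap.mkContinuous
    { toFun := fun x => ⟨SpJf n (x : E0),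
        fun m => by
          show (if m < n then (0 : E0) else (x : E0)) ∈ G m
          split_ifs with h
          · exact (G m).zero_mem
          · exact hG (not_lt.1 h) x.2, by
          refine (tendsto_const_nhds (x := (x : E0)) (f := atTop)).congr' ?_ |>.cauchySeq
          filter_upwards [eventually_ge_atTop n] with m hm
          show _ = (if m < n then (0 : E0) else (x : E0))
          rw [if_neg (not_lt.2 hm)]⟩
      map_add' := fun x y => by
        apply Subtype.ext
        ext m
        show (if m < n then (0 : E0) else ((x + y : G n) : E0))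
          = (if m < n then (0 : E0) else (x : E0)) + (if m < n then (0 : E0) else (y : E0))
        split_ifs <;> simp
      map_smul' := fun c x => by
        apply Subtype.ext
        ext m
        show (if m < n then (0 : E0) else ((c • x : G n) : E0))
          = c • (if m < n then (0 : E0) else (x : E0))
        split_ifs <;> simp } 1 (fun x => by
        rw [one_mul]
        show ‖SpJf n (x : E0)‖ ≤ ‖x‖
        rw [BoundedContinuousFunction.norm_le (norm_nonneg _)]
        intro m
        show ‖(if m < n then (0 : E0) else (x : E0))‖ ≤ ‖x‖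
        split_ifs
        · simp
        · exact le_rfl)

theorem exists_base {E0 : Type} [NormedAddCommGroup E0] [NormedSpace ℝ E0] [CompleteSpace E0]
    (G : ℕ → Submodule ℝ E0) (hG : Monotone G) (hfd : ∀ n, FiniteDimensional ℝ (G n)) :
    ∃ (X : Type) (_ : NormedAddCommGroup X) (_ : NormedSpace ℝ X) (_ : CompleteSpace X),
      Nonempty (Base E0 G X) := by
  refine ⟨Sp G, inferInstance, inferInstance, (Sp_closed G hfd).completeSpace_coe, ⟨?_⟩⟩
  exact
    { ev := SpEv G
      L := SpL G
      P := SpP G hG
      j := SpJ G hG
      ev_mem := fun n g => g.2.1 n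
      lim := fun g => Classical.choose_spec (Sp_lim G g)
      ev_norm := fun n g =>
        BoundedContinuousFunction.norm_coe_le_norm (g : BoundedContinuousFunction ℕ E0) n
      norm_le := fun g C hC h => (BoundedContinuousFunction.norm_le hC).2 h
      ev_P := fun M n g => rfl
      ev_j := fun n m x => rfl }

end JA2

end Pool.Agent.Helper130.DL
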