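import Mathlib
import Pool.Agent.Helper130.DL.AuxDefs


set_option autoImplicit false

namespace Pool.Agent.Helper130.DL

open Filter Topology

namespace JA3

section

variable {E0 : Type} [NormedAddCommGroup E0] [NormedSpace ℝ E0]
    {G : ℕ → Submodule ℝ E0} {X : Type} [NormedAddCommGroup X] [NormedSpace ℝ X]

/-- partial variation -/
noncomputable def cn5_S (b : Base E0 G X) (g : X) (n : ℕ) : ℝ :=
  ‖b.ev 0 g‖ + ∑ k ∈ Finset.range n, ‖b.ev (k + 1) g - b.ev k g‖

/-- the variation is at most `v` -/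
def cn5_V (b : Base E0 G X) (g : X) (v : ℝ) : Prop := ∀ n, cn5_S b g n ≤ v

/-- the decompositions -/
def cn5_D (b : Base E0 G X) (K : ℝ) (g : X) : Set ℝ :=
  {t | ∃ g' v, cn5_V b g' v ∧ t = v + K * ‖g - g'‖}

lemma cn5_V0 {b : Base E0 G X} {g : X} {v : ℝ} (h : cn5_V b g v) : 0 ≤ v := by
  have h1 := h 0
  unfold cn5_S at h1
  simp only [Finset.range_zero, Finset.sum_empty, add_zero] at h1
  exact (norm_nonneg _).trans h1

lemma cn5_Vadd {b : Base E0 G X} {g g' : X} {v v' : ℝ} (h : cn5_V b g v) (h' : cn5_V b g' v') :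
    cn5_V b (g + g') (v + v') := by
  intro n
  refine le_trans ?_ (add_le_add (h n) (h' n))
  unfold cn5_S
  have h1 : ‖b.ev 0 (g + g')‖ ≤ ‖b.ev 0 g‖ + ‖b.ev 0 g'‖ := by
    rw [map_add]; exact norm_add_le _ _
  have h2 : ∑ k ∈ Finset.range n, ‖b.ev (k + 1) (g + g') - b.ev k (g + g')‖ ≤
      ∑ k ∈ Finset.range n, ‖b.ev (k + 1) g - b.ev k g‖ +
        ∑ k ∈ Finset.range n, ‖b.ev (k + 1) g' - b.ev k g'‖ := by
    rw [← Finset.sum_add_distrib]
    refine Finset.sum_le_sum fun k _ => ?_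
    have e : b.ev (k + 1) (g + g') - b.ev k (g + g') =
        (b.ev (k + 1) g - b.ev k g) + (b.ev (k + 1) g' - b.ev k g') := by
      rw [map_add, map_add]; abel
    rw [e]
    exact norm_add_le _ _
  linarith

lemma cn5_Vsmul {b : Base E0 G X} {g : X} {v : ℝ} (a : ℝ) (h : cn5_V b g v) :
    cn5_V b (a • g) (|a| * v) := by
  intro n
  have e : cn5_S b (a • g) n = |a| * cn5_S b g n := by
    unfold cn5_S
    rw [mul_add, Finset.mul_sum, map_smul, norm_smul, Real.norm_eq_abs]
    congr 1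
    refine Finset.sum_congr rfl fun k _ => ?_
    rw [map_smul, map_smul, ← smul_sub, norm_smul, Real.norm_eq_abs]
  rw [e]
  exact mul_le_mul_of_nonneg_left (h n) (abs_nonneg a)

lemma cn5_Vzero (b : Base E0 G X) : cn5_V b 0 0 := by
  intro n
  unfold cn5_S
  simp

lemma cn5_lb {b : Base E0 G X} {K : ℝ} (hK : 0 ≤ K) (g : X) {t : ℝ} (ht : t ∈ cn5_D b K g) :
    0 ≤ t := by
  obtain ⟨g', v, hv, rfl⟩ := ht
  have := cn5_V0 hv
  positivity

lemma cn5_bdd {b : Base E0 G X} {K : ℝ} (hK : 0 ≤ K) (g : X) : BddBelow (cn5_D b K g) :=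
  ⟨0, fun _ ht => cn5_lb hK g ht⟩

lemma cn5_ne (b : Base E0 G X) (K : ℝ) (g : X) : (cn5_D b K g).Nonempty :=
  ⟨_, 0, 0, cn5_Vzero b, rfl⟩

lemma cn5_le {b : Base E0 G X} {K : ℝ} (hK : 0 ≤ K) (g : X) {g' : X} {v : ℝ}
    (hv : cn5_V b g' v) : sInf (cn5_D b K g) ≤ v + K * ‖g - g'‖ :=
  csInf_le (cn5_bdd hK g) ⟨g', v, hv, rfl⟩

lemma cn5_ge {b : Base E0 G X} {K : ℝ} (g : X) {m : ℝ}
    (h : ∀ g' v, cn5_V b g' v → m ≤ v + K * ‖g - g'‖) : m ≤ sInf (cn5_D b K g) := by
  refine le_csInf (cn5_ne b K g) ?_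
  rintro t ⟨g', v, hv, rfl⟩
  exact h g' v hv

/-- the seminorm -/
noncomputable def cn5_p (b : Base E0 G X) (K : ℝ) (hK : 0 ≤ K) : Seminorm ℝ X :=
  Seminorm.ofSMulLE (fun g => sInf (cn5_D b K g))
    (le_antisymm (by
      have h1 := cn5_le hK (0 : X) (cn5_Vzero b)
      simpa using h1) (cn5_ge 0 fun g' v hv => by
        have := cn5_V0 hv
        positivity))
    (fun x y => by
      show sInf (cn5_D b K (x + y)) ≤ sInf (cn5_D b K x) + sInf (cn5_D b K y)
      have h1 : ∀ g' v, cn5_V b g' v →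
          sInf (cn5_D b K (x + y)) - sInf (cn5_D b K x) ≤ v + K * ‖y - g'‖ := by
        intro g2 v2 hv2
        have h2 : sInf (cn5_D b K (x + y)) - (v2 + K * ‖y - g2‖) ≤ sInf (cn5_D b K x) := by
          refine cn5_ge x fun g1 v1 hv1 => ?_
          have h3 := cn5_le hK (x + y) (cn5_Vadd hv1 hv2)
          have h4 : ‖x + y - (g1 + g2)‖ ≤ ‖x - g1‖ + ‖y - g2‖ := by
            have e : x + y - (g1 + g2) = (x - g1) + (y - g2) := by abel
            rw [e]
            exact norm_add_le _ _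
          have h5 := mul_le_mul_of_nonneg_left h4 hK
          linarith
        linarith
      have h2 := cn5_ge y h1
      linarith)
    (fun a x => by
      show sInf (cn5_D b K (a • x)) ≤ ‖a‖ * sInf (cn5_D b K x)
      rw [Real.norm_eq_abs]
      rcases eq_or_ne a 0 with rfl | ha
      · have h1 := cn5_le hK ((0 : ℝ) • x) (cn5_Vzero b)
        simpa using h1
      · have ha' : 0 < |a| := abs_pos.2 ha
        have h1 : |a|⁻¹ * sInf (cn5_D b K (a • x)) ≤ sInf (cn5_D b K x) := by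
          refine cn5_ge x fun g' v hv => ?_
          have h2 := cn5_le hK (a • x) (cn5_Vsmul a hv)
          rw [← smul_sub, norm_smul, Real.norm_eq_abs] at h2
          rw [inv_mul_le_iff₀ ha']
          linarith
        rwa [inv_mul_le_iff₀ ha'] at h1)

lemma cn5_p_apply (b : Base E0 G X) (K : ℝ) (hK : 0 ≤ K) (g : X) :
    cn5_p b K hK g = sInf (cn5_D b K g) := rfl

/-- telescoping -/
lemma cn5_tel (b : Base E0 G X) (g : X) (M : ℕ) : ∀ i : ℕ,
    ‖b.ev (M + i) g - b.ev M g‖ ≤ cn5_S b g (M + i) - cn5_S b g M := by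
  intro i
  induction i with
  | zero => simp
  | succ i ih =>
    have h1 : cn5_S b g (M + (i + 1)) = cn5_S b g (M + i) +
        ‖b.ev (M + i + 1) g - b.ev (M + i) g‖ := by
      unfold cn5_S
      rw [← add_assoc M i 1, Finset.sum_range_succ]
      ring
    have h2 : b.ev (M + (i + 1)) g - b.ev M g =
        (b.ev (M + i + 1) g - b.ev (M + i) g) + (b.ev (M + i) g - b.ev M g) := by
      rw [← add_assoc M i 1]; abel
    rw [h1, h2]
    have h3 := norm_add_le (b.ev (M + i + 1) g - b.ev (M + i) g) (b.ev (M + i) g - b.ev M g)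
    linarith

lemma cn5_norm_ev {b : Base E0 G X} {g : X} {v : ℝ} (h : cn5_V b g v) (n : ℕ) :
    ‖b.ev n g‖ ≤ v := by
  have h1 := cn5_tel b g 0 n
  rw [zero_add] at h1
  have h2 : cn5_S b g 0 = ‖b.ev 0 g‖ := by unfold cn5_S; simp
  have h3 := h n
  have h4 : b.ev n g = (b.ev n g - b.ev 0 g) + b.ev 0 g := by abel
  rw [h4]
  have h5 := norm_add_le (b.ev n g - b.ev 0 g) (b.ev 0 g)
  linarith

lemma cn5_VP {b : Base E0 G X} (g : X) (M : ℕ) : cn5_V b (b.P M g) (cn5_S b g M) := by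
  intro n
  unfold cn5_S
  rw [b.ev_P, Nat.zero_min]
  refine add_le_add le_rfl ?_
  have h1 : ∀ k ∈ Finset.range n, ‖b.ev (k + 1) (b.P M g) - b.ev k (b.P M g)‖ =
      if k < M then ‖b.ev (k + 1) g - b.ev k g‖ else 0 := by
    intro k _
    rw [b.ev_P, b.ev_P]
    split_ifs with hk
    · rw [min_eq_left (by omega), min_eq_left (by omega)]
    · rw [min_eq_right (by omega), min_eq_right (by omega), sub_self, norm_zero]
  rw [Finset.sum_congr rfl h1, ← Finset.sum_filter]
  refine Finset.sum_le_sum_of_subset_of_nonneg ?_ fun _ _ _ => norm_nonneg _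
  intro k hk
  exact Finset.mem_range.2 (Finset.mem_filter.1 hk).2

lemma cn5_L (b : Base E0 G X) (g : X) (M : ℕ) : b.L (b.P M g) = b.ev M g := by
  refine tendsto_nhds_unique (b.lim (b.P M g)) ?_
  refine tendsto_const_nhds.congr' ?_
  filter_upwards [eventually_ge_atTop M] with n hn
  rw [b.ev_P, min_eq_right hn]

lemma cn5_Lnorm (b : Base E0 G X) (g : X) : ‖b.L g‖ ≤ ‖g‖ :=
  le_of_tendsto (b.lim g).norm (Eventually.of_forall fun n => b.ev_norm n g)

end


theorem chain_norm {E0 : Type} [NormedAddCommGroup E0] [NormedSpace ℝ E0]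
    {G : ℕ → Submodule ℝ E0} {X : Type} [NormedAddCommGroup X] [NormedSpace ℝ X]
    (b : Base E0 G X) (c : ℝ) (hc : 0 < c) :
    ∃ (p : Seminorm ℝ X) (K : ℝ), (∀ g, ‖g‖ ≤ p g) ∧ (∀ g, p g ≤ K * ‖g‖) ∧
      (∀ M g, p (b.P M g) + ‖b.L (g - b.P M g)‖ ≤ (1 + c) * p g) ∧
      (∀ n x, p (b.j n x) ≤ ‖x‖) := by
  set K : ℝ := max 1 (2 / c) with hKdef
  have hK1 : 1 ≤ K := le_max_left _ _
  have hK0 : 0 ≤ K := by linarith
  have hcK : 2 ≤ c * K := by
    have h1 : 2 / c ≤ K := le_max_right _ _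
    rw [div_le_iff₀ hc] at h1
    linarith
  refine ⟨cn5_p b K hK0, K, ?_, ?_, ?_, ?_⟩
  · intro g
    rw [cn5_p_apply]
    refine cn5_ge g fun g' v hv => ?_
    have h1 : ‖g'‖ ≤ v := b.norm_le g' v (cn5_V0 hv) (cn5_norm_ev hv)
    have h2 : ‖g‖ ≤ ‖g'‖ + ‖g - g'‖ := by
      have e : g = g' + (g - g') := by abel
      calc ‖g‖ = ‖g' + (g - g')‖ := by rw [← e]
        _ ≤ _ := norm_add_le _ _
    have h3 : 1 * ‖g - g'‖ ≤ K * ‖g - g'‖ := mul_le_mul_of_nonneg_right hK1 (norm_nonneg _)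
    linarith
  · intro g
    rw [cn5_p_apply]
    have h1 := cn5_le hK0 g (cn5_Vzero b)
    simpa using h1
  · intro M g
    rw [cn5_p_apply, cn5_p_apply]
    have hc1 : 0 < 1 + c := by linarith
    rw [← div_le_iff₀' hc1]
    refine cn5_ge g fun g' v hv => ?_
    rw [div_le_iff₀' hc1]
    set h := g - g' with hh
    have h1 : sInf (cn5_D b K (b.P M g)) ≤ cn5_S b g' M + K * ‖h‖ := by
      have h2 := cn5_le hK0 (b.P M g) (cn5_VP (b := b) g' M)
      have h3 : ‖b.P M g - b.P M g'‖ ≤ ‖h‖ := by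
        rw [← map_sub, ← hh]
        refine b.norm_le _ _ (norm_nonneg _) fun n => ?_
        rw [b.ev_P]
        exact b.ev_norm _ _
      have h4 := mul_le_mul_of_nonneg_left h3 hK0
      linarith
    have h2 : ‖b.L (g - b.P M g)‖ ≤ (v - cn5_S b g' M) + 2 * ‖h‖ := by
      rw [map_sub, cn5_L]
      have h3 : ‖b.L g' - b.ev M g'‖ ≤ v - cn5_S b g' M := by
        have h4 : Tendsto (fun i => b.ev (M + i) g' - b.ev M g') atTop
            (𝓝 (b.L g' - b.ev M g')) := by
          refine Tendsto.sub_const ?_ _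
          have h5 := (tendsto_add_atTop_iff_nat (f := fun n => b.ev n g') M).2 (b.lim g')
          refine h5.congr fun i => ?_
          rw [add_comm]
        refine le_of_tendsto h4.norm (Eventually.of_forall fun i => ?_)
        have h6 := cn5_tel b g' M i
        have h7 := hv (M + i)
        linarith
      have h4 : b.L g - b.ev M g = (b.L g' - b.ev M g') + (b.L h - b.ev M h) := by
        rw [hh, map_sub, map_sub]; abel
      rw [h4]
      have h5 := norm_add_le (b.L g' - b.ev M g') (b.L h - b.ev M h)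
      have h6 := norm_sub_le (b.L h) (b.ev M h)
      have h7 := cn5_Lnorm b h
      have h8 := b.ev_norm M h
      linarith
    have hv0 := cn5_V0 hv
    have h3 : 2 * ‖h‖ ≤ c * K * ‖h‖ := mul_le_mul_of_nonneg_right hcK (norm_nonneg _)
    have h4 : 0 ≤ c * v := by positivity
    nlinarith
  · intro n x
    rw [cn5_p_apply]
    have hV : cn5_V b (b.j n x) ‖x‖ := by
      have key : ∀ m, cn5_S b (b.j n x) m = ‖b.ev m (b.j n x)‖ := by
        intro m
        induction m with
        | zero => unfold cn5_S; simp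
        | succ m ih =>
          have h1 : cn5_S b (b.j n x) (m + 1) = cn5_S b (b.j n x) m +
              ‖b.ev (m + 1) (b.j n x) - b.ev m (b.j n x)‖ := by
            unfold cn5_S
            rw [Finset.sum_range_succ]
            ring
          rw [h1, ih, b.ev_j, b.ev_j]
          by_cases h2 : m + 1 < n
          · rw [if_pos h2, if_pos (by omega)]; simp
          · by_cases h3 : m < n
            · rw [if_neg h2, if_pos h3]; simp
            · rw [if_neg h2, if_neg h3]; simp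
      intro m
      rw [key, b.ev_j]
      split_ifs
      · rw [norm_zero]; exact norm_nonneg _
      · exact le_rfl
    have h1 := cn5_le hK0 (b.j n x) hV
    rwa [sub_self, norm_zero, mul_zero, add_zero] at h1

end JA3

end Pool.Agent.Helper130.DL
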