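import Mathlib
import Pool.Agent.Helper130.DL.AuxDefs


set_option autoImplicit false

namespace Pool.Agent.Helper130.DL

open Filter Topology

namespace JA4

theorem dual_rep {E0 : Type} [NormedAddCommGroup E0] [NormedSpace ℝ E0]
    {G : ℕ → Submodule ℝ E0} (hG : Monotone G) (hd : Dense (⋃ n, (G n : Set E0)))
    {X : Type} [NormedAddCommGroup X] [NormedSpace ℝ X]
    (b : Base E0 G X) (F : StrongDual ℝ X) :
    ∃ F' : StrongDual ℝ E0, ∀ ε : ℝ, 0 < ε → ∃ M0, ∀ M ≥ M0, ∀ g,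
      |F g - F (b.P M g) - F' (b.L (g - b.P M g))| ≤ ε * ‖g‖ := by
  classical
  have hle : ∀ n, G n ≤ G (n + 1) := fun n => hG (Nat.le_succ n)
  have hext : ∀ g h : X, (∀ n, b.ev n g = b.ev n h) → g = h := by
    intro g h hh
    have h0 : ‖g - h‖ ≤ 0 := b.norm_le _ 0 le_rfl (fun n => by
      rw [map_sub, hh n, sub_self, norm_zero])
    exact sub_eq_zero.mp (norm_le_zero_iff.mp h0)
  let d : ∀ k, G k →ₗ[ℝ] X := fun k =>
    (b.j k : G k →ₗ[ℝ] X) -
      (b.j (k + 1) : G (k + 1) →ₗ[ℝ] X).comp (Submodule.inclusion (hle k))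
  have hd_ap : ∀ k (x : G k), d k x = b.j k x - b.j (k + 1) ⟨x.1, hle k x.2⟩ := fun _ _ => rfl
  have hd_ev : ∀ k (x : G k) m, b.ev m (d k x) = if m = k then (x : E0) else 0 := by
    intro k x m
    rw [hd_ap, map_sub, b.ev_j, b.ev_j]
    by_cases h1 : m < k
    · rw [if_pos h1, if_pos (by omega), if_neg (by omega), sub_zero]
    · by_cases h2 : m = k
      · rw [if_neg h1, if_pos (by omega), if_pos h2, sub_zero]
      · rw [if_neg h1, if_neg (by omega), if_neg h2]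
        exact sub_self _
  have hd_norm : ∀ k (x : G k), ‖d k x‖ ≤ ‖x‖ := by
    intro k x
    refine b.norm_le _ _ (norm_nonneg _) fun n => ?_
    rw [hd_ev]
    split_ifs
    · exact le_rfl
    · rw [norm_zero]; exact norm_nonneg _
  let Φ : ∀ k, G k →L[ℝ] ℝ := fun k =>
    LinearMap.mkContinuous ((F : X →ₗ[ℝ] ℝ).comp (d k)) ‖F‖ (fun x =>
      (F.le_opNorm _).trans (mul_le_mul_of_nonneg_left (hd_norm k x) (norm_nonneg _)))
  have hΦ : ∀ k (x : G k), Φ k x = F (d k x) := fun _ _ => rfl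
  have hsum : ∀ n, ∑ k ∈ Finset.range n, ‖Φ k‖ ≤ ‖F‖ := by
    intro n
    apply le_of_forall_pos_le_add
    intro ε hε
    have hpos : 0 < ε / ((n : ℝ) + 1) := by positivity
    have hx : ∀ k, ∃ x : G k, ‖x‖ ≤ 1 ∧ ‖Φ k‖ - ε / ((n : ℝ) + 1) ≤ Φ k x := by
      intro k
      obtain ⟨x, hx1, hx2⟩ := (Φ k).exists_lt_apply_of_lt_opNorm
        (r := ‖Φ k‖ - ε / ((n : ℝ) + 1)) (by linarith)
      by_cases h : 0 ≤ Φ k x
      · refine ⟨x, hx1.le, ?_⟩
        rw [Real.norm_of_nonneg h] at hx2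
        exact hx2.le
      · refine ⟨-x, by rw [norm_neg]; exact hx1.le, ?_⟩
        push Not at h
        rw [map_neg]
        rw [Real.norm_of_nonpos h.le] at hx2
        exact hx2.le
    choose x hx1 hx2 using hx
    have h1 : ‖∑ k ∈ Finset.range n, d k (x k)‖ ≤ 1 := by
      apply b.norm_le _ 1 zero_le_one
      intro m
      rw [map_sum]
      simp only [hd_ev]
      rw [Finset.sum_ite_eq]
      split_ifs
      · exact hx1 m
      · rw [norm_zero]; exact zero_le_one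
    have h2 : ∑ k ∈ Finset.range n, (‖Φ k‖ - ε / ((n : ℝ) + 1)) ≤ ‖F‖ := by
      calc ∑ k ∈ Finset.range n, (‖Φ k‖ - ε / ((n : ℝ) + 1))
          ≤ ∑ k ∈ Finset.range n, Φ k (x k) := Finset.sum_le_sum fun k _ => hx2 k
        _ = F (∑ k ∈ Finset.range n, d k (x k)) := by rw [map_sum]; rfl
        _ ≤ ‖F (∑ k ∈ Finset.range n, d k (x k))‖ := Real.le_norm_self _
        _ ≤ ‖F‖ * ‖∑ k ∈ Finset.range n, d k (x k)‖ := F.le_opNorm _
        _ ≤ ‖F‖ * 1 := mul_le_mul_of_nonneg_left h1 (norm_nonneg _)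
        _ = ‖F‖ := mul_one _
    rw [Finset.sum_sub_distrib, Finset.sum_const, Finset.card_range, nsmul_eq_mul] at h2
    have h3 : (n : ℝ) * (ε / ((n : ℝ) + 1)) ≤ ε := by
      rw [← mul_div_assoc, div_le_iff₀ (by positivity)]
      nlinarith
    linarith
  let s : ℕ → ℝ := fun n => ∑ k ∈ Finset.range n, ‖Φ k‖
  have hs_succ : ∀ n, s (n + 1) = s n + ‖Φ n‖ := fun n => Finset.sum_range_succ _ _
  have hs_mono : Monotone s := monotone_nat_of_le_succ fun n => by
    rw [hs_succ]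
    linarith [norm_nonneg (Φ n)]
  obtain ⟨S, hS⟩ : ∃ S, Tendsto s atTop (𝓝 S) := by
    refine ⟨_, tendsto_atTop_ciSup hs_mono ⟨‖F‖, ?_⟩⟩
    rintro y ⟨n, rfl⟩
    exact hsum n
  have hsS : ∀ n, s n ≤ S := fun n => hs_mono.ge_of_tendsto hS n
  -- (3)
  have h3 : ∀ n m (hnm : n ≤ m) (x : E0) (hx : x ∈ G n),
      |F (b.j n ⟨x, hx⟩) - F (b.j m ⟨x, hG hnm hx⟩)| ≤ (s m - s n) * ‖x‖ := by
    intro n m hnm
    induction m, hnm using Nat.le_induction with
    | base => intro x hx; rw [sub_self, sub_self]; simp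
    | succ m hnm ih =>
      intro x hx
      have e1 := ih x hx
      have e2 : F (b.j m ⟨x, hG hnm hx⟩) - F (b.j (m + 1) ⟨x, hG (hnm.trans (Nat.le_succ m)) hx⟩) =
          Φ m ⟨x, hG hnm hx⟩ := by
        rw [hΦ, hd_ap, map_sub]
      have e3 : |Φ m ⟨x, hG hnm hx⟩| ≤ ‖Φ m‖ * ‖x‖ := (Φ m).le_opNorm _
      rw [hs_succ]
      calc |F (b.j n ⟨x, hx⟩) - F (b.j (m + 1) ⟨x, hG (hnm.trans (Nat.le_succ m)) hx⟩)|
          = |(F (b.j n ⟨x, hx⟩) - F (b.j m ⟨x, hG hnm hx⟩)) + Φ m ⟨x, hG hnm hx⟩| := by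
            rw [← e2]; congr 1; ring
        _ ≤ |F (b.j n ⟨x, hx⟩) - F (b.j m ⟨x, hG hnm hx⟩)| + |Φ m ⟨x, hG hnm hx⟩| :=
            abs_add_le _ _
        _ ≤ (s m - s n) * ‖x‖ + ‖Φ m‖ * ‖x‖ := add_le_add e1 e3
        _ = _ := by ring
  -- (4)
  have hj_norm : ∀ n (x : G n), ‖b.j n x‖ ≤ ‖x‖ := by
    intro n x
    refine b.norm_le _ _ (norm_nonneg _) fun m => ?_
    rw [b.ev_j]
    split_ifs
    · rw [norm_zero]; exact norm_nonneg _
    · exact le_rfl
  have hex : ∀ n, ∃ f : StrongDual ℝ E0, (∀ x : G n, f x = F (b.j n x)) ∧ ‖f‖ ≤ ‖F‖ := by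
    intro n
    obtain ⟨f, hf1, hf2⟩ := exists_extension_norm_eq (G n) (F.comp (b.j n))
    refine ⟨f, hf1, ?_⟩
    rw [hf2]
    apply ContinuousLinearMap.opNorm_le_bound _ (norm_nonneg _)
    intro x
    exact (F.le_opNorm _).trans (mul_le_mul_of_nonneg_left (hj_norm n x) (norm_nonneg _))
  choose f hf1 hf2 using hex
  have hF' : ∃ F' : StrongDual ℝ E0, ∀ x, Tendsto (fun n => f n x) (hyperfilter ℕ) (𝓝 (F' x)) := by
    have hK := WeakDual.isCompact_closedBall (𝕜 := ℝ) (E := E0) 0 ‖F‖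
    have h4 := hK.ultrafilter_le_nhds'
      ((hyperfilter ℕ).map (fun n => (StrongDual.toWeakDual (f n) : WeakDual ℝ E0))) (by
        rw [Ultrafilter.mem_map]
        apply Filter.mem_of_superset Filter.univ_mem
        intro n _
        simp only [Set.mem_preimage, Metric.mem_closedBall, dist_zero_right]
        exact hf2 n)
    obtain ⟨y, _, hy⟩ := h4
    refine ⟨WeakDual.toStrongDual y, fun x => ?_⟩
    have h5 : Tendsto (fun n => (StrongDual.toWeakDual (f n) : WeakDual ℝ E0))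
        (hyperfilter ℕ) (𝓝 y) := hy
    exact ((WeakBilin.eval_continuous (topDualPairing ℝ E0) x).tendsto y).comp h5
  obtain ⟨F', hF'⟩ := hF'
  -- (5)
  have h5 : ∀ n (x : E0) (hx : x ∈ G n), |F (b.j n ⟨x, hx⟩) - F' x| ≤ (S - s n) * ‖x‖ := by
    intro n x hx
    have e1 : Tendsto (fun m => |F (b.j n ⟨x, hx⟩) - f m x|) (hyperfilter ℕ)
        (𝓝 |F (b.j n ⟨x, hx⟩) - F' x|) := (tendsto_const_nhds.sub (hF' x)).abs
    refine le_of_tendsto e1 ?_
    have e2 : ∀ᶠ m : ℕ in (hyperfilter ℕ : Filter ℕ), n ≤ m := by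
      have := Nat.hyperfilter_le_atTop
      exact this (eventually_ge_atTop n)
    filter_upwards [e2] with m hm
    have e3 := h3 n m hm x hx
    have e4 := hf1 m ⟨x, hG hm hx⟩
    simp only at e4
    rw [e4]
    refine e3.trans (mul_le_mul_of_nonneg_right ?_ (norm_nonneg _))
    linarith [hsS m]
  -- (6)
  have hmem : ∀ M n, M ≤ n → ∀ g, b.ev n g - b.ev M g ∈ G n := fun M n h g =>
    (G n).sub_mem (b.ev_mem n g) (hG h (b.ev_mem M g))
  have h6 : ∀ n g, b.P (n + 1) g - b.P n g =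
      b.j (n + 1) ⟨b.ev (n + 1) g - b.ev n g, hmem n (n + 1) (Nat.le_succ n) g⟩ := by
    intro n g
    apply hext
    intro m
    rw [map_sub, b.ev_P, b.ev_P, b.ev_j]
    by_cases h : m < n + 1
    · rw [if_pos h, min_eq_left (by omega), min_eq_left (by omega), sub_self]
    · rw [if_neg h, min_eq_right (by omega), min_eq_right (by omega)]
  have hyn : ∀ M n g, ‖b.ev n g - b.ev M g‖ ≤ 2 * ‖g‖ := by
    intro M n g
    have := norm_sub_le (b.ev n g) (b.ev M g)
    linarith [b.ev_norm n g, b.ev_norm M g]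
  -- (7)
  have h7 : ∀ M n (hMn : M ≤ n) g, |F (b.P n g) - F (b.P M g) -
      F (b.j n ⟨b.ev n g - b.ev M g, hmem M n hMn g⟩)| ≤ (s n - s M) * (2 * ‖g‖) := by
    intro M n hMn g
    induction n, hMn using Nat.le_induction with
    | base =>
      have e0 : (⟨b.ev M g - b.ev M g, hmem M M le_rfl g⟩ : G M) = 0 := by
        apply Subtype.ext
        simp
      rw [e0, map_zero, map_zero]
      simp
    | succ n hMn ih =>
      have e1 : F (b.P (n + 1) g) - F (b.P n g) =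
          F (b.j (n + 1) ⟨b.ev (n + 1) g - b.ev n g, hmem n (n + 1) (Nat.le_succ n) g⟩) := by
        rw [← map_sub, h6]
      have e2 : (⟨b.ev (n + 1) g - b.ev n g, hmem n (n + 1) (Nat.le_succ n) g⟩ : G (n + 1)) =
          ⟨b.ev (n + 1) g - b.ev M g, hmem M (n + 1) (hMn.trans (Nat.le_succ n)) g⟩ -
            ⟨b.ev n g - b.ev M g, hle n (hmem M n hMn g)⟩ := by
        apply Subtype.ext
        simp
      have e3 : F (b.j n ⟨b.ev n g - b.ev M g, hmem M n hMn g⟩) -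
          F (b.j (n + 1) ⟨b.ev n g - b.ev M g, hle n (hmem M n hMn g)⟩) =
          Φ n ⟨b.ev n g - b.ev M g, hmem M n hMn g⟩ := by
        rw [hΦ, hd_ap, map_sub]
      have e4 : |Φ n ⟨b.ev n g - b.ev M g, hmem M n hMn g⟩| ≤ ‖Φ n‖ * (2 * ‖g‖) :=
        ((Φ n).le_opNorm _).trans (mul_le_mul_of_nonneg_left (hyn M n g) (norm_nonneg _))
      rw [e2, map_sub, map_sub] at e1
      rw [hs_succ]
      calc |F (b.P (n + 1) g) - F (b.P M g) - F (b.j (n + 1)
            ⟨b.ev (n + 1) g - b.ev M g, hmem M (n + 1) (hMn.trans (Nat.le_succ n)) g⟩)|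
          = |(F (b.P n g) - F (b.P M g) - F (b.j n ⟨b.ev n g - b.ev M g, hmem M n hMn g⟩)) +
              Φ n ⟨b.ev n g - b.ev M g, hmem M n hMn g⟩| := by
            rw [← e3]; congr 1; linarith
        _ ≤ _ + _ := abs_add_le _ _
        _ ≤ (s n - s M) * (2 * ‖g‖) + ‖Φ n‖ * (2 * ‖g‖) := add_le_add ih e4
        _ = _ := by ring
  -- (8)
  have h8 : ∀ M n (_ : M ≤ n) g, |F (b.P n g) - F (b.P M g) - F' (b.ev n g - b.ev M g)| ≤
      (S - s M) * (2 * ‖g‖) := by
    intro M n hMn g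
    have e1 := h7 M n hMn g
    have e2 := h5 n _ (hmem M n hMn g)
    have e3 : (S - s n) * ‖b.ev n g - b.ev M g‖ ≤ (S - s n) * (2 * ‖g‖) :=
      mul_le_mul_of_nonneg_left (hyn M n g) (by linarith [hsS n])
    calc |F (b.P n g) - F (b.P M g) - F' (b.ev n g - b.ev M g)|
        = |(F (b.P n g) - F (b.P M g) - F (b.j n ⟨b.ev n g - b.ev M g, hmem M n hMn g⟩)) +
          (F (b.j n ⟨b.ev n g - b.ev M g, hmem M n hMn g⟩) - F' (b.ev n g - b.ev M g))| := by
            congr 1; ring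
      _ ≤ _ + _ := abs_add_le _ _
      _ ≤ (s n - s M) * (2 * ‖g‖) + (S - s n) * (2 * ‖g‖) := add_le_add e1 (e2.trans e3)
      _ = _ := by ring
  -- (9)
  have hP : ∀ g, Tendsto (fun n => b.P n g) atTop (𝓝 g) := by
    intro g
    rw [Metric.tendsto_atTop]
    intro δ hδ
    obtain ⟨N, hN⟩ := Metric.tendsto_atTop.mp (b.lim g) (δ / 4) (by positivity)
    refine ⟨N, fun n hn => ?_⟩
    rw [dist_eq_norm]
    have e1 : ‖b.P n g - g‖ ≤ δ / 2 := by
      refine b.norm_le _ _ (by positivity) fun k => ?_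
      rw [map_sub, b.ev_P]
      by_cases h : k ≤ n
      · rw [min_eq_left h, sub_self, norm_zero]; positivity
      · rw [min_eq_right (by omega)]
        have e2 := hN n hn
        have e3 := hN k (by omega)
        rw [dist_eq_norm] at e2 e3
        calc ‖b.ev n g - b.ev k g‖ = ‖(b.ev n g - b.L g) - (b.ev k g - b.L g)‖ := by congr 1; abel
          _ ≤ ‖b.ev n g - b.L g‖ + ‖b.ev k g - b.L g‖ := norm_sub_le _ _
          _ ≤ δ / 2 := by linarith
    linarith
  have hLP : ∀ M g, b.L (b.P M g) = b.ev M g := by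
    intro M g
    refine tendsto_nhds_unique (b.lim (b.P M g)) ?_
    refine tendsto_const_nhds.congr' ?_
    filter_upwards [eventually_ge_atTop M] with k hk
    rw [b.ev_P, min_eq_right hk]
  have h9 : ∀ M g, |F g - F (b.P M g) - F' (b.L (g - b.P M g))| ≤ (S - s M) * (2 * ‖g‖) := by
    intro M g
    rw [map_sub b.L, hLP]
    have e1 : Tendsto (fun n => |F (b.P n g) - F (b.P M g) - F' (b.ev n g - b.ev M g)|) atTop
        (𝓝 |F g - F (b.P M g) - F' (b.L g - b.ev M g)|) := by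
      refine ((((F.continuous.tendsto g).comp (hP g)).sub tendsto_const_nhds).sub ?_).abs
      exact (F'.continuous.tendsto _).comp ((b.lim g).sub tendsto_const_nhds)
    refine le_of_tendsto e1 ?_
    filter_upwards [eventually_ge_atTop M] with n hn
    exact h8 M n hn g
  refine ⟨F', fun ε hε => ?_⟩
  obtain ⟨M0, hM0⟩ := Metric.tendsto_atTop.mp hS (ε / 2) (by positivity)
  refine ⟨M0, fun M hM g => (h9 M g).trans ?_⟩
  have e1 := hM0 M hM
  rw [Real.dist_eq, abs_sub_comm, abs_of_nonneg (by linarith [hsS M])] at e1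
  have : (S - s M) * (2 * ‖g‖) ≤ (ε / 2) * (2 * ‖g‖) :=
    mul_le_mul_of_nonneg_right e1.le (by positivity)
  linarith

end JA4

end Pool.Agent.Helper130.DL
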