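import Mathlib
import Pool.Agent.Helper130.DL.AuxDefs


set_option autoImplicit false

namespace Pool.Agent.Helper130.DL

open Filter Topology

namespace JA5

theorem tower_of_eq {E0 : Type} [NormedAddCommGroup E0] [NormedSpace ℝ E0]
    {G : ℕ → Submodule ℝ E0} {X : Type} [NormedAddCommGroup X] [NormedSpace ℝ X] (b : Base E0 G X)
    (x y : X) (h : ∀ n, b.ev n x = b.ev n y) : x = y := by
  rw [← sub_eq_zero, ← norm_le_zero_iff]
  apply b.norm_le _ 0 le_rfl
  intro n
  rw [map_sub, h, sub_self, norm_zero]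

theorem tower_of_fin {E0 : Type} [NormedAddCommGroup E0] [NormedSpace ℝ E0]
    {G : ℕ → Submodule ℝ E0} (hfd : ∀ n, FiniteDimensional ℝ (G n))
    {X : Type} [NormedAddCommGroup X] [NormedSpace ℝ X] (b : Base E0 G X) (M : ℕ) :
    FiniteDimensional ℝ (LinearMap.range (b.P M : X →ₗ[ℝ] X)) := by
  have := hfd
  obtain ⟨φ, hφ⟩ : ∃ φ : X →ₗ[ℝ] (∀ k : Fin (M + 1), G k), ∀ (x : X) (k : Fin (M + 1)), ((φ x k : G k) : E0) = b.ev k x :=
    ⟨LinearMap.pi (fun k : Fin (M + 1) => LinearMap.codRestrict (G k) (b.ev k : X →ₗ[ℝ] E0)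
      (fun x => b.ev_mem k x)), fun x k => rfl⟩
  apply Module.Finite.of_injective (φ.comp (LinearMap.range (b.P M : X →ₗ[ℝ] X)).subtype)
  rw [← LinearMap.ker_eq_bot, LinearMap.ker_eq_bot']
  rintro ⟨y, x, hx⟩ hy
  have hx' : b.P M x = y := hx
  have h0 : ∀ k : Fin (M + 1), b.ev k y = 0 := by
    intro k
    rw [← hφ y k]
    have : φ y = 0 := hy
    rw [this]
    rfl
  have hy0 : y = 0 := by
    apply tower_of_eq b
    intro n
    rw [map_zero, ← hx', b.ev_P]
    have h1 := h0 ⟨min n M, by omega⟩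
    rw [← hx', b.ev_P] at h1
    have h2 : min (min n M) M = min n M := by omega
    simp only at h1
    rw [h2] at h1
    exact h1
  exact Subtype.ext hy0

theorem tower_of {E0 : Type} [NormedAddCommGroup E0] [NormedSpace ℝ E0]
    {G : ℕ → Submodule ℝ E0} (hfd : ∀ n, FiniteDimensional ℝ (G n))
    {X : Type} [NormedAddCommGroup X] [NormedSpace ℝ X] (b : Base E0 G X)
    (hdual : ∀ F : StrongDual ℝ X, ∃ F' : StrongDual ℝ E0, ∀ ε : ℝ, 0 < ε → ∃ M0, ∀ M ≥ M0, ∀ g,
      |F g - F (b.P M g) - F' (b.L (g - b.P M g))| ≤ ε * ‖g‖)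
    (c : ℝ) (p : Seminorm ℝ X) (K : ℝ) (h1 : ∀ g, ‖g‖ ≤ p g) (h2 : ∀ g, p g ≤ K * ‖g‖)
    (h3 : ∀ M g, p (b.P M g) + ‖b.L (g - b.P M g)‖ ≤ (1 + c) * p g)
    (h4 : ∀ n x, p (b.j n x) ≤ ‖x‖)
    {E : Type} [NormedAddCommGroup E] [NormedSpace ℝ E] (e : X ≃L[ℝ] E)
    (he : ∀ x, ‖e x‖ = p x) : Nonempty (Tower E0 G c E) := by
  have hee : ∀ g : E, ‖g‖ = p (e.symm g) := by
    intro g
    rw [← he, e.apply_symm_apply]
  refine ⟨{ L := b.L.comp (e.symm : E →L[ℝ] X)
            P := fun M => (e : X →L[ℝ] E).comp ((b.P M).comp (e.symm : E →L[ℝ] X))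
            j := fun n => (e : X →L[ℝ] E).comp (b.j n)
            fin := ?_, idem := ?_, main := ?_, j_norm := ?_, L_norm := ?_, L_j := ?_, P_j := ?_
            P_lim := ?_, dual := ?_ }⟩
  · intro M
    have := tower_of_fin hfd b M
    have hle : LinearMap.range (((e : X →L[ℝ] E).comp ((b.P M).comp (e.symm : E →L[ℝ] X)) : E →L[ℝ] E) :
        E →ₗ[ℝ] E) ≤ Submodule.map ((e : X →L[ℝ] E) : X →ₗ[ℝ] E) (LinearMap.range (b.P M : X →ₗ[ℝ] X)) := by
      rintro _ ⟨g, rfl⟩
      exact ⟨b.P M (e.symm g), ⟨e.symm g, rfl⟩, rfl⟩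
    exact Submodule.finiteDimensional_of_le hle
  · intro M g
    show e (b.P M (e.symm (e (b.P M (e.symm g))))) = e (b.P M (e.symm g))
    rw [e.symm_apply_apply]
    congr 1
    apply tower_of_eq b
    intro n
    rw [b.ev_P, b.ev_P, b.ev_P]
    congr 2
    omega
  · intro M g
    show ‖e (b.P M (e.symm g))‖ + ‖b.L (e.symm (g - e (b.P M (e.symm g))))‖ ≤ (1 + c) * ‖g‖
    rw [he, hee g, map_sub, e.symm_apply_apply]
    exact h3 M (e.symm g)
  · intro n x
    show ‖e (b.j n x)‖ ≤ ‖x‖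
    rw [he]
    exact h4 n x
  · intro g
    show ‖b.L (e.symm g)‖ ≤ ‖g‖
    rw [hee g]
    refine le_trans ?_ (h1 _)
    exact le_of_tendsto (b.lim (e.symm g)).norm (Eventually.of_forall (fun n => b.ev_norm n _))
  · intro n x
    show b.L (e.symm (e (b.j n x))) = x
    rw [e.symm_apply_apply]
    refine tendsto_nhds_unique (b.lim (b.j n x)) ?_
    apply tendsto_const_nhds.congr'
    filter_upwards [eventually_ge_atTop n] with m hm
    rw [b.ev_j, if_neg (by omega)]
  · intro M n x hM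
    show e (b.P M (e.symm (e (b.j n x)))) = 0
    rw [e.symm_apply_apply]
    have : b.P M (b.j n x) = 0 := by
      apply tower_of_eq b
      intro m
      rw [b.ev_P, b.ev_j, if_pos (by omega), map_zero]
    rw [this, map_zero]
  · intro g
    have hx : Tendsto (fun M => b.P M (e.symm g)) atTop (𝓝 (e.symm g)) := by
      rw [Metric.tendsto_atTop]
      intro ε hε
      have hcau := (b.lim (e.symm g)).cauchySeq
      rw [Metric.cauchySeq_iff] at hcau
      obtain ⟨N0, hN0⟩ := hcau (ε / 2) (by linarith)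
      refine ⟨N0, fun M hM => ?_⟩
      rw [dist_eq_norm]
      refine lt_of_le_of_lt (b.norm_le _ (ε / 2) (by linarith) ?_) (by linarith)
      intro n
      rw [map_sub, b.ev_P]
      rcases Nat.lt_or_ge M n with h | h
      · have : min n M = M := by omega
        rw [this, ← dist_eq_norm]
        exact (hN0 M hM n (by omega)).le
      · have : min n M = n := by omega
        rw [this, sub_self, norm_zero]
        linarith
    have := (e.continuous.tendsto (e.symm g)).comp hx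
    rw [e.apply_symm_apply] at this
    exact this
  · intro F
    obtain ⟨F', hF'⟩ := hdual (F.comp (e : X →L[ℝ] E))
    refine ⟨F', fun ε hε => ?_⟩
    obtain ⟨M0, hM0⟩ := hF' ε hε
    refine ⟨M0, fun M hM g => ?_⟩
    have := hM0 M hM (e.symm g)
    show |F g - F (e (b.P M (e.symm g))) - F' (b.L (e.symm (g - e (b.P M (e.symm g)))))| ≤ ε * ‖g‖
    rw [map_sub e.symm, e.symm_apply_apply]
    have h5 : |F (e (e.symm g)) - F (e (b.P M (e.symm g))) - F' (b.L (e.symm g - b.P M (e.symm g)))| ≤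
        ε * ‖e.symm g‖ := this
    rw [e.apply_symm_apply] at h5
    refine h5.trans ?_
    rw [hee g]
    exact mul_le_mul_of_nonneg_left (h1 _) hε.le

end JA5

end Pool.Agent.Helper130.DL
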