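import Mathlib
import Pool.Agent.Helper130.DL.AuxDefs


set_option autoImplicit false

namespace Pool.Agent.Helper130.DL

open Filter Topology

namespace JB1

/-- the space `X` with the norm `p` -/
def Ren {X : Type} [NormedAddCommGroup X] [NormedSpace ℝ X] (_p : Seminorm ℝ X) : Type := X

section ren
variable {X : Type} [NormedAddCommGroup X] [NormedSpace ℝ X] (p : Seminorm ℝ X)

noncomputable instance : AddCommGroup (Ren p) := inferInstanceAs (AddCommGroup X)

noncomputable instance : Module ℝ (Ren p) := inferInstanceAs (Module ℝ X)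

/-- the identity -/
noncomputable def toRen : X ≃ₗ[ℝ] Ren p := LinearEquiv.refl ℝ X

noncomputable instance : Norm (Ren p) := ⟨fun x => p ((toRen p).symm x)⟩

theorem ren_norm (x : Ren p) : ‖x‖ = p ((toRen p).symm x) := rfl

theorem ren_core (a : ℝ) (ha : 0 < a) (h1 : ∀ x, a * ‖x‖ ≤ p x) : NormedSpace.Core ℝ (Ren p) where
  norm_nonneg x := apply_nonneg p _
  norm_smul c x := by
    rw [ren_norm, ren_norm, map_smul, map_smul_eq_mul]
  norm_triangle x y := by
    rw [ren_norm, ren_norm, ren_norm, map_add]
    exact map_add_le_add p _ _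
  norm_eq_zero_iff x := by
    rw [ren_norm]
    constructor
    · intro h
      have h2 := h1 ((toRen p).symm x)
      rw [h] at h2
      have h3 : ‖(toRen p).symm x‖ ≤ 0 := by
        by_contra hcon
        push Not at hcon
        have := mul_pos ha hcon
        linarith
      have h4 : (toRen p).symm x = 0 := norm_le_zero_iff.1 h3
      exact (LinearEquiv.map_eq_zero_iff _).1 h4
    · rintro rfl
      simp

end ren

theorem renormed {X : Type} [NormedAddCommGroup X] [NormedSpace ℝ X] [CompleteSpace X]
    (p : Seminorm ℝ X) (a b : ℝ) (ha : 0 < a) (h1 : ∀ x, a * ‖x‖ ≤ p x)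
    (h2 : ∀ x, p x ≤ b * ‖x‖) :
    ∃ (X' : Type) (_ : NormedAddCommGroup X') (_ : NormedSpace ℝ X') (_ : CompleteSpace X')
      (e : X ≃L[ℝ] X'), ∀ x, ‖e x‖ = p x := by
  letI i1 : NormedAddCommGroup (Ren p) := NormedAddCommGroup.ofCore (ren_core p a ha h1)
  letI i2 : NormedSpace ℝ (Ren p) := NormedSpace.ofCore (ren_core p a ha h1)
  have hn : ∀ x : Ren p, ‖x‖ = p ((toRen p).symm x) := fun x => rfl
  let e : X ≃L[ℝ] Ren p := LinearEquiv.toContinuousLinearEquivOfBounds (toRen p) b a⁻¹
    (fun x => by
      rw [hn, LinearEquiv.symm_apply_apply]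
      exact h2 x)
    (fun x => by
      rw [hn]
      have := h1 ((toRen p).symm x)
      rw [inv_mul_eq_div, le_div_iff₀ ha]
      linarith)
  have he : ∀ x, ‖e x‖ = p x := by
    intro x
    change ‖(toRen p) x‖ = p x
    rw [hn, LinearEquiv.symm_apply_apply]
  have hc : CompleteSpace (Ren p) := by
    let U : X ≃ᵤ Ren p :=
      ⟨e.toLinearEquiv.toEquiv, e.toContinuousLinearMap.uniformContinuous,
        e.symm.toContinuousLinearMap.uniformContinuous⟩
    exact U.completeSpace_iff.1 inferInstance
  exact ⟨Ren p, i1, i2, hc, e, he⟩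

end JB1

end Pool.Agent.Helper130.DL
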