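import Mathlib
import Pool.Agent.Helper130.DL.AuxDefs


set_option autoImplicit false

namespace Pool.Agent.Helper130.DL

open Filter Topology

namespace JB2

section
variable {Y : Type} [NormedAddCommGroup Y] [NormedSpace ℝ Y]

/-- the distance to the ball of radius `r t` of `N` -/
noncomputable def DD (N : Seminorm ℝ Y) (r : ℝ) (t : ℝ) (y : Y) : ℝ :=
  Metric.infDist y {z | N z ≤ r * t}

lemma zero_mem_S (N : Seminorm ℝ Y) {r t : ℝ} (h0 : 0 < r) (ht : 0 ≤ t) :
    (0 : Y) ∈ {z | N z ≤ r * t} := by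
  rw [Set.mem_ofPred_eq, map_zero]; positivity

lemma norm_le_DD (N : Seminorm ℝ Y) (hN : ∀ y, ‖y‖ ≤ N y) {r t : ℝ} (h0 : 0 < r) (ht : 0 ≤ t) (y : Y) :
    ‖y‖ ≤ DD N r t y + r * t := by
  have h : ‖y‖ - r * t ≤ DD N r t y := by
    unfold DD
    rw [Metric.le_infDist ⟨0, zero_mem_S N h0 ht⟩]
    intro z hz
    rw [Set.mem_ofPred_eq] at hz
    have h1 := hN z
    have h2 : ‖y‖ ≤ dist y z + ‖z‖ := by
      rw [dist_eq_norm]
      calc ‖y‖ = ‖(y - z) + z‖ := by rw [sub_add_cancel]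
        _ ≤ ‖y - z‖ + ‖z‖ := norm_add_le _ _
    linarith
  linarith

lemma DD_le_norm (N : Seminorm ℝ Y) {r t : ℝ} (h0 : 0 < r) (ht : 0 ≤ t) (y : Y) :
    DD N r t y ≤ ‖y‖ := by
  have h := Metric.infDist_le_dist_of_mem (x := y) (zero_mem_S N h0 ht)
  rwa [dist_zero_right] at h

lemma DD_smul_le (N : Seminorm ℝ Y) {r t : ℝ} (h0 : 0 < r) (ht : 0 ≤ t) (c : ℝ) (hc : c ≠ 0) (y : Y) :
    DD N r (|c| * t) (c • y) ≤ |c| * DD N r t y := by
  have hc' : 0 < |c| := abs_pos.mpr hc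
  have h : DD N r (|c| * t) (c • y) / |c| ≤ DD N r t y := by
    conv_rhs => unfold DD
    rw [Metric.le_infDist ⟨0, zero_mem_S N h0 ht⟩]
    intro z hz
    rw [Set.mem_ofPred_eq] at hz
    rw [div_le_iff₀ hc']
    have h1 : c • z ∈ {z | N z ≤ r * (|c| * t)} := by
      rw [Set.mem_ofPred_eq, map_smul_eq_mul, Real.norm_eq_abs]
      nlinarith
    have h2 := Metric.infDist_le_dist_of_mem (x := c • y) h1
    rw [dist_smul₀, Real.norm_eq_abs] at h2
    unfold DD
    linarith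
  rw [div_le_iff₀ hc'] at h
  linarith

lemma DD_smul (N : Seminorm ℝ Y) {r t : ℝ} (h0 : 0 < r) (ht : 0 ≤ t) (c : ℝ) (y : Y) :
    DD N r (|c| * t) (c • y) = |c| * DD N r t y := by
  by_cases hc : c = 0
  · subst hc
    simp only [abs_zero, zero_mul, zero_smul]
    exact Metric.infDist_zero_of_mem (zero_mem_S N h0 le_rfl)
  · apply le_antisymm (DD_smul_le N h0 ht c hc y)
    have hc' : 0 < |c| := abs_pos.mpr hc
    have h1 := DD_smul_le N h0 (t := |c| * t) (by positivity) c⁻¹ (inv_ne_zero hc) (c • y)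
    rw [smul_smul, inv_mul_cancel₀ hc, one_smul, abs_inv, ← mul_assoc, inv_mul_cancel₀ hc'.ne',
      one_mul] at h1
    rw [inv_mul_eq_div, le_div_iff₀ hc'] at h1
    linarith

lemma DD_add (N : Seminorm ℝ Y) (hN : ∀ y, ‖y‖ ≤ N y) {r : ℝ} (h0 : 0 < r) (a a' : ℝ) (y y' : Y) :
    DD N r |a + a'| (y + y') ≤ DD N r |a| y + DD N r |a'| y' + r * (|a| + |a'| - |a + a'|) := by
  set t := |a| + |a'| with ht
  have ht0 : 0 ≤ t := by positivity
  have hle : |a + a'| ≤ t := abs_add_le a a'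
  set l := |a + a'| / t with hl
  have hl0 : 0 ≤ l := by positivity
  have hl1 : l ≤ 1 := div_le_one_of_le₀ hle ht0
  have hlt : l * t = |a + a'| := by
    by_cases h : t = 0
    · rw [h, mul_zero]
      have := abs_nonneg (a + a')
      linarith
    · rw [hl, div_mul_cancel₀ _ h]
  have key : ∀ z1 ∈ {z | N z ≤ r * |a|}, ∀ z2 ∈ {z | N z ≤ r * |a'|},
      DD N r |a + a'| (y + y') ≤ dist y z1 + dist y' z2 + r * (t - |a + a'|) := by
    intro z1 hz1 z2 hz2
    rw [Set.mem_ofPred_eq] at hz1 hz2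
    have hz : N (z1 + z2) ≤ r * t := by
      have := map_add_le_add N z1 z2
      rw [ht]; linarith
    have hw : l • (z1 + z2) ∈ {z | N z ≤ r * |a + a'|} := by
      rw [Set.mem_ofPred_eq, map_smul_eq_mul, Real.norm_eq_abs, abs_of_nonneg hl0, ← hlt]
      nlinarith
    have h1 := Metric.infDist_le_dist_of_mem (x := y + y') hw
    have h2 : dist (y + y') (l • (z1 + z2)) ≤ dist y z1 + dist y' z2 + r * (t - |a + a'|) := by
      rw [dist_eq_norm, dist_eq_norm, dist_eq_norm]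
      have e : y + y' - l • (z1 + z2) = (y - z1) + (y' - z2) + (1 - l) • (z1 + z2) := by
        rw [sub_smul, one_smul]; abel
      rw [e]
      have h3 : ‖(1 - l) • (z1 + z2)‖ ≤ r * (t - |a + a'|) := by
        rw [norm_smul, Real.norm_eq_abs, abs_of_nonneg (by linarith)]
        have h4 := hN (z1 + z2)
        calc (1 - l) * ‖z1 + z2‖ ≤ (1 - l) * (r * t) :=
              mul_le_mul_of_nonneg_left (h4.trans hz) (by linarith)
          _ = r * (t - l * t) := by ring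
          _ = r * (t - |a + a'|) := by rw [hlt]
      have h5 := norm_add_le ((y - z1) + (y' - z2)) ((1 - l) • (z1 + z2))
      have h6 := norm_add_le (y - z1) (y' - z2)
      linarith
    exact h1.trans h2
  have s1 : ∀ z2 ∈ {z | N z ≤ r * |a'|},
      DD N r |a + a'| (y + y') - dist y' z2 - r * (t - |a + a'|) ≤ DD N r |a| y := by
    intro z2 hz2
    conv_rhs => unfold DD
    rw [Metric.le_infDist ⟨0, zero_mem_S N h0 (abs_nonneg a)⟩]
    intro z1 hz1
    have := key z1 hz1 z2 hz2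
    linarith
  have s2 : DD N r |a + a'| (y + y') - DD N r |a| y - r * (t - |a + a'|) ≤ DD N r |a'| y' := by
    conv_rhs => unfold DD
    rw [Metric.le_infDist ⟨0, zero_mem_S N h0 (abs_nonneg a')⟩]
    intro z2 hz2
    have := s1 z2 hz2
    linarith
  linarith

end

theorem exists_E0 {Y : Type} [NormedAddCommGroup Y] [NormedSpace ℝ Y] [CompleteSpace Y]
    (ren : ∀ (p : Seminorm ℝ (ℝ × Y)) (a b : ℝ), 0 < a → (∀ x, a * ‖x‖ ≤ p x) →
      (∀ x, p x ≤ b * ‖x‖) → ∃ (X' : Type) (_ : NormedAddCommGroup X') (_ : NormedSpace ℝ X')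
        (_ : CompleteSpace X') (e : (ℝ × Y) ≃L[ℝ] X'), ∀ x, ‖e x‖ = p x)
    (N : Seminorm ℝ Y) (hN : ∀ y, ‖y‖ ≤ N y) (r : ℝ) (h0 : 0 < r) (h1 : r ≤ 1) :
    ∃ (E0 : Type) (_ : NormedAddCommGroup E0) (_ : NormedSpace ℝ E0) (_ : CompleteSpace E0)
      (e : (ℝ × Y) ≃L[ℝ] E0), NormF N r e := by
  let f : ℝ × Y → ℝ := fun x => |x.1| + DD N r |x.1| x.2
  have hadd : ∀ x x', f (x + x') ≤ f x + f x' := by
    intro x x'
    have h2 := DD_add N hN h0 x.1 x'.1 x.2 x'.2
    have h3 : 0 ≤ |x.1| + |x'.1| - |x.1 + x'.1| := by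
      have := abs_add_le x.1 x'.1; linarith
    have h4 : r * (|x.1| + |x'.1| - |x.1 + x'.1|) ≤ |x.1| + |x'.1| - |x.1 + x'.1| := by
      nlinarith
    simp only [f, Prod.fst_add, Prod.snd_add]
    linarith
  have hsmul : ∀ (c : ℝ) x, f (c • x) = ‖c‖ * f x := by
    intro c x
    have h2 := DD_smul N h0 (abs_nonneg x.1) c x.2
    simp only [f, Prod.smul_fst, Prod.smul_snd, smul_eq_mul, abs_mul, Real.norm_eq_abs]
    rw [h2]; ring
  let p : Seminorm ℝ (ℝ × Y) := Seminorm.of f hadd hsmul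
  have hp : ∀ x, p x = f x := fun x => rfl
  have hDD0 : ∀ t y, 0 ≤ DD N r t y := fun t y => Metric.infDist_nonneg
  obtain ⟨E0, i1, i2, i3, e, he⟩ := ren p 1 2 one_pos (by
    intro x
    rw [hp, one_mul, Prod.norm_def]
    have h2 := norm_le_DD N hN h0 (abs_nonneg x.1) x.2
    have h3 := hDD0 |x.1| x.2
    have h4 := abs_nonneg x.1
    simp only [f]
    rw [Real.norm_eq_abs]
    apply max_le
    · linarith
    · nlinarith) (by
    intro x
    rw [hp, Prod.norm_def]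
    have h2 := DD_le_norm N h0 (abs_nonneg x.1) x.2
    have h3 := le_max_left ‖x.1‖ ‖x.2‖
    have h4 := le_max_right ‖x.1‖ ‖x.2‖
    rw [Real.norm_eq_abs] at *
    simp only [f]
    linarith)
  refine ⟨E0, i1, i2, i3, e, ?_⟩
  intro a y
  rw [he]
  rfl


end JB2

end Pool.Agent.Helper130.DL
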