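import Mathlib
import Pool.Agent.Helper130.DL.AuxDefs


set_option autoImplicit false

namespace Pool.Agent.Helper130.DL

open Filter Topology

namespace JC1

abbrev Y1 : Type := lp (fun _ : ℕ => ℝ) 1

noncomputable def eb (n : ℕ) : Y1 := lp.single 1 n (1 : ℝ)

theorem eb_norm (n : ℕ) : ‖eb n‖ = 1 := by
  unfold eb
  rw [lp.norm_single (by norm_num)]
  norm_num

theorem y_summ (y : Y1) : Summable (fun n => |y n|) := by
  have h := (lp.memℓp y).summable (by norm_num : 0 < (1 : ENNReal).toReal)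
  simpa [Real.norm_eq_abs] using h

theorem y_norm (y : Y1) : ‖y‖ = ∑' n, |y n| := by
  have h := lp.norm_eq_tsum_rpow (by norm_num : 0 < (1 : ENNReal).toReal) y
  simpa [Real.norm_eq_abs] using h

theorem v_summ (v : ℕ → Y1) (hv : ∀ n, ‖v n‖ ≤ 1) (y : Y1) : Summable (fun n => y n • v n) := by
  refine Summable.of_norm_bounded (y_summ y) ?_
  intro n
  rw [norm_smul, Real.norm_eq_abs]
  calc |y n| * ‖v n‖ ≤ |y n| * 1 := mul_le_mul_of_nonneg_left (hv n) (abs_nonneg _)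
    _ = |y n| := mul_one _

noncomputable def Tl (v : ℕ → Y1) (hv : ∀ n, ‖v n‖ ≤ 1) : Y1 →ₗ[ℝ] Y1 where
  toFun y := ∑' n, y n • v n
  map_add' x y := by
    rw [← (v_summ v hv x).tsum_add (v_summ v hv y)]
    congr 1
    ext1 n
    rw [lp.coeFn_add, Pi.add_apply, add_smul]
  map_smul' a y := by
    rw [RingHom.id_apply, ← (v_summ v hv y).tsum_const_smul]
    congr 1
    ext1 n
    rw [lp.coeFn_smul, Pi.smul_apply, smul_eq_mul, mul_smul]

theorem Tl_norm (v : ℕ → Y1) (hv : ∀ n, ‖v n‖ ≤ 1) (y : Y1) : ‖Tl v hv y‖ ≤ 1 * ‖y‖ := by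
  have hs : Summable (fun n => ‖y n • v n‖) := by
    refine Summable.of_nonneg_of_le (fun n => norm_nonneg _) ?_ (y_summ y)
    intro n
    rw [norm_smul, Real.norm_eq_abs]
    calc |y n| * ‖v n‖ ≤ |y n| * 1 := mul_le_mul_of_nonneg_left (hv n) (abs_nonneg _)
      _ = |y n| := mul_one _
  have h1 : ‖Tl v hv y‖ ≤ ∑' n, ‖y n • v n‖ := norm_tsum_le_tsum_norm hs
  rw [one_mul, y_norm y]
  refine h1.trans (hs.tsum_le_tsum ?_ (y_summ y))
  intro n
  rw [norm_smul, Real.norm_eq_abs]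
  calc |y n| * ‖v n‖ ≤ |y n| * 1 := mul_le_mul_of_nonneg_left (hv n) (abs_nonneg _)
    _ = |y n| := mul_one _

noncomputable def Tc (v : ℕ → Y1) (hv : ∀ n, ‖v n‖ ≤ 1) : Y1 →L[ℝ] Y1 :=
  (Tl v hv).mkContinuous 1 (Tl_norm v hv)

theorem Tc_apply (v : ℕ → Y1) (hv : ∀ n, ‖v n‖ ≤ 1) (y : Y1) : Tc v hv y = ∑' n, y n • v n := rfl

theorem Tc_fin (v : ℕ → Y1) (hv : ∀ n, ‖v n‖ ≤ 1) (hf : (Set.range v).Finite) :
    FiniteDimensional ℝ (LinearMap.range (Tc v hv : Y1 →ₗ[ℝ] Y1)) := by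
  have hfd : FiniteDimensional ℝ (Submodule.span ℝ (Set.range v)) :=
    FiniteDimensional.span_of_finite ℝ hf
  have hcl : IsClosed ((Submodule.span ℝ (Set.range v) : Submodule ℝ Y1) : Set Y1) :=
    Submodule.closed_of_finiteDimensional _
  have hle : LinearMap.range (Tc v hv : Y1 →ₗ[ℝ] Y1) ≤ Submodule.span ℝ (Set.range v) := by
    rintro _ ⟨y, rfl⟩
    show Tc v hv y ∈ _
    rw [Tc_apply]
    have h := (v_summ v hv y).hasSum
    refine hcl.mem_of_tendsto h (Eventually.of_forall fun s => ?_)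
    exact Submodule.sum_mem _ fun n _ => Submodule.smul_mem _ _ (Submodule.subset_span ⟨n, rfl⟩)
  exact Submodule.finiteDimensional_of_le hle

theorem f_y (f : StrongDual ℝ Y1) (y : Y1) : HasSum (fun n => y n * f (eb n)) (f y) := by
  have h := (lp.hasSum_single (by norm_num : (1 : ENNReal) ≠ ⊤) y).mapL f
  have key : (fun n => y n * f (eb n)) = fun n => f (lp.single 1 n (y n)) := by
    funext n
    have : (lp.single 1 n (y n) : Y1) = y n • eb n := by
      unfold eb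
      rw [← lp.single_smul, smul_eq_mul, mul_one]
    rw [this, map_smul, smul_eq_mul]
  rw [key]
  exact h

theorem good_one (N : Seminorm ℝ (lp (fun _ : ℕ => ℝ) 1)) (hN : ∀ y, ‖y‖ ≤ N y) : Good N 1 := by
  classical
  intro Φ ε hε
  let cell : ℕ → (Φ → ℤ) := fun n f => ⌊(f : StrongDual ℝ Y1) (eb n) / ε⌋
  let rep : (Φ → ℤ) → ℕ := fun c => if h : ∃ m, cell m = c then h.choose else 0
  have hrep : ∀ n, cell (rep (cell n)) = cell n := by
    intro n
    have h : ∃ m, cell m = cell n := ⟨n, rfl⟩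
    have : rep (cell n) = h.choose := dif_pos h
    rw [this]
    exact h.choose_spec
  let v : ℕ → Y1 := fun n => eb (rep (cell n))
  have hv : ∀ n, ‖v n‖ ≤ 1 := fun n => (eb_norm _).le
  have hfin : (Set.range cell).Finite := by
    refine (Set.Finite.pi (t := fun f : Φ => Set.Icc ⌊-‖(f : StrongDual ℝ Y1)‖ / ε⌋
      ⌊‖(f : StrongDual ℝ Y1)‖ / ε⌋) fun f => Set.finite_Icc _ _).subset ?_
    rintro _ ⟨n, rfl⟩ f _
    have h1 : |(f : StrongDual ℝ Y1) (eb n)| ≤ ‖(f : StrongDual ℝ Y1)‖ := by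
      have := (f : StrongDual ℝ Y1).le_opNorm (eb n)
      rw [eb_norm, mul_one] at this
      exact this
    have h2 := abs_le.1 h1
    exact ⟨Int.floor_le_floor (by gcongr; exact h2.1), Int.floor_le_floor (by gcongr; exact h2.2)⟩
  have hvfin : (Set.range v).Finite := by
    refine (hfin.image (fun c => eb (rep c))).subset ?_
    rintro _ ⟨n, rfl⟩
    exact ⟨cell n, ⟨n, rfl⟩, rfl⟩
  have hclose : ∀ f ∈ Φ, ∀ n, |f (v n) - f (eb n)| ≤ ε := by
    intro f hf n
    have h1 : cell (rep (cell n)) ⟨f, hf⟩ = cell n ⟨f, hf⟩ := by rw [hrep]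
    have h2 : |f (v n) / ε - f (eb n) / ε| < 1 := Int.abs_sub_lt_one_of_floor_eq_floor h1
    rw [← sub_div, abs_div, abs_of_pos hε, div_lt_one hε] at h2
    exact h2.le
  refine ⟨Tc v hv, Tc_fin v hv hvfin, ?_, ?_, ?_⟩
  · exact (LinearMap.mkContinuous_norm_le _ zero_le_one _).trans (by linarith)
  · intro f hf
    refine ContinuousLinearMap.opNorm_le_bound _ hε.le ?_
    intro y
    have h1 : HasSum (fun n => y n * f (v n)) (f (Tc v hv y)) := by
      have h := (v_summ v hv y).hasSum.mapL f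
      simpa [map_smul, smul_eq_mul, Tc_apply] using h
    have h2 := f_y f y
    have h3 := h1.sub h2
    have h4 : (f.comp (Tc v hv) - f) y = f (Tc v hv y) - f y := rfl
    rw [h4, ← h3.tsum_eq, y_norm y, Real.norm_eq_abs, ← tsum_mul_left]
    have hb : ∀ n, ‖y n * f (v n) - y n * f (eb n)‖ ≤ ε * |y n| := by
      intro n
      rw [← mul_sub, Real.norm_eq_abs, abs_mul, mul_comm]
      exact mul_le_mul_of_nonneg_right (hclose f hf n) (abs_nonneg _)
    exact tsum_of_norm_bounded ((y_summ y).mul_left ε).hasSum hb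
  · intro y hy
    refine ⟨0, ?_, ?_⟩
    · rw [map_zero]; exact zero_le_one
    · rw [sub_zero]
      have h1 : ‖Tc v hv y‖ ≤ 1 * ‖y‖ := Tl_norm v hv y
      linarith [hN y]

end JC1

end Pool.Agent.Helper130.DL
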