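import Mathlib
import Pool.Agent.Helper130.DL.AuxDefs


set_option autoImplicit false

namespace Pool.Agent.Helper130.DL

open Filter Topology

namespace JC2a

theorem mazur {Y : Type} [NormedAddCommGroup Y] [NormedSpace ℝ Y] (U : Set (Y →L[ℝ] Y))
    (hU : Convex ℝ U)
    (h : ∀ (Φ : Finset (StrongDual ℝ Y)) (ε : ℝ), 0 < ε → ∃ T ∈ U, ∀ f ∈ Φ, ‖f.comp T - f‖ ≤ ε)
    (A : Finset Y) (ε : ℝ) (hε : 0 < ε) : ∃ T ∈ U, ∀ x ∈ A, ‖T x - x‖ ≤ ε := by
  classical
  let q : (Y →L[ℝ] Y) →ₗ[ℝ] (A → Y) :=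
    { toFun := fun T x => T x
      map_add' := fun T T' => rfl
      map_smul' := fun r T => rfl }
  let p : A → Y := fun x => (x : Y)
  by_cases hp : p ∈ closure (q '' U)
  · obtain ⟨b, ⟨T, hT, rfl⟩, hb⟩ := Metric.mem_closure_iff.1 hp ε hε
    refine ⟨T, hT, fun x hx => ?_⟩
    have h1 := (dist_pi_lt_iff hε).1 hb ⟨x, hx⟩
    rw [dist_comm, dist_eq_norm] at h1
    exact h1.le
  · exfalso
    obtain ⟨Ψ, u, hu1, hu2⟩ := geometric_hahn_banach_point_closed
      ((hU.linear_image q).closure) isClosed_closure hp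
    let f : A → StrongDual ℝ Y := fun x =>
      Ψ.comp (ContinuousLinearMap.single ℝ (fun _ : A => Y) x)
    have hΨ : ∀ z : A → Y, Ψ z = ∑ x, f x (z x) := by
      intro z
      have e1 : z = ∑ x, Pi.single x (z x) := (Finset.univ_sum_single z).symm
      conv_lhs => rw [e1, map_sum]
      rfl
    have hs0 : 0 ≤ ∑ x : A, ‖(x : Y)‖ := Finset.sum_nonneg fun _ _ => norm_nonneg _
    obtain ⟨δ, hδ⟩ : ∃ δ, δ = (u - Ψ p) / (1 + ∑ x : A, ‖(x : Y)‖) := ⟨_, rfl⟩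
    have hδ0 : 0 < δ := by
      rw [hδ]
      exact div_pos (by linarith) (by linarith)
    obtain ⟨T, hT, hTf⟩ := h (Finset.univ.image f) δ hδ0
    have h1 : u < Ψ (q T) := hu2 _ (subset_closure ⟨T, hT, rfl⟩)
    have h2 : Ψ (q T) - Ψ p ≤ δ * ∑ x : A, ‖(x : Y)‖ := by
      rw [hΨ, hΨ, ← Finset.sum_sub_distrib, Finset.mul_sum]
      refine Finset.sum_le_sum fun x _ => ?_
      have h3 := hTf (f x) (Finset.mem_image_of_mem f (Finset.mem_univ x))
      have h4 := ((f x).comp T - f x).le_opNorm (x : Y)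
      have h5 : ‖((f x).comp T - f x) (x : Y)‖ ≤ δ * ‖(x : Y)‖ :=
        h4.trans (mul_le_mul_of_nonneg_right h3 (norm_nonneg _))
      exact (le_abs_self _).trans h5
    have h6 : δ * (1 + ∑ x : A, ‖(x : Y)‖) = u - Ψ p := by
      rw [hδ]
      exact div_mul_cancel₀ _ (by linarith)
    nlinarith

end JC2a

end Pool.Agent.Helper130.DL
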