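import Mathlib
import Pool.Agent.Helper130.DL.AuxDefs


set_option autoImplicit false

namespace Pool.Agent.Helper130.DL

open Filter Topology

namespace JC2b

theorem c2b_convex {Y : Type} [NormedAddCommGroup Y] [NormedSpace ℝ Y] (N : Seminorm ℝ Y) (η : ℝ) :
    Convex ℝ {T : Y →L[ℝ] Y | FiniteDimensional ℝ (LinearMap.range (T : Y →ₗ[ℝ] Y)) ∧
      ‖T‖ ≤ 1 + η ∧ Moves N T η} := by
  rintro T1 ⟨f1, n1, m1⟩ T2 ⟨f2, n2, m2⟩ a b ha hb hab
  refine ⟨?_, ?_, ?_⟩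
  · have hle : LinearMap.range ((a • T1 + b • T2 : Y →L[ℝ] Y) : Y →ₗ[ℝ] Y) ≤
        LinearMap.range (T1 : Y →ₗ[ℝ] Y) ⊔ LinearMap.range (T2 : Y →ₗ[ℝ] Y) := by
      rintro _ ⟨y, rfl⟩
      refine Submodule.add_mem_sup (Submodule.smul_mem _ a ⟨y, rfl⟩)
        (Submodule.smul_mem _ b ⟨y, rfl⟩)
    exact Submodule.finiteDimensional_of_le hle
  · calc ‖a • T1 + b • T2‖ ≤ ‖a • T1‖ + ‖b • T2‖ := norm_add_le _ _
      _ = a * ‖T1‖ + b * ‖T2‖ := by
          rw [norm_smul, norm_smul, Real.norm_of_nonneg ha, Real.norm_of_nonneg hb]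
      _ ≤ a * (1 + η) + b * (1 + η) := by
          gcongr
      _ = 1 + η := by rw [← add_mul, hab, one_mul]
  · intro y hy
    obtain ⟨z1, hz1, hz1'⟩ := m1 y hy
    obtain ⟨z2, hz2, hz2'⟩ := m2 y hy
    refine ⟨a • z1 + b • z2, ?_, ?_⟩
    · calc N (a • z1 + b • z2) ≤ N (a • z1) + N (b • z2) := map_add_le_add N _ _
        _ = a * N z1 + b * N z2 := by
            rw [map_smul_eq_mul, map_smul_eq_mul, Real.norm_of_nonneg ha, Real.norm_of_nonneg hb]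
        _ ≤ a * 1 + b * 1 := by gcongr
        _ = 1 := by linarith
    · have e : (a • T1 + b • T2 : Y →L[ℝ] Y) y - (a • z1 + b • z2) =
          a • (T1 y - z1) + b • (T2 y - z2) := by
        simp only [ContinuousLinearMap.add_apply, ContinuousLinearMap.smul_apply, smul_sub]
        abel
      rw [e]
      calc ‖a • (T1 y - z1) + b • (T2 y - z2)‖ ≤ ‖a • (T1 y - z1)‖ + ‖b • (T2 y - z2)‖ :=
            norm_add_le _ _
        _ = a * ‖T1 y - z1‖ + b * ‖T2 y - z2‖ := by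
            rw [norm_smul, norm_smul, Real.norm_of_nonneg ha, Real.norm_of_nonneg hb]
        _ ≤ a * η + b * η := by gcongr
        _ = η := by rw [← add_mul, hab, one_mul]

theorem c2b_bound {Y : Type} [NormedAddCommGroup Y] [NormedSpace ℝ Y] (N : Seminorm ℝ Y) (η C : ℝ)
    (hN : ∀ y, ‖y‖ ≤ N y ∧ N y ≤ C * ‖y‖) (hC : 1 ≤ C) (T : Y →L[ℝ] Y) (hT : Moves N T η) (y : Y) :
    N (T y) ≤ (1 + C * η) * N y := by
  have hC0 : 0 ≤ C := by linarith
  rcases (apply_nonneg N y).eq_or_lt with h | h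
  · have h1 : ‖y‖ ≤ 0 := h ▸ (hN y).1
    have h2 : y = 0 := by simpa using h1
    subst h2
    simp
  · have h1 : N ((N y)⁻¹ • y) = 1 := by
      rw [map_smul_eq_mul, norm_inv, Real.norm_of_nonneg h.le, inv_mul_cancel₀ h.ne']
    obtain ⟨z, hz, hz'⟩ := hT _ h1.le
    have h2 : N (T ((N y)⁻¹ • y)) ≤ 1 + C * η := by
      calc N (T ((N y)⁻¹ • y)) = N (z + (T ((N y)⁻¹ • y) - z)) := by congr 1; abel
        _ ≤ N z + N (T ((N y)⁻¹ • y) - z) := map_add_le_add N _ _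
        _ ≤ 1 + C * η := by
          have := (hN (T ((N y)⁻¹ • y) - z)).2
          have h3 := mul_le_mul_of_nonneg_left hz' hC0
          linarith
    rw [map_smul, map_smul_eq_mul, norm_inv, Real.norm_of_nonneg h.le, inv_mul_le_iff₀ h] at h2
    linarith

theorem map_of_good {Y : Type} [NormedAddCommGroup Y] [NormedSpace ℝ Y]
    (maz : ∀ (U : Set (Y →L[ℝ] Y)), Convex ℝ U →
      (∀ (Φ : Finset (StrongDual ℝ Y)) (ε : ℝ), 0 < ε → ∃ T ∈ U, ∀ f ∈ Φ, ‖f.comp T - f‖ ≤ ε) →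
      ∀ (A : Finset Y) (ε : ℝ), 0 < ε → ∃ T ∈ U, ∀ x ∈ A, ‖T x - x‖ ≤ ε)
    (N : Seminorm ℝ Y) (C : ℝ) (hN : ∀ y, ‖y‖ ≤ N y ∧ N y ≤ C * ‖y‖)
    (h : ∀ s, 0 < s → Good N s) (K : Set Y) (hK : IsCompact K) (ε : ℝ) (hε : 0 < ε) :
    ∃ T : Y →L[ℝ] Y, FiniteDimensional ℝ (LinearMap.range (T : Y →ₗ[ℝ] Y)) ∧
      (∀ x, N (T x) ≤ N x) ∧ ∀ x ∈ K, N (T x - x) ≤ ε := by
  obtain ⟨D, hD1, hND⟩ : ∃ D : ℝ, 1 ≤ D ∧ ∀ y, ‖y‖ ≤ N y ∧ N y ≤ D * ‖y‖ := by
    refine ⟨max C 1, le_max_right _ _, fun y => ⟨(hN y).1, (hN y).2.trans ?_⟩⟩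
    exact mul_le_mul_of_nonneg_right (le_max_left _ _) (norm_nonneg _)
  have hD0 : 0 < D := by linarith
  obtain ⟨R, hR0, hR⟩ : ∃ R : ℝ, 0 ≤ R ∧ ∀ x ∈ K, ‖x‖ ≤ R := by
    obtain ⟨R, hR⟩ := hK.isBounded.exists_norm_le
    exact ⟨max R 0, le_max_right _ _, fun x hx => (hR x hx).trans (le_max_left _ _)⟩
  set η := min 1 (ε / (4 * D ^ 2 * (R + 1))) with hη
  have hη0 : 0 < η := lt_min one_pos (by positivity)
  have hη1 : η ≤ 1 := min_le_left _ _
  have hη2 : D * (D * η * 2 * R) ≤ ε / 2 := by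
    have h1 : η ≤ ε / (4 * D ^ 2 * (R + 1)) := min_le_right _ _
    rw [le_div_iff₀ (by positivity)] at h1
    have h2 : 0 ≤ η * (4 * D ^ 2) := by positivity
    nlinarith
  set δ := ε / (16 * D) with hδ
  have hδ0 : 0 < δ := by positivity
  have hδD : D * δ = ε / 16 := by
    rw [hδ]; field_simp
  obtain ⟨t, htf, htK⟩ := Metric.totallyBounded_iff.1 hK.totallyBounded δ hδ0
  obtain ⟨T, ⟨hTf, hTn, hTm⟩, hTA⟩ := maz _ (c2b_convex N η) (by
    intro Φ ε' hε'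
    obtain ⟨T, h1, h2, h3, h4⟩ := h η hη0 Φ (min ε' η) (lt_min hε' hη0)
    exact ⟨T, ⟨h1, h2.trans (by linarith [min_le_right ε' η]), h4⟩,
      fun f hf => (h3 f hf).trans (min_le_left _ _)⟩) htf.toFinset δ hδ0
  have hb := c2b_bound N η D hND hD1 T hTm
  have hk : 0 < 1 + D * η := by positivity
  refine ⟨(1 + D * η)⁻¹ • T, ?_, ?_, ?_⟩
  · have hle : LinearMap.range (((1 + D * η)⁻¹ • T : Y →L[ℝ] Y) : Y →ₗ[ℝ] Y) ≤
        LinearMap.range (T : Y →ₗ[ℝ] Y) := by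
      rintro _ ⟨y, rfl⟩
      exact Submodule.smul_mem _ _ ⟨y, rfl⟩
    exact Submodule.finiteDimensional_of_le hle
  · intro x
    rw [ContinuousLinearMap.smul_apply, map_smul_eq_mul, norm_inv, Real.norm_of_nonneg hk.le,
      inv_mul_le_iff₀ hk]
    exact hb x
  · intro x hx
    refine (hND _).2.trans ?_
    obtain ⟨a, ha, hxa⟩ : ∃ a ∈ t, ‖x - a‖ < δ := by
      have := htK hx
      simp only [Set.mem_iUnion, Metric.mem_ball, exists_prop] at this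
      obtain ⟨a, ha, h'⟩ := this
      exact ⟨a, ha, by rwa [dist_eq_norm] at h'⟩
    have hT2 : ‖T‖ ≤ 2 := by linarith
    have e1 : ‖T x - x‖ ≤ 4 * δ := by
      have e : T x - x = T (x - a) + (T a - a) + (a - x) := by
        rw [map_sub]; abel
      rw [e]
      have b1 : ‖T (x - a)‖ ≤ 2 * δ :=
        (T.le_opNorm _).trans (mul_le_mul hT2 hxa.le (norm_nonneg _) (by norm_num))
      have b2 : ‖T a - a‖ ≤ δ := hTA a (by simpa using ha)
      have b3 : ‖a - x‖ ≤ δ := by rw [norm_sub_rev]; exact hxa.le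
      have b4 := norm_add_le (T (x - a) + (T a - a)) (a - x)
      have b5 := norm_add_le (T (x - a)) (T a - a)
      linarith
    have e2 : ‖((1 + D * η)⁻¹ • T : Y →L[ℝ] Y) x - T x‖ ≤ D * η * 2 * R := by
      have e : ((1 + D * η)⁻¹ • T : Y →L[ℝ] Y) x - T x = ((1 + D * η)⁻¹ - 1) • T x := by
        rw [ContinuousLinearMap.smul_apply, sub_smul, one_smul]
      rw [e, norm_smul]
      have b1 : ‖(1 + D * η)⁻¹ - 1‖ ≤ D * η := by
        have hpos : 0 ≤ D * η := by positivity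
        have h1 : (1 + D * η)⁻¹ ≤ 1 := inv_le_one_of_one_le₀ (by linarith)
        rw [Real.norm_of_nonpos (by linarith)]
        have h2 : 1 - D * η ≤ (1 + D * η)⁻¹ := by
          rw [← one_div, le_div_iff₀ hk]
          nlinarith
        linarith
      have b2 : ‖T x‖ ≤ 2 * R :=
        (T.le_opNorm _).trans (mul_le_mul hT2 (hR x hx) (norm_nonneg _) (by norm_num))
      calc _ ≤ D * η * (2 * R) := mul_le_mul b1 b2 (norm_nonneg _) (by positivity)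
        _ = _ := by ring
    have e3 : ‖((1 + D * η)⁻¹ • T : Y →L[ℝ] Y) x - x‖ ≤ D * η * 2 * R + 4 * δ := by
      have e : ((1 + D * η)⁻¹ • T : Y →L[ℝ] Y) x - x =
        (((1 + D * η)⁻¹ • T : Y →L[ℝ] Y) x - T x) + (T x - x) := by abel
      rw [e]
      exact (norm_add_le _ _).trans (add_le_add e2 e1)
    have e4 := mul_le_mul_of_nonneg_left e3 hD0.le
    rw [mul_add] at e4
    have : D * (4 * δ) = ε / 4 := by
      rw [← mul_assoc, mul_comm D 4, mul_assoc, hδD]; ring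
    linarith

end JC2b

end Pool.Agent.Helper130.DL
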