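import Mathlib
import Pool.Agent.Helper130.DL.AuxDefs


set_option autoImplicit false

namespace Pool.Agent.Helper130.DL

open Filter Topology

namespace JC3

theorem exists_gap_of (N : Seminorm ℝ (lp (fun _ : ℕ => ℝ) 1)) (h1 : Good N 1)
    (h2 : ¬ ∀ s, 0 < s → Good N s) :
    ∃ s : ℝ, 0 < s ∧ s ≤ 1 ∧ Good N s ∧ ¬ Good N ((1 - s / 400) * s) := by
  have hmono : ∀ s s' : ℝ, s ≤ s' → Good N s → Good N s' := by
    intro s s' hle hG Φ ε hε
    obtain ⟨T, a, b, c, d⟩ := hG Φ ε hε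
    refine ⟨T, a, b, c, fun y hy => ?_⟩
    obtain ⟨z, hz, h⟩ := d y hy
    exact ⟨z, hz, h.trans hle⟩
  push Not at h2
  obtain ⟨s1, hs1, hn⟩ := h2
  obtain ⟨S, hS⟩ : ∃ S : Set ℝ, S = {s | 0 < s ∧ Good N s} := ⟨_, rfl⟩
  have hmem : ∀ s, s ∈ S ↔ 0 < s ∧ Good N s := by
    intro s; rw [hS]; exact Iff.rfl
  have h1S : (1:ℝ) ∈ S := (hmem 1).mpr ⟨one_pos, h1⟩
  have hlb : ∀ s ∈ S, s1 ≤ s := by
    intro s hs
    by_contra hcon
    push Not at hcon
    exact hn (hmono s s1 hcon.le ((hmem s).mp hs).2)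
  have hbdd : BddBelow S := ⟨s1, hlb⟩
  have hs0 : s1 ≤ sInf S := le_csInf ⟨1, h1S⟩ hlb
  have hs0pos : 0 < sInf S := lt_of_lt_of_le hs1 hs0
  obtain ⟨s, hsS, hslt⟩ := exists_lt_of_csInf_lt ⟨1, h1S⟩
    (show sInf S < sInf S + (sInf S) ^ 2 / 400 by
      have : 0 < (sInf S) ^ 2 / 400 := by positivity
      linarith)
  have htS : min s 1 ∈ S := by
    rcases min_choice s 1 with h | h <;> rw [h]
    · exact hsS
    · exact h1S
  have ht0 := csInf_le hbdd htS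
  have htpos : 0 < min s 1 := ((hmem _).mp htS).1
  have ht1 : min s 1 ≤ 1 := min_le_right _ _
  have hts : min s 1 ≤ s := min_le_left _ _
  refine ⟨min s 1, htpos, ht1, ((hmem _).mp htS).2, ?_⟩
  generalize min s 1 = t at *
  intro hG
  have hpos : 0 < (1 - t / 400) * t := by
    apply mul_pos _ htpos
    linarith
  have h3 := csInf_le hbdd ((hmem _).mpr ⟨hpos, hG⟩)
  have h4 : (sInf S) ^ 2 ≤ t ^ 2 := pow_le_pow_left₀ hs0pos.le ht0 2
  nlinarith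

end JC3

end Pool.Agent.Helper130.DL
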