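import Mathlib
import Pool.Agent.Helper130.DL.AuxDefs


set_option autoImplicit false

namespace Pool.Agent.Helper130.DL

open Filter Topology

namespace JD1

theorem dual_ap {X : Type} [NormedAddCommGroup X] [NormedSpace ℝ X]
    (adj : ∀ (V0 : StrongDual ℝ X →L[ℝ] StrongDual ℝ X),
      FiniteDimensional ℝ (LinearMap.range (V0 : StrongDual ℝ X →ₗ[ℝ] StrongDual ℝ X)) →
      ∀ (Φ : Finset (StrongDual ℝ X)) (ε : ℝ), 0 < ε →
      ∃ u : X →L[ℝ] X, FiniteDimensional ℝ (LinearMap.range (u : X →ₗ[ℝ] X)) ∧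
      ‖u‖ ≤ (1 + ε) * ‖V0‖ ∧ ∀ f ∈ Φ, f.comp u = V0 f)
    (lam : ℝ) (h0 : 0 ≤ lam)
    (h : HasLAP (StrongDual ℝ X) (fun f => ‖f‖) lam) (Φ : Finset (StrongDual ℝ X)) (ε : ℝ)
    (hε : 0 < ε) :
    ∃ u : X →L[ℝ] X, FiniteDimensional ℝ (LinearMap.range (u : X →ₗ[ℝ] X)) ∧
      ‖u‖ ≤ lam + ε ∧ ∀ f ∈ Φ, ‖f.comp u - f‖ ≤ ε := by
  obtain ⟨V0, hfin, hb, hc⟩ := h (Φ : Set (StrongDual ℝ X)) (Φ.finite_toSet.isCompact) ε hε
  have hV : ‖V0‖ ≤ lam := ContinuousLinearMap.opNorm_le_bound _ h0 hb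
  obtain ⟨u, hu, hn, hf⟩ := adj V0 hfin Φ (ε / (lam + 1)) (by positivity)
  refine ⟨u, hu, ?_, ?_⟩
  · refine hn.trans ?_
    have h1 : (1 + ε / (lam + 1)) * ‖V0‖ ≤ (1 + ε / (lam + 1)) * lam := by
      apply mul_le_mul_of_nonneg_left hV
      positivity
    refine h1.trans ?_
    have h2 : ε / (lam + 1) * lam ≤ ε := by
      rw [div_mul_eq_mul_div, div_le_iff₀ (by linarith)]
      nlinarith
    nlinarith
  · intro f hf'
    rw [hf f hf']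
    exact (hc f (by exact_mod_cast hf')).le

end JD1

end Pool.Agent.Helper130.DL
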