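import Mathlib
import Pool.Agent.Helper130.DL.AuxDefs
import Pool.Agent.Helper362.IdealD

set_option autoImplicit false

namespace Pool.Agent.Helper130.DL

open Filter Topology

namespace JD1a

theorem fd_of_ker_eq {𝕜 X Y Z : Type} [Field 𝕜] [AddCommGroup X] [Module 𝕜 X]
    [AddCommGroup Y] [Module 𝕜 Y] [AddCommGroup Z] [Module 𝕜 Z] [FiniteDimensional 𝕜 Z]
    (A : X →ₗ[𝕜] Y) (E : X →ₗ[𝕜] Z) (h : LinearMap.ker A = LinearMap.ker E) :
    FiniteDimensional 𝕜 (LinearMap.range A) := by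
  have e : LinearMap.range E ≃ₗ[𝕜] LinearMap.range A :=
    (E.quotKerEquivRange.symm.trans (Submodule.quotEquivOfEq _ _ h.symm)).trans A.quotKerEquivRange
  exact e.finiteDimensional

theorem adj_core {𝕜 : Type} [RCLike 𝕜] {X : Type} [NormedAddCommGroup X] [NormedSpace 𝕜 X]
    {W : Type} [NormedAddCommGroup W] [NormedSpace 𝕜 W]
    (V0 : StrongDual 𝕜 X →L[𝕜] StrongDual 𝕜 X)
    (hV : FiniteDimensional 𝕜 (LinearMap.range (V0 : StrongDual 𝕜 X →ₗ[𝕜] StrongDual 𝕜 X)))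
    (Φ : Finset (StrongDual 𝕜 X)) (ε : ℝ) (hε : 0 < ε) (A : X →L[𝕜] W)
    (val : W → StrongDual 𝕜 X → 𝕜) (hAx : ∀ x f, val (A x) f = V0 f x)
    (hAn : ∀ x, ‖A x‖ ≤ ‖V0‖ * ‖x‖) (hv0 : ∀ f, val 0 f = 0)
    (hvi : ∀ w, (∀ f, val w f = 0) → w = 0)
    (hplr : ∀ G : Submodule 𝕜 W, FiniteDimensional 𝕜 G → ∃ R : G →L[𝕜] X, ‖R‖ ≤ 1 + ε ∧
      ∀ g : G, ∀ f ∈ Φ, f (R g) = val g f) :
    ∃ u : X →L[𝕜] X, FiniteDimensional 𝕜 (LinearMap.range (u : X →ₗ[𝕜] X)) ∧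
      ‖u‖ ≤ (1 + ε) * ‖V0‖ ∧ ∀ f ∈ Φ, f.comp u = V0 f := by
  obtain ⟨N, hN⟩ : ∃ N, N = LinearMap.range (V0 : StrongDual 𝕜 X →ₗ[𝕜] StrongDual 𝕜 X) := ⟨_, rfl⟩
  rw [← hN] at hV
  let Ev : X →ₗ[𝕜] Module.Dual 𝕜 N :=
    { toFun := fun x =>
        { toFun := fun f => (f : StrongDual 𝕜 X) x
          map_add' := fun _ _ => rfl
          map_smul' := fun _ _ => rfl }
      map_add' := fun y z => by
        ext f
        exact map_add (f : StrongDual 𝕜 X) y z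
      map_smul' := fun c y => by
        ext f
        exact map_smul (f : StrongDual 𝕜 X) c y }
  have hker : LinearMap.ker (A : X →ₗ[𝕜] W) = LinearMap.ker Ev := by
    ext x
    rw [LinearMap.mem_ker, LinearMap.mem_ker]
    constructor
    · intro h
      ext f
      obtain ⟨f, hf⟩ := f
      rw [hN] at hf
      obtain ⟨g, rfl⟩ := hf
      have h2 : A x = 0 := h
      have h1 := hAx x g
      rw [h2, hv0] at h1
      exact h1.symm
    · intro h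
      apply hvi
      intro g
      have h1 : Ev x ⟨V0 g, by rw [hN]; exact ⟨g, rfl⟩⟩ = 0 := by
        rw [h]
        rfl
      exact (hAx x g).trans h1
  have hfd : FiniteDimensional 𝕜 (LinearMap.range (A : X →ₗ[𝕜] W)) :=
    fd_of_ker_eq _ Ev hker
  obtain ⟨G, hG⟩ : ∃ G : Submodule 𝕜 W, G = LinearMap.range (A : X →ₗ[𝕜] W) := ⟨_, rfl⟩
  rw [← hG] at hfd
  have hAG : ∀ x, A x ∈ G := by
    intro x
    rw [hG]
    exact ⟨x, rfl⟩
  obtain ⟨R, hR1, hR2⟩ := hplr G hfd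
  refine ⟨R ∘L (A.codRestrict G hAG), ?_, ?_, ?_⟩
  · have h1 : LinearMap.range ((R ∘L (A.codRestrict G hAG) : X →L[𝕜] X) : X →ₗ[𝕜] X) ≤
        LinearMap.range (R : G →ₗ[𝕜] X) := by
      rintro y ⟨x, rfl⟩
      exact ⟨A.codRestrict G hAG x, rfl⟩
    have h2 : FiniteDimensional 𝕜 (LinearMap.range (R : G →ₗ[𝕜] X)) :=
      LinearMap.finiteDimensional_range _
    exact Submodule.finiteDimensional_of_le h1
  · apply ContinuousLinearMap.opNorm_le_bound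
    · positivity
    · intro x
      calc ‖R (A.codRestrict G hAG x)‖ ≤ ‖R‖ * ‖A.codRestrict G hAG x‖ := R.le_opNorm _
        _ ≤ (1 + ε) * (‖V0‖ * ‖x‖) := mul_le_mul hR1 (hAn x) (norm_nonneg _) (by linarith)
        _ = (1 + ε) * ‖V0‖ * ‖x‖ := by ring
  · intro f hf
    ext x
    have h1 := hR2 (A.codRestrict G hAG x) f hf
    show f (R (A.codRestrict G hAG x)) = V0 f x
    rw [h1]
    exact hAx x f

theorem adj_approx {𝕜 : Type} [RCLike 𝕜] {X : Type} [NormedAddCommGroup X] [NormedSpace 𝕜 X]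
    (V0 : StrongDual 𝕜 X →L[𝕜] StrongDual 𝕜 X)
    (hV : FiniteDimensional 𝕜 (LinearMap.range (V0 : StrongDual 𝕜 X →ₗ[𝕜] StrongDual 𝕜 X)))
    (Φ : Finset (StrongDual 𝕜 X)) (ε : ℝ) (hε : 0 < ε) :
    ∃ u : X →L[𝕜] X, FiniteDimensional 𝕜 (LinearMap.range (u : X →ₗ[𝕜] X)) ∧
      ‖u‖ ≤ (1 + ε) * ‖V0‖ ∧ ∀ f ∈ Φ, f.comp u = V0 f := by
  have hFfd : FiniteDimensional 𝕜 (Submodule.span 𝕜 (Φ : Set (StrongDual 𝕜 X))) :=
    FiniteDimensional.span_finset 𝕜 Φ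
  refine adj_core (W := Pool.Agent.Helper362.Ideals.Bidual 𝕜 X) V0 hV Φ ε hε V0.flip
    Pool.Agent.Helper362.Ideals.value ?_ ?_ ?_ ?_ ?_
  · intro x f
    rfl
  · intro x
    have h2 := V0.flip.le_opNorm x
    rw [ContinuousLinearMap.opNorm_flip] at h2
    exact h2
  · intro f
    rfl
  · intro w hw
    exact ContinuousLinearMap.ext hw
  · intro G hG
    obtain ⟨R, hR1, hR2, -⟩ := Pool.Agent.Helper362.Ideals.plrB (𝕜 := 𝕜) (Y := X) G hG
      (Submodule.span 𝕜 (Φ : Set (StrongDual 𝕜 X))) hFfd ε hε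
    exact ⟨R, hR1, fun g f hf => hR2 g f (Submodule.subset_span hf)⟩

end JD1a

end Pool.Agent.Helper130.DL
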