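import Mathlib
import Pool.Agent.Helper130.DL.AuxDefs


set_option autoImplicit false

namespace Pool.Agent.Helper130.DL

open Filter Topology

namespace JD2

theorem exists_decomp {E : Type} [NormedAddCommGroup E] [NormedSpace ℝ E]
    (u : E →L[ℝ] E) (hu : FiniteDimensional ℝ (LinearMap.range (u : E →ₗ[ℝ] E))) :
    ∃ (k : ℕ) (a : Fin k → StrongDual ℝ E) (w : Fin k → E), ∀ g, u g = ∑ i, a i g • w i := by
  classical
  let R := LinearMap.range (u : E →ₗ[ℝ] E)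
  let b := Module.finBasis ℝ R
  have hmem : ∀ g, u g ∈ R := fun g => ⟨g, rfl⟩
  let u' : E →L[ℝ] R := u.codRestrict R hmem
  refine ⟨Module.finrank ℝ R, fun i => (LinearMap.toContinuousLinearMap (b.coord i)).comp u',
    fun i => (b i : E), ?_⟩
  intro g
  have h := b.sum_repr (u' g)
  have h2 := congrArg (Subtype.val) h
  rw [AddSubmonoidClass.coe_finsetSum] at h2
  have h3 : ((u' g : R) : E) = u g := rfl
  rw [h3] at h2
  rw [← h2]
  rfl

theorem exists_seq {E0 : Type} [NormedAddCommGroup E0] [NormedSpace ℝ E0]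
    {G : ℕ → Submodule ℝ E0} (hG : Monotone G) {c : ℝ}
    {E : Type} [NormedAddCommGroup E] [NormedSpace ℝ E] (tw : Tower E0 G c E) {m : ℕ} {x : E0}
    (hx : x ∈ G m) :
    ∃ g : ℕ → E, (∀ k, ‖g k‖ ≤ ‖x‖) ∧ (∀ k, tw.L (g k) = x) ∧
      ∀ M k, M < m + k → tw.P M (g k) = 0 := by
  refine ⟨fun k => tw.j (m + k) ⟨x, hG (Nat.le_add_right m k) hx⟩, ?_, ?_, ?_⟩
  · intro k
    exact tw.j_norm _ _
  · intro k
    exact tw.L_j _ _
  · intro M k h
    exact tw.P_j _ _ _ h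

theorem tendsto_aux {E0 : Type} [NormedAddCommGroup E0] [NormedSpace ℝ E0]
    {G : ℕ → Submodule ℝ E0} {c : ℝ}
    {E : Type} [NormedAddCommGroup E] [NormedSpace ℝ E] (tw : Tower E0 G c E) {m : ℕ} {x : E0}
    {g : ℕ → E} (h1 : ∀ k, ‖g k‖ ≤ ‖x‖) (h2 : ∀ k, tw.L (g k) = x)
    (h3 : ∀ M k, M < m + k → tw.P M (g k) = 0) (F : StrongDual ℝ E) (F' : StrongDual ℝ E0)
    (hF : ∀ ε : ℝ, 0 < ε → ∃ M0, ∀ M ≥ M0, ∀ g,
      |F g - F (tw.P M g) - F' (tw.L (g - tw.P M g))| ≤ ε * ‖g‖) :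
    Tendsto (fun k => F (g k)) atTop (𝓝 (F' x)) := by
  rw [Metric.tendsto_atTop]
  intro ε hε
  have hpos : 0 < ‖x‖ + 1 := by positivity
  obtain ⟨M0, hM0⟩ := hF (ε / (‖x‖ + 1)) (by positivity)
  refine ⟨M0 + 1, ?_⟩
  intro k hk
  have h := hM0 M0 le_rfl (g k)
  rw [h3 M0 k (by omega), map_zero, sub_zero, sub_zero, h2] at h
  rw [Real.dist_eq]
  refine lt_of_le_of_lt h ?_
  have hb : ε / (‖x‖ + 1) * ‖g k‖ ≤ ε / (‖x‖ + 1) * ‖x‖ :=
    mul_le_mul_of_nonneg_left (h1 k) (by positivity)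
  refine lt_of_le_of_lt hb ?_
  rw [div_mul_eq_mul_div, div_lt_iff₀ hpos]
  nlinarith [norm_nonneg x]

theorem to_E0 {E0 : Type} [NormedAddCommGroup E0] [NormedSpace ℝ E0] [CompleteSpace E0]
    {G : ℕ → Submodule ℝ E0} (hG : Monotone G) (hd : Dense (⋃ n, (G n : Set E0))) {c : ℝ}
    {E : Type} [NormedAddCommGroup E] [NormedSpace ℝ E] (tw : Tower E0 G c E)
    (u : E →L[ℝ] E) (hu : FiniteDimensional ℝ (LinearMap.range (u : E →ₗ[ℝ] E))) :
    ∃ v : E0 →L[ℝ] E0, FiniteDimensional ℝ (LinearMap.range (v : E0 →ₗ[ℝ] E0)) ∧ ‖v‖ ≤ ‖u‖ ∧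
      ∀ (φ : StrongDual ℝ E0) (ε : ℝ), 0 ≤ ε →
        ‖(φ.comp tw.L).comp u - φ.comp tw.L‖ ≤ ε → ‖φ.comp v - φ‖ ≤ ε := by
  classical
  obtain ⟨k, a, w, hdec⟩ := exists_decomp u hu
  choose a' ha' using fun i => tw.dual (a i)
  let v : E0 →L[ℝ] E0 := ∑ i, (a' i).smulRight (tw.L (w i))
  have hv : ∀ x, v x = ∑ i, a' i x • tw.L (w i) := by
    intro x
    simp [v]
  -- approximation
  have key : ∀ m : ℕ, ∀ x ∈ G m, ∃ g : ℕ → E, (∀ k, ‖g k‖ ≤ ‖x‖) ∧ (∀ k, tw.L (g k) = x) ∧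
      Tendsto (fun k => tw.L (u (g k))) atTop (𝓝 (v x)) := by
    intro m x hx
    obtain ⟨g, h1, h2, h3⟩ := exists_seq hG tw hx
    refine ⟨g, h1, h2, ?_⟩
    have e : (fun k => tw.L (u (g k))) = fun k => ∑ i, a i (g k) • tw.L (w i) := by
      funext k
      rw [hdec, map_sum]
      simp
    rw [e, hv]
    apply tendsto_finsetSum
    intro i _
    exact (tendsto_aux tw h1 h2 h3 (a i) (a' i) (ha' i)).smul_const _
  refine ⟨v, ?_, ?_, ?_⟩
  · have hle : LinearMap.range (v : E0 →ₗ[ℝ] E0) ≤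
        Submodule.span ℝ (Set.range (fun i => tw.L (w i))) := by
      rintro _ ⟨x, rfl⟩
      show v x ∈ _
      rw [hv]
      apply Submodule.sum_mem
      intro i _
      apply Submodule.smul_mem
      exact Submodule.subset_span ⟨i, rfl⟩
    have : FiniteDimensional ℝ (Submodule.span ℝ (Set.range (fun i => tw.L (w i)))) :=
      FiniteDimensional.span_of_finite ℝ (Set.finite_range _)
    exact Submodule.finiteDimensional_of_le hle
  · apply ContinuousLinearMap.opNorm_le_bound _ (norm_nonneg _)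
    have hcl : IsClosed {x : E0 | ‖v x‖ ≤ ‖u‖ * ‖x‖} :=
      isClosed_le (v.continuous.norm) (continuous_const.mul continuous_norm)
    have hsub : (⋃ n, (G n : Set E0)) ⊆ {x : E0 | ‖v x‖ ≤ ‖u‖ * ‖x‖} := by
      intro x hx
      rw [Set.mem_iUnion] at hx
      obtain ⟨m, hm⟩ := hx
      obtain ⟨g, h1, h2, h3⟩ := key m x hm
      refine le_of_tendsto h3.norm (Filter.Eventually.of_forall ?_)
      intro k
      calc ‖tw.L (u (g k))‖ ≤ ‖u (g k)‖ := tw.L_norm _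
        _ ≤ ‖u‖ * ‖g k‖ := u.le_opNorm _
        _ ≤ ‖u‖ * ‖x‖ := mul_le_mul_of_nonneg_left (h1 k) (norm_nonneg _)
    intro x
    have hx : x ∈ closure (⋃ n, (G n : Set E0)) := hd x
    exact closure_minimal hsub hcl hx
  · intro φ ε hε hφ
    apply ContinuousLinearMap.opNorm_le_bound _ hε
    have hcl : IsClosed {x : E0 | ‖(φ.comp v - φ) x‖ ≤ ε * ‖x‖} :=
      isClosed_le ((φ.comp v - φ).continuous.norm) (continuous_const.mul continuous_norm)
    have hsub : (⋃ n, (G n : Set E0)) ⊆ {x : E0 | ‖(φ.comp v - φ) x‖ ≤ ε * ‖x‖} := by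
      intro x hx
      rw [Set.mem_iUnion] at hx
      obtain ⟨m, hm⟩ := hx
      obtain ⟨g, h1, h2, h3⟩ := key m x hm
      have h4 : Tendsto (fun k => ‖φ (tw.L (u (g k))) - φ x‖) atTop (𝓝 ‖φ (v x) - φ x‖) :=
        (((φ.continuous.tendsto _).comp h3).sub_const _).norm
      show ‖φ (v x) - φ x‖ ≤ ε * ‖x‖
      refine le_of_tendsto h4 (Filter.Eventually.of_forall ?_)
      intro k
      have h5 : φ (tw.L (u (g k))) - φ x = ((φ.comp tw.L).comp u - φ.comp tw.L) (g k) := by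
        show φ (tw.L (u (g k))) - φ x = φ (tw.L (u (g k))) - φ (tw.L (g k))
        rw [h2]
      show ‖φ (tw.L (u (g k))) - φ x‖ ≤ ε * ‖x‖
      rw [h5]
      calc ‖((φ.comp tw.L).comp u - φ.comp tw.L) (g k)‖
          ≤ ‖(φ.comp tw.L).comp u - φ.comp tw.L‖ * ‖g k‖ := ContinuousLinearMap.le_opNorm _ _
        _ ≤ ε * ‖x‖ := mul_le_mul hφ (h1 k) (norm_nonneg _) hε
    intro x
    have hx : x ∈ closure (⋃ n, (G n : Set E0)) := hd x
    exact closure_minimal hsub hcl hx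

end JD2

end Pool.Agent.Helper130.DL
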