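import Mathlib
import Pool.Agent.Helper130.DL.AuxDefs


set_option autoImplicit false

namespace Pool.Agent.Helper130.DL

open Filter Topology

namespace JD3

theorem to_Y {Y : Type} [NormedAddCommGroup Y] [NormedSpace ℝ Y] {E0 : Type}
    [NormedAddCommGroup E0] [NormedSpace ℝ E0] (N : Seminorm ℝ Y) (hN : ∀ y, ‖y‖ ≤ N y)
    (r : ℝ) (hr0 : 0 < r) (hr1 : r ≤ 1) (e : (ℝ × Y) ≃L[ℝ] E0) (he : NormF N r e)
    (v : E0 →L[ℝ] E0) (hv : FiniteDimensional ℝ (LinearMap.range (v : E0 →ₗ[ℝ] E0)))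
    (t : ℝ) (ht : ‖v‖ ≤ 1 + t) (ε : ℝ) (hε : 0 < ε)
    (h1 : ∀ x, |(e.symm (v x)).1 - (e.symm x).1| ≤ ε * ‖x‖) (Φ : Finset (StrongDual ℝ Y))
    (h2 : ∀ f ∈ Φ, ∀ x, |f (e.symm (v x)).2 - f (e.symm x).2| ≤ ε * ‖x‖) :
    ∃ T : Y →L[ℝ] Y, FiniteDimensional ℝ (LinearMap.range (T : Y →ₗ[ℝ] Y)) ∧ ‖T‖ ≤ 1 + t ∧
      (∀ f ∈ Φ, ‖f.comp T - f‖ ≤ ε) ∧ Moves N T ((t + 2 * ε) / r + ε) := by
  have hne : ∀ a : ℝ, ({z | N z ≤ r * |a|} : Set Y).Nonempty := fun a =>
    ⟨0, by simp only [Set.mem_setOf_eq, map_zero]; positivity⟩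
  have F1 : ∀ y, ‖e (0, y)‖ = ‖y‖ := by
    intro y
    rw [he 0 y]
    have hs : ({z | N z ≤ r * |(0 : ℝ)|} : Set Y) = {0} := by
      ext z
      simp only [abs_zero, mul_zero, Set.mem_setOf_eq, Set.mem_singleton_iff]
      constructor
      · intro hz
        exact norm_le_zero_iff.1 ((hN z).trans hz)
      · intro hz
        rw [hz, map_zero]
    rw [hs, Metric.infDist_singleton, dist_zero_right, abs_zero, zero_add]
  have F2 : ∀ a y, ‖y‖ ≤ ‖e (a, y)‖ := by
    intro a y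
    rw [he a y]
    have h : ‖y‖ - |a| ≤ Metric.infDist y {z | N z ≤ r * |a|} := by
      rw [Metric.le_infDist (hne a)]
      intro z hz
      have hz' : N z ≤ r * |a| := hz
      have h3 : ‖z‖ ≤ |a| := by
        refine (hN z).trans (hz'.trans ?_)
        have := abs_nonneg a
        nlinarith
      have h4 : ‖y‖ - ‖z‖ ≤ ‖y - z‖ := norm_sub_norm_le y z
      rw [dist_eq_norm]
      linarith
    linarith
  set T : Y →L[ℝ] Y := (ContinuousLinearMap.snd ℝ ℝ Y).comp
    ((e.symm : E0 →L[ℝ] (ℝ × Y)).comp (v.comp ((e : (ℝ × Y) →L[ℝ] E0).comp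
      (ContinuousLinearMap.inr ℝ ℝ Y)))) with hT
  have T_apply : ∀ y, T y = (e.symm (v (e (0, y)))).2 := by
    intro y
    simp [hT]
  have e_symm_eq : ∀ x : E0, e ((e.symm x).1, (e.symm x).2) = x := by
    intro x
    rw [Prod.mk.eta]
    exact e.apply_symm_apply x
  refine ⟨T, ?_, ?_, ?_, ?_⟩
  · have hle : LinearMap.range (T : Y →ₗ[ℝ] Y) ≤
        Submodule.map (((ContinuousLinearMap.snd ℝ ℝ Y).comp (e.symm : E0 →L[ℝ] (ℝ × Y)) :
          E0 →L[ℝ] Y) : E0 →ₗ[ℝ] Y) (LinearMap.range (v : E0 →ₗ[ℝ] E0)) := by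
      rintro _ ⟨y, rfl⟩
      refine ⟨v (e (0, y)), ⟨e (0, y), rfl⟩, ?_⟩
      simp [hT]
    exact Submodule.finiteDimensional_of_le hle
  · refine ContinuousLinearMap.opNorm_le_bound _ ((norm_nonneg v).trans ht) ?_
    intro y
    rw [T_apply]
    calc ‖(e.symm (v (e (0, y)))).2‖ ≤
        ‖e ((e.symm (v (e (0, y)))).1, (e.symm (v (e (0, y)))).2)‖ := F2 _ _
      _ = ‖v (e (0, y))‖ := by rw [e_symm_eq]
      _ ≤ ‖v‖ * ‖e (0, y)‖ := v.le_opNorm _
      _ ≤ (1 + t) * ‖y‖ := by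
        rw [F1]
        exact mul_le_mul_of_nonneg_right ht (norm_nonneg y)
  · intro f hf
    refine ContinuousLinearMap.opNorm_le_bound _ hε.le ?_
    intro y
    have h := h2 f hf (e (0, y))
    rw [F1, e.symm_apply_apply] at h
    simpa [T_apply, Real.norm_eq_abs] using h
  · intro y hy
    have main : ∀ σ : ℝ, |σ| = 1 → ∃ z, N z ≤ r * (1 + ε) ∧
        ‖((e.symm (v (e (1, 0)))).2 + σ • (r • T y)) - z‖ ≤ t + 2 * ε := by
      intro σ hσ
      have hx : e (1, σ • (r • y)) = e (1, 0) + σ • (r • e (0, y)) := by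
        rw [← map_smul, ← map_smul, ← map_add]
        congr 1
        ext <;> simp
      have hnorm : ‖e (1, σ • (r • y))‖ = 1 := by
        rw [he]
        have hmem : σ • (r • y) ∈ ({z | N z ≤ r * |(1 : ℝ)|} : Set Y) := by
          simp only [Set.mem_setOf_eq, map_smul_eq_mul, Real.norm_eq_abs, hσ, abs_one, mul_one,
            one_mul, abs_of_pos hr0]
          nlinarith
        rw [Metric.infDist_zero_of_mem hmem]
        simp
      have hv1 : ‖v (e (1, σ • (r • y)))‖ ≤ 1 + t := by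
        calc ‖v (e (1, σ • (r • y)))‖ ≤ ‖v‖ * ‖e (1, σ • (r • y))‖ := v.le_opNorm _
          _ ≤ 1 + t := by rw [hnorm, mul_one]; exact ht
      have hsymm : (e.symm (v (e (1, σ • (r • y))))).2 =
          (e.symm (v (e (1, 0)))).2 + σ • (r • T y) := by
        rw [hx, T_apply]
        simp
      have ha := h1 (e (1, σ • (r • y)))
      rw [hnorm, e.symm_apply_apply, mul_one] at ha
      have hf := he (e.symm (v (e (1, σ • (r • y))))).1 (e.symm (v (e (1, σ • (r • y))))).2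
      rw [e_symm_eq] at hf
      rw [hf] at hv1
      set a := (e.symm (v (e (1, σ • (r • y))))).1 with hadef
      have ha1 := abs_le.1 ha
      have ha2 : |a| ≤ 1 + ε := by
        rw [abs_le]
        constructor <;> [linarith [ha1.1, ha1.2]; linarith [ha1.1, ha1.2]]
      have ha3 : 1 - ε ≤ |a| := le_trans (by linarith [ha1.1]) (le_abs_self a)
      have hlt : Metric.infDist (e.symm (v (e (1, σ • (r • y))))).2 {z | N z ≤ r * |a|} <
          t + 2 * ε := by linarith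
      obtain ⟨z, hz, hzd⟩ := (Metric.infDist_lt_iff (hne a)).1 hlt
      refine ⟨z, ?_, ?_⟩
      · have hz' : N z ≤ r * |a| := hz
        exact hz'.trans (mul_le_mul_of_nonneg_left ha2 hr0.le)
      · rw [hsymm, dist_eq_norm] at hzd
        exact hzd.le
    obtain ⟨z1, hz1, hd1⟩ := main 1 (by simp)
    obtain ⟨z2, hz2, hd2⟩ := main (-1) (by simp)
    set y1 := (e.symm (v (e (1, 0)))).2 with hy1
    have h1ε : 0 < 1 + ε := by linarith
    have hrne : r ≠ 0 := hr0.ne'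
    have h1εne : 1 + ε ≠ 0 := h1ε.ne'
    set z' : Y := (1 / 2 : ℝ) • (z1 - z2) with hz'
    have hNz' : N z' ≤ r * (1 + ε) := by
      rw [hz', map_smul_eq_mul]
      have h5 : N (z1 - z2) ≤ N z1 + N z2 := map_sub_le_add N z1 z2
      have h6 : ‖(1 / 2 : ℝ)‖ = 1 / 2 := by norm_num
      rw [h6]
      linarith
    have hdz' : ‖r • T y - z'‖ ≤ t + 2 * ε := by
      have h7 : r • T y - z' = (1 / 2 : ℝ) • ((y1 + (1 : ℝ) • (r • T y) - z1) -
          (y1 + (-1 : ℝ) • (r • T y) - z2)) := by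
        rw [hz']
        module
      rw [h7, norm_smul]
      have h8 := norm_sub_le (y1 + (1 : ℝ) • (r • T y) - z1) (y1 + (-1 : ℝ) • (r • T y) - z2)
      have h6 : ‖(1 / 2 : ℝ)‖ = 1 / 2 := by norm_num
      rw [h6]
      linarith
    set z : Y := (r * (1 + ε))⁻¹ • z' with hz
    have hNz : N z ≤ 1 := by
      rw [hz, map_smul_eq_mul, Real.norm_eq_abs, abs_of_pos (by positivity)]
      rw [inv_mul_le_iff₀ (by positivity), mul_one]
      exact hNz'
    refine ⟨z, hNz, ?_⟩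
    have h9 : T y - z = r⁻¹ • (r • T y - z') + ε • z := by
      have h10 : r⁻¹ • z' = (1 + ε) • z := by
        rw [hz]
        rw [smul_smul (1 + ε)]
        congr 1
        field_simp
      have h13 : r⁻¹ • (r • T y) = T y := inv_smul_smul₀ hrne (T y)
      rw [smul_sub, h10, h13]
      module
    rw [h9]
    refine (norm_add_le _ _).trans ?_
    have h11 : ‖r⁻¹ • (r • T y - z')‖ ≤ (t + 2 * ε) / r := by
      rw [norm_smul, Real.norm_eq_abs, abs_of_pos (by positivity), div_eq_inv_mul]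
      exact mul_le_mul_of_nonneg_left hdz' (by positivity)
    have h12 : ‖ε • z‖ ≤ ε := by
      rw [norm_smul, Real.norm_eq_abs, abs_of_pos hε]
      calc ε * ‖z‖ ≤ ε * 1 := mul_le_mul_of_nonneg_left ((hN z).trans hNz) hε.le
        _ = ε := mul_one ε
    linarith

end JD3

end Pool.Agent.Helper130.DL
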