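import Mathlib
import Pool.Agent.Helper130.DL.AuxDefs


set_option autoImplicit false

namespace Pool.Agent.Helper130.DL

open Filter Topology

namespace JD4

theorem dual_fails {Y : Type} [NormedAddCommGroup Y] [NormedSpace ℝ Y] {E0 : Type}
    [NormedAddCommGroup E0] [NormedSpace ℝ E0] [CompleteSpace E0] {E : Type}
    [NormedAddCommGroup E] [NormedSpace ℝ E]
    (e : (ℝ × Y) ≃L[ℝ] E0) {G : ℕ → Submodule ℝ E0} {c : ℝ} (tw : Tower E0 G c E)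
    (dap : ∀ (lam : ℝ), 0 ≤ lam → HasLAP (StrongDual ℝ E) (fun f => ‖f‖) lam →
      ∀ (Φ : Finset (StrongDual ℝ E)) (ε : ℝ), 0 < ε →
      ∃ u : E →L[ℝ] E, FiniteDimensional ℝ (LinearMap.range (u : E →ₗ[ℝ] E)) ∧
      ‖u‖ ≤ lam + ε ∧ ∀ f ∈ Φ, ‖f.comp u - f‖ ≤ ε)
    (toE0 : ∀ (u : E →L[ℝ] E), FiniteDimensional ℝ (LinearMap.range (u : E →ₗ[ℝ] E)) →
      ∃ v : E0 →L[ℝ] E0, FiniteDimensional ℝ (LinearMap.range (v : E0 →ₗ[ℝ] E0)) ∧ ‖v‖ ≤ ‖u‖ ∧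
      ∀ (φ : StrongDual ℝ E0) (ε : ℝ), 0 ≤ ε →
        ‖(φ.comp tw.L).comp u - φ.comp tw.L‖ ≤ ε → ‖φ.comp v - φ‖ ≤ ε)
    (N : Seminorm ℝ Y) (r : ℝ) (hr0 : 0 < r)
    (toY : ∀ (v : E0 →L[ℝ] E0), FiniteDimensional ℝ (LinearMap.range (v : E0 →ₗ[ℝ] E0)) →
      ∀ (t : ℝ), ‖v‖ ≤ 1 + t → ∀ (ε : ℝ), 0 < ε →
      (∀ x, |(e.symm (v x)).1 - (e.symm x).1| ≤ ε * ‖x‖) → ∀ (Φ : Finset (StrongDual ℝ Y)),
      (∀ f ∈ Φ, ∀ x, |f (e.symm (v x)).2 - f (e.symm x).2| ≤ ε * ‖x‖) →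
      ∃ T : Y →L[ℝ] Y, FiniteDimensional ℝ (LinearMap.range (T : Y →ₗ[ℝ] Y)) ∧ ‖T‖ ≤ 1 + t ∧
      (∀ f ∈ Φ, ‖f.comp T - f‖ ≤ ε) ∧ Moves N T ((t + 2 * ε) / r + ε))
    (s : ℝ) (Φ : Finset (StrongDual ℝ Y)) (ε0 : ℝ) (hε0 : 0 < ε0)
    (hbad : ∀ T : Y →L[ℝ] Y, FiniteDimensional ℝ (LinearMap.range (T : Y →ₗ[ℝ] Y)) →
      ‖T‖ ≤ 1 + ε0 → (∀ f ∈ Φ, ‖f.comp T - f‖ ≤ ε0) → ¬ Moves N T s)
    (t : ℝ) (ht0 : 0 ≤ t) (ht1 : t < r * s) (ht2 : t < ε0) :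
    ¬ HasLAP (StrongDual ℝ E) (fun f => ‖f‖) (1 + t) := by
  classical
  intro hL
  have hδ : 0 < s - t / r := by
    have h : t / r < s := by
      rw [div_lt_iff₀ hr0]; linarith [mul_comm r s]
    linarith
  have h3r : 0 < 3 / r + 1 := by positivity
  obtain ⟨ε, hε, h1, h2⟩ : ∃ ε : ℝ, 0 < ε ∧ ε ≤ ε0 - t ∧ ε * (3 / r + 1) ≤ s - t / r := by
    refine ⟨min (ε0 - t) ((s - t / r) / (3 / r + 1)), lt_min (by linarith) (div_pos hδ h3r),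
      min_le_left _ _, ?_⟩
    calc min (ε0 - t) ((s - t / r) / (3 / r + 1)) * (3 / r + 1)
        ≤ ((s - t / r) / (3 / r + 1)) * (3 / r + 1) :=
          mul_le_mul_of_nonneg_right (min_le_right _ _) h3r.le
      _ = s - t / r := div_mul_cancel₀ _ h3r.ne'
  let φ0 : StrongDual ℝ E0 := (ContinuousLinearMap.fst ℝ ℝ Y).comp (e.symm : E0 →L[ℝ] ℝ × Y)
  let φ1 : StrongDual ℝ Y → StrongDual ℝ E0 := fun f =>
    f.comp ((ContinuousLinearMap.snd ℝ ℝ Y).comp (e.symm : E0 →L[ℝ] ℝ × Y))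
  obtain ⟨u, hu1, hu2, hu3⟩ := dap (1 + t) (by linarith) hL
    (insert (φ0.comp tw.L) (Φ.image fun f => (φ1 f).comp tw.L)) ε hε
  obtain ⟨v, hv1, hv2, hv3⟩ := toE0 u hu1
  have a0 : ‖φ0.comp v - φ0‖ ≤ ε := hv3 φ0 ε hε.le (hu3 _ (Finset.mem_insert_self _ _))
  have a1 : ∀ f ∈ Φ, ‖(φ1 f).comp v - φ1 f‖ ≤ ε := fun f hf =>
    hv3 _ ε hε.le (hu3 _ (Finset.mem_insert_of_mem
      (Finset.mem_image_of_mem (fun f => (φ1 f).comp tw.L) hf)))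
  obtain ⟨T, hT1, hT2, hT3, hT4⟩ := toY v hv1 (t + ε) (by linarith) ε hε
    (fun x => ((φ0.comp v - φ0).le_opNorm x).trans
      (mul_le_mul_of_nonneg_right a0 (norm_nonneg _))) Φ
    (fun f hf x => (((φ1 f).comp v - φ1 f).le_opNorm x).trans
      (mul_le_mul_of_nonneg_right (a1 f hf) (norm_nonneg _)))
  refine hbad T hT1 (by linarith) (fun f hf => (hT3 f hf).trans (by linarith)) ?_
  intro y hy
  obtain ⟨z, hz, hz2⟩ := hT4 y hy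
  refine ⟨z, hz, hz2.trans ?_⟩
  have : (t + ε + 2 * ε) / r + ε = t / r + ε * (3 / r + 1) := by
    field_simp
    ring
  linarith

end JD4

end Pool.Agent.Helper130.DL
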