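import Mathlib
import Pool.Agent.Helper130.DL.AuxDefs


set_option autoImplicit false

namespace Pool.Agent.Helper130.DL

open Filter Topology

namespace JE1

theorem approx_range {Y : Type} [NormedAddCommGroup Y] [NormedSpace ℝ Y]
    (H : ℕ → Submodule ℝ Y) (hH : Monotone H) (hd : Dense (⋃ n, (H n : Set Y)))
    (T : Y →L[ℝ] Y) (hT : FiniteDimensional ℝ (LinearMap.range (T : Y →ₗ[ℝ] Y)))
    (δ : ℝ) (hδ : 0 < δ) :
    ∃ M0, ∀ M ≥ M0, ∃ T' : Y →L[ℝ] Y, (∀ y, T' y ∈ H M) ∧ ‖T' - T‖ ≤ δ := by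
  have hmem : ∀ y, T y ∈ LinearMap.range (T : Y →ₗ[ℝ] Y) := fun y => ⟨y, rfl⟩
  set k := Module.finrank ℝ (LinearMap.range (T : Y →ₗ[ℝ] Y)) with hk
  set b : Module.Basis (Fin k) ℝ (LinearMap.range (T : Y →ₗ[ℝ] Y)) :=
    Module.finBasis ℝ (LinearMap.range (T : Y →ₗ[ℝ] Y)) with hb
  set a : Fin k → (Y →L[ℝ] ℝ) := fun i =>
    (LinearMap.toContinuousLinearMap (b.coord i)).comp
      (T.codRestrict (LinearMap.range (T : Y →ₗ[ℝ] Y)) hmem) with ha
  have hT' : ∀ y, T y = ∑ i, a i y • ((b i : LinearMap.range (T : Y →ₗ[ℝ] Y)) : Y) := by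
    intro y
    have h1 := b.sum_repr (T.codRestrict (LinearMap.range (T : Y →ₗ[ℝ] Y)) hmem y)
    have h2 := congrArg (fun z : LinearMap.range (T : Y →ₗ[ℝ] Y) => (z : Y)) h1
    simp only [Submodule.coe_sum, Submodule.coe_smul] at h2
    exact h2.symm
  have hpos : ∀ i, 0 < δ / ((k + 1) * (‖a i‖ + 1)) := fun i => by positivity
  have hex : ∀ i, ∃ w : Y, (∃ n, w ∈ H n) ∧
      ‖w - ((b i : LinearMap.range (T : Y →ₗ[ℝ] Y)) : Y)‖ ≤ δ / ((k + 1) * (‖a i‖ + 1)) := by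
    intro i
    obtain ⟨w, hw, hdist⟩ := hd.exists_dist_lt ((b i : LinearMap.range (T : Y →ₗ[ℝ] Y)) : Y) (hpos i)
    obtain ⟨n, hn⟩ := Set.mem_iUnion.mp hw
    refine ⟨w, ⟨n, hn⟩, ?_⟩
    rw [dist_comm, dist_eq_norm] at hdist
    exact hdist.le
  choose w hw hwn using hex
  choose n hn using hw
  refine ⟨Finset.univ.sup n, fun M hM => ?_⟩
  refine ⟨∑ i, (a i).smulRight (w i), fun y => ?_, ?_⟩
  · rw [ContinuousLinearMap.sum_apply]
    apply Submodule.sum_mem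
    intro i _
    rw [ContinuousLinearMap.smulRight_apply]
    apply Submodule.smul_mem
    exact hH ((Finset.le_sup (Finset.mem_univ i)).trans hM) (hn i)
  · apply ContinuousLinearMap.opNorm_le_bound _ hδ.le
    intro y
    have h1 : (∑ i, (a i).smulRight (w i) - T) y =
        ∑ i, a i y • (w i - ((b i : LinearMap.range (T : Y →ₗ[ℝ] Y)) : Y)) := by
      rw [ContinuousLinearMap.sub_apply, ContinuousLinearMap.sum_apply, hT' y,
        ← Finset.sum_sub_distrib]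
      apply Finset.sum_congr rfl
      intro i _
      rw [ContinuousLinearMap.smulRight_apply, smul_sub]
    rw [h1]
    have h2 : ∀ i ∈ (Finset.univ : Finset (Fin k)),
        ‖a i y • (w i - ((b i : LinearMap.range (T : Y →ₗ[ℝ] Y)) : Y))‖ ≤ δ / (k + 1) * ‖y‖ := by
      intro i _
      rw [norm_smul]
      have h3 : ‖a i y‖ ≤ ‖a i‖ * ‖y‖ := (a i).le_opNorm y
      have h4 : ‖a i‖ * (δ / ((k + 1) * (‖a i‖ + 1))) ≤ δ / (k + 1) := by
        have h5 : ‖a i‖ * (δ / ((k + 1) * (‖a i‖ + 1))) =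
            δ / (k + 1) * (‖a i‖ / (‖a i‖ + 1)) := by
          field_simp
        rw [h5]
        have h6 : ‖a i‖ / (‖a i‖ + 1) ≤ 1 := by
          rw [div_le_one (by positivity)]
          linarith
        have h7 : 0 ≤ δ / ((k : ℝ) + 1) := by positivity
        nlinarith
      calc ‖a i y‖ * ‖w i - ((b i : LinearMap.range (T : Y →ₗ[ℝ] Y)) : Y)‖
          ≤ (‖a i‖ * ‖y‖) * (δ / ((k + 1) * (‖a i‖ + 1))) :=
            mul_le_mul h3 (hwn i) (norm_nonneg _) (by positivity)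
        _ = (‖a i‖ * (δ / ((k + 1) * (‖a i‖ + 1)))) * ‖y‖ := by ring
        _ ≤ δ / (k + 1) * ‖y‖ := mul_le_mul_of_nonneg_right h4 (norm_nonneg _)
    refine (norm_sum_le_of_le _ h2).trans ?_
    rw [Finset.sum_const, Finset.card_univ, Fintype.card_fin, nsmul_eq_mul]
    have h8 : (k : ℝ) * (δ / (k + 1)) ≤ δ := by
      rw [← mul_div_assoc, div_le_iff₀ (by positivity)]
      nlinarith
    calc (k : ℝ) * (δ / (k + 1) * ‖y‖) = (k : ℝ) * (δ / (k + 1)) * ‖y‖ := by ring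
      _ ≤ δ * ‖y‖ := mul_le_mul_of_nonneg_right h8 (norm_nonneg _)

end JE1

end Pool.Agent.Helper130.DL
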