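import Mathlib
import Pool.Agent.Helper130.DL.AuxDefs


set_option autoImplicit false

namespace Pool.Agent.Helper130.DL

open Filter Topology

namespace JE2

theorem net {Y : Type} [NormedAddCommGroup Y] [NormedSpace ℝ Y] (N : Seminorm ℝ Y)
    (hN : ∀ y, ‖y‖ ≤ N y) (H : ℕ → Submodule ℝ Y) (hH : Monotone H)
    (hd : Dense (⋃ n, (H n : Set Y))) (Φ : Finset (StrongDual ℝ Y)) (δ : ℝ) (hδ : 0 < δ) :
    ∃ M0, ∀ M ≥ M0, ∀ z, N z ≤ 1 → ∃ y ∈ H M, (∃ z', N z' ≤ 1 ∧ ‖y - z'‖ ≤ δ) ∧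
      ∀ f ∈ Φ, |f (z - y)| ≤ δ := by
  classical
  let ψ : Y → (Φ → ℝ) := fun z f => (f : StrongDual ℝ Y) z
  set B : ℝ := ∑ f ∈ Φ, ‖f‖ with hB
  have hB0 : 0 ≤ B := Finset.sum_nonneg fun f _ => norm_nonneg f
  have hfB : ∀ f ∈ Φ, ‖f‖ ≤ B := fun f hf =>
    Finset.single_le_sum (f := fun f : StrongDual ℝ Y => ‖f‖) (fun f _ => norm_nonneg f) hf
  have hsub : ψ '' {z | N z ≤ 1} ⊆ Metric.closedBall (0 : Φ → ℝ) B := by
    rintro _ ⟨z, hz, rfl⟩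
    rw [mem_closedBall_zero_iff, pi_norm_le_iff_of_nonneg hB0]
    rintro ⟨f, hf⟩
    have h1 : ‖f z‖ ≤ ‖f‖ * ‖z‖ := f.le_opNorm z
    have h2 : ‖z‖ ≤ 1 := (hN z).trans hz
    calc ‖f z‖ ≤ ‖f‖ * ‖z‖ := h1
      _ ≤ ‖f‖ * 1 := mul_le_mul_of_nonneg_left h2 (norm_nonneg f)
      _ ≤ B := by rw [mul_one]; exact hfB f hf
  have htb : TotallyBounded (ψ '' {z | N z ≤ 1}) :=
    (isCompact_closedBall (0 : Φ → ℝ) B).totallyBounded.subset hsub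
  obtain ⟨t, hts, htf, htc⟩ := Metric.finite_approx_of_totallyBounded htb (δ / 2) (by positivity)
  set η : ℝ := min δ (δ / (2 * (1 + B))) with hη
  have hη0 : 0 < η := lt_min hδ (by positivity)
  have hch : ∀ v : (Φ → ℝ), ∃ (z y : Y) (n : ℕ), v ∈ t →
      (N z ≤ 1 ∧ ψ z = v ∧ y ∈ H n ∧ ‖y - z‖ ≤ η) := by
    intro v
    by_cases hv : v ∈ t
    · obtain ⟨z, hz, hzv⟩ := hts hv
      obtain ⟨y, hy, hyz⟩ := Metric.mem_closure_iff.1 (hd z) η hη0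
      obtain ⟨n, hn⟩ := Set.mem_iUnion.1 hy
      refine ⟨z, y, n, fun _ => ⟨hz, hzv, hn, ?_⟩⟩
      rw [← dist_eq_norm, dist_comm]
      exact hyz.le
    · exact ⟨0, 0, 0, fun h => absurd h hv⟩
  choose Z Y' n hZ using hch
  refine ⟨htf.toFinset.sup n, fun M hM z hz => ?_⟩
  have hzt : ψ z ∈ ⋃ y ∈ t, Metric.ball y (δ / 2) := htc ⟨z, hz, rfl⟩
  obtain ⟨v, hv, hzv⟩ := Set.mem_iUnion₂.1 hzt
  obtain ⟨h1, h2, h3, h4⟩ := hZ v hv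
  have hnM : n v ≤ M := (Finset.le_sup (f := n) (htf.mem_toFinset.2 hv)).trans hM
  refine ⟨Y' v, hH hnM h3, ⟨Z v, h1, h4.trans (min_le_left _ _)⟩, ?_⟩
  intro f hf
  have e1 : |f (z - Z v)| ≤ δ / 2 := by
    have h5 : dist (ψ z) (ψ (Z v)) < δ / 2 := by rw [h2]; exact hzv
    have h6 := (dist_le_pi_dist (ψ z) (ψ (Z v)) ⟨f, hf⟩).trans h5.le
    rw [Real.dist_eq] at h6
    rw [map_sub]
    exact h6
  have e2 : |f (Y' v - Z v)| ≤ δ / 2 := by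
    have h7 : ‖f (Y' v - Z v)‖ ≤ ‖f‖ * ‖Y' v - Z v‖ := f.le_opNorm _
    have h8 : ‖Y' v - Z v‖ ≤ δ / (2 * (1 + B)) := h4.trans (min_le_right _ _)
    have h9 : ‖f‖ * ‖Y' v - Z v‖ ≤ (1 + B) * (δ / (2 * (1 + B))) :=
      mul_le_mul ((hfB f hf).trans (by linarith)) h8 (norm_nonneg _) (by positivity)
    have h10 : (1 + B) * (δ / (2 * (1 + B))) = δ / 2 := by field_simp
    rw [Real.norm_eq_abs] at h7
    linarith
  have e3 : f (z - Y' v) = f (z - Z v) - f (Y' v - Z v) := by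
    rw [← map_sub]; congr 1; abel
  rw [e3]
  have e4 := abs_sub (f (z - Z v)) (f (Y' v - Z v))
  linarith

end JE2

end Pool.Agent.Helper130.DL
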