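import Mathlib
import Pool.Agent.Helper130.DL.AuxDefs


set_option autoImplicit false

namespace Pool.Agent.Helper130.DL

open Filter Topology

namespace JE3

theorem supp_unique {E0 : Type}
    [NormedAddCommGroup E0] [NormedSpace ℝ E0] {E : Type} [NormedAddCommGroup E]
    [NormedSpace ℝ E] {G : ℕ → Submodule ℝ E0} (hG : Monotone G)
    (hd : Dense (⋃ n, (G n : Set E0))) {c : ℝ} (tw : Tower E0 G c E) (M : ℕ)
    {F : StrongDual ℝ E} {F' F'' : StrongDual ℝ E0} (h1 : Supp tw M F F')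
    (h2 : Supp tw M F F'') : F' = F'' := by
  have key : ∀ n, M < n → ∀ x ∈ G n, F' x = F'' x := by
    intro n hn x hx
    have e1 := h1 (tw.j n ⟨x, hx⟩)
    have e2 := h2 (tw.j n ⟨x, hx⟩)
    rw [tw.P_j M n _ hn, map_zero, sub_zero, tw.L_j, zero_add] at e1 e2
    exact e1.symm.trans e2
  have hE : (⋃ n, (G n : Set E0)) ⊆ {x | F' x = F'' x} := by
    intro x hx
    obtain ⟨n, hn⟩ := Set.mem_iUnion.mp hx
    exact key (max n (M + 1)) (by omega) x (hG (le_max_left _ _) hn)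
  have hcl : IsClosed {x | F' x = F'' x} := isClosed_eq F'.continuous F''.continuous
  have h3 := closure_minimal hE hcl
  rw [hd.closure_eq] at h3
  ext x
  exact h3 (Set.mem_univ x)

theorem exists_coords {V : Type} [NormedAddCommGroup V] [NormedSpace ℝ V] (Γ : Submodule ℝ V)
    [FiniteDimensional ℝ Γ] : ∃ (k : ℕ) (v : Fin k → V) (C0 : ℝ), 0 < C0 ∧ (∀ i, v i ∈ Γ) ∧
      ∀ F ∈ Γ, ∃ c : Fin k → ℝ, F = ∑ i, c i • v i ∧ ∀ i, |c i| ≤ C0 * ‖F‖ := by
  let k := Module.finrank ℝ Γ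
  let b : Module.Basis (Fin k) ℝ Γ := Module.finBasis ℝ Γ
  have hbd : ∀ i, ∃ C : ℝ, 0 < C ∧ ∀ F : Γ, |b.repr F i| ≤ C * ‖F‖ := by
    intro i
    obtain ⟨C, hC, h⟩ := (LinearMap.toContinuousLinearMap (b.coord i)).bound
    exact ⟨C, hC, fun F => h F⟩
  choose Cs hCs hCb using hbd
  have hC0pos : 0 < ∑ i, Cs i + 1 := by
    have : 0 ≤ ∑ i, Cs i := Finset.sum_nonneg fun i _ => (hCs i).le
    linarith
  refine ⟨k, fun i => (b i : V), ∑ i, Cs i + 1, hC0pos, fun i => (b i).2, fun F hF => ?_⟩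
  refine ⟨fun i => b.repr ⟨F, hF⟩ i, ?_, fun i => ?_⟩
  · have h1 := b.sum_repr ⟨F, hF⟩
    have h2 := congrArg (Submodule.subtype Γ) h1
    rw [map_sum] at h2
    exact h2.symm
  · refine (hCb i ⟨F, hF⟩).trans ?_
    refine mul_le_mul_of_nonneg_right ?_ (norm_nonneg _)
    have : Cs i ≤ ∑ i, Cs i :=
      Finset.single_le_sum (f := Cs) (fun i _ => (hCs i).le) (Finset.mem_univ i)
    linarith

theorem unif {Y : Type} [NormedAddCommGroup Y] [NormedSpace ℝ Y] {E0 : Type}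
    [NormedAddCommGroup E0] [NormedSpace ℝ E0] {E : Type} [NormedAddCommGroup E]
    [NormedSpace ℝ E] (e : (ℝ × Y) ≃L[ℝ] E0) {G : ℕ → Submodule ℝ E0} (hG : Monotone G)
    (hd : Dense (⋃ n, (G n : Set E0))) {c : ℝ} (tw : Tower E0 G c E) (M : ℕ)
    (Γ : Submodule ℝ (StrongDual ℝ E)) (hΓ : FiniteDimensional ℝ Γ)
    (hS : ∀ F ∈ Γ, ∃ F', Supp tw M F F') (δ : ℝ) (hδ : 0 < δ) :
    ∃ (Φ : Finset (StrongDual ℝ Y)) (κ : ℝ), 0 < κ ∧ ∀ F ∈ Γ, ∀ F', Supp tw M F F' →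
      ∀ (y : Y) (C : ℝ), 0 ≤ C → (∀ f ∈ Φ, |f y| ≤ κ * C) → |F' (e (0, y))| ≤ δ * ‖F‖ * C := by
  classical
  obtain ⟨k, v, C0, hC0pos, hv, hco⟩ := exists_coords Γ
  choose g hg using hS
  let β : Fin k → StrongDual ℝ E0 := fun i => g (v i) (hv i)
  have hβ : ∀ i, Supp tw M (v i) (β i) := fun i => hg (v i) (hv i)
  let inr : Y →L[ℝ] E0 := (e : (ℝ × Y) →L[ℝ] E0).comp (ContinuousLinearMap.inr ℝ ℝ Y)
  have hinr : ∀ y, inr y = e (0, y) := fun y => rfl
  refine ⟨Finset.univ.image (fun i => (β i).comp inr), δ / (C0 * (k + 1)), by positivity, ?_⟩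
  intro F hF F' hF' y C hC hy
  obtain ⟨a, hFsum, ha⟩ := hco F hF
  have hS2 : Supp tw M F (∑ i, a i • β i) := by
    intro x
    have e1 : ∀ z : E, F z = ∑ i, a i * v i z := by
      intro z
      conv_lhs => rw [hFsum]
      simp
    rw [e1 x, e1 (tw.P M x), sum_apply, ← Finset.sum_add_distrib]
    refine Finset.sum_congr rfl fun i _ => ?_
    rw [hβ i x, smul_apply, smul_eq_mul]
    ring
  have hEq : F' = ∑ i, a i • β i := supp_unique hG hd tw M hF' hS2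
  have h1 : F' (e (0, y)) = ∑ i, a i * ((β i).comp inr) y := by
    rw [hEq, sum_apply]
    rfl
  rw [h1]
  calc |∑ i, a i * ((β i).comp inr) y|
      ≤ ∑ i, |a i * ((β i).comp inr) y| := Finset.abs_sum_le_sum_abs _ _
    _ ≤ ∑ _i : Fin k, (C0 * ‖F‖) * (δ / (C0 * (k + 1)) * C) := by
        refine Finset.sum_le_sum fun i _ => ?_
        rw [abs_mul]
        refine mul_le_mul (ha i) ?_ (abs_nonneg _) (by positivity)
        exact hy _ (Finset.mem_image.mpr ⟨i, Finset.mem_univ _, rfl⟩)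
    _ = (k : ℝ) / (k + 1) * (δ * ‖F‖ * C) := by
        rw [Finset.sum_const, Finset.card_univ, Fintype.card_fin, nsmul_eq_mul]
        field_simp
    _ ≤ 1 * (δ * ‖F‖ * C) := by
        refine mul_le_mul_of_nonneg_right ?_ (by positivity)
        rw [div_le_one (by positivity)]
        linarith
    _ = δ * ‖F‖ * C := one_mul _


end JE3

end Pool.Agent.Helper130.DL
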