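import Mathlib
import Pool.Agent.Helper130.DL.AuxDefs


set_option autoImplicit false

namespace Pool.Agent.Helper130.DL

open Filter Topology

namespace JE4

theorem exists_setup {Y : Type} [NormedAddCommGroup Y] [NormedSpace ℝ Y] {E0 : Type}
    [NormedAddCommGroup E0] [NormedSpace ℝ E0] {E : Type} [NormedAddCommGroup E]
    [NormedSpace ℝ E] (N : Seminorm ℝ Y) (hN : ∀ y, ‖y‖ ≤ N y) (e : (ℝ × Y) ≃L[ℝ] E0)
    (H : ℕ → Submodule ℝ Y) {c : ℝ} (tw : Tower E0 (Gs e H) c E) (M : ℕ)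
    (Γ : Submodule ℝ (StrongDual ℝ E))
    (approx : ∀ (T : Y →L[ℝ] Y), FiniteDimensional ℝ (LinearMap.range (T : Y →ₗ[ℝ] Y)) →
      ∀ (δ : ℝ), 0 < δ → ∃ M0, ∀ M ≥ M0, ∃ T' : Y →L[ℝ] Y, (∀ y, T' y ∈ H M) ∧ ‖T' - T‖ ≤ δ)
    (net : ∀ (Φ : Finset (StrongDual ℝ Y)) (δ : ℝ), 0 < δ →
      ∃ M0, ∀ M ≥ M0, ∀ z, N z ≤ 1 → ∃ y ∈ H M, (∃ z', N z' ≤ 1 ∧ ‖y - z'‖ ≤ δ) ∧
      ∀ f ∈ Φ, |f (z - y)| ≤ δ)
    (unif : ∀ (δ : ℝ), 0 < δ →
      ∃ (Φ : Finset (StrongDual ℝ Y)) (κ : ℝ), 0 < κ ∧ ∀ F ∈ Γ, ∀ F', Supp tw M F F' →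
      ∀ (y : Y) (C : ℝ), 0 ≤ C → (∀ f ∈ Φ, |f y| ≤ κ * C) → |F' (e (0, y))| ≤ δ * ‖F‖ * C)
    (s : ℝ) (hg : Good N s) (δ : ℝ) (hδ : 0 < δ) :
    ∃ (M' : ℕ) (T : Y →L[ℝ] Y), Setup N e H tw M Γ s δ M' T := by
  obtain ⟨Φ, κ, hκ, hu⟩ := unif δ hδ
  have hη : 0 < min (δ / 2) (κ / 2) := lt_min (by linarith) (by linarith)
  obtain ⟨T0, hfin, hT0, hΦ, hmov⟩ := hg Φ (min (δ / 2) (κ / 2)) hη
  set η : ℝ := min (δ / 2) (κ / 2) with hηdef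
  have hηδ : η ≤ δ / 2 := min_le_left _ _
  have hηκ : η ≤ κ / 2 := min_le_right _ _
  set S : ℝ := ∑ f ∈ Φ, ‖f‖ with hS
  have hS0 : 0 ≤ S := Finset.sum_nonneg fun f _ => norm_nonneg f
  have hfS : ∀ f ∈ Φ, ‖f‖ ≤ S := fun f hf =>
    Finset.single_le_sum (f := fun f : StrongDual ℝ Y => ‖f‖) (fun f _ => norm_nonneg f) hf
  have hη' : 0 < min η (κ / (2 * (1 + S))) := lt_min hη (by positivity)
  obtain ⟨M1, hM1⟩ := approx T0 hfin (min η (κ / (2 * (1 + S)))) hη'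
  set η' : ℝ := min η (κ / (2 * (1 + S))) with hη'def
  have hη'η : η' ≤ η := min_le_left _ _
  have hη'κ : η' ≤ κ / (2 * (1 + S)) := min_le_right _ _
  obtain ⟨M2, hM2⟩ := net Φ (min δ κ) (lt_min hδ hκ)
  have hMa : M1 ≤ max (max M1 M2) (M + 1) := (le_max_left _ _).trans (le_max_left _ _)
  have hMb : M2 ≤ max (max M1 M2) (M + 1) := (le_max_right _ _).trans (le_max_left _ _)
  have hMc : M + 1 ≤ max (max M1 M2) (M + 1) := le_max_right _ _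
  obtain ⟨T, hT, hTT0⟩ := hM1 _ hMa
  have hdiff : ∀ y, ‖T y - T0 y‖ ≤ η' * ‖y‖ := by
    intro y
    calc ‖T y - T0 y‖ = ‖(T - T0) y‖ := rfl
      _ ≤ ‖T - T0‖ * ‖y‖ := ContinuousLinearMap.le_opNorm _ _
      _ ≤ η' * ‖y‖ := mul_le_mul_of_nonneg_right hTT0 (norm_nonneg _)
  refine ⟨max (max M1 M2) (M + 1), T, ⟨Nat.lt_of_succ_le hMc, hT, ?_, ?_, ?_, ?_⟩⟩
  · calc ‖T‖ = ‖(T - T0) + T0‖ := by rw [sub_add_cancel]
      _ ≤ ‖T - T0‖ + ‖T0‖ := norm_add_le _ _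
      _ ≤ 1 + δ := by linarith
  · intro y hy
    obtain ⟨z, hz, hyz⟩ := hmov y hy
    refine ⟨z, hz, ?_⟩
    have h1 : ‖y‖ ≤ 1 := (hN y).trans hy
    have h2 : η' * ‖y‖ ≤ η' * 1 := mul_le_mul_of_nonneg_left h1 hη'.le
    calc ‖T y - z‖ = ‖(T y - T0 y) + (T0 y - z)‖ := by rw [sub_add_sub_cancel]
      _ ≤ ‖T y - T0 y‖ + ‖T0 y - z‖ := norm_add_le _ _
      _ ≤ s + δ := by linarith [hdiff y]
  · intro F hF F' hF' y
    refine hu F hF F' hF' (T y - y) ‖y‖ (norm_nonneg _) fun f hf => ?_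
    have h1 : f (T y - y) = f (T y - T0 y) + (f.comp T0 - f) y := by
      rw [_root_.sub_apply, ContinuousLinearMap.comp_apply, map_sub, map_sub]
      ring
    have h2 : |f (T y - T0 y)| ≤ κ / 2 * ‖y‖ := by
      calc |f (T y - T0 y)| = ‖f (T y - T0 y)‖ := (Real.norm_eq_abs _).symm
        _ ≤ ‖f‖ * ‖T y - T0 y‖ := f.le_opNorm _
        _ ≤ S * (κ / (2 * (1 + S)) * ‖y‖) := by
            refine mul_le_mul (hfS f hf) ?_ (norm_nonneg _) hS0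
            exact (hdiff y).trans (mul_le_mul_of_nonneg_right hη'κ (norm_nonneg _))
        _ = (S * (κ / (2 * (1 + S)))) * ‖y‖ := by ring
        _ ≤ κ / 2 * ‖y‖ := by
            refine mul_le_mul_of_nonneg_right ?_ (norm_nonneg _)
            rw [← mul_div_assoc, div_le_div_iff₀ (by positivity) (by norm_num)]
            nlinarith
    have h3 : |(f.comp T0 - f) y| ≤ κ / 2 * ‖y‖ := by
      calc |(f.comp T0 - f) y| = ‖(f.comp T0 - f) y‖ := (Real.norm_eq_abs _).symm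
        _ ≤ ‖f.comp T0 - f‖ * ‖y‖ := ContinuousLinearMap.le_opNorm _ _
        _ ≤ κ / 2 * ‖y‖ := mul_le_mul_of_nonneg_right ((hΦ f hf).trans hηκ) (norm_nonneg _)
    rw [h1]
    calc |f (T y - T0 y) + (f.comp T0 - f) y| ≤ |f (T y - T0 y)| + |(f.comp T0 - f) y| :=
          abs_add_le _ _
      _ ≤ κ * ‖y‖ := by linarith
  · intro z hz
    obtain ⟨y, hy, ⟨z', hz', hyz'⟩, hf⟩ := hM2 _ hMb z hz
    refine ⟨y, hy, ⟨z', hz', hyz'.trans (min_le_left _ _)⟩, fun F hF F' hF' => ?_⟩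
    have := hu F hF F' hF' (z - y) 1 zero_le_one fun f hf' => by
      rw [mul_one]
      exact (hf f hf').trans (min_le_right _ _)
    rwa [mul_one] at this

end JE4

end Pool.Agent.Helper130.DL
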