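import Mathlib
import Pool.Agent.Helper130.DL.AuxDefs


set_option autoImplicit false

namespace Pool.Agent.Helper130.DL

open Filter Topology

namespace JE5


theorem E5_five {Y : Type} [NormedAddCommGroup Y] [NormedSpace ℝ Y] {E0 : Type}
    [NormedAddCommGroup E0] [NormedSpace ℝ E0] (N : Seminorm ℝ Y)
    (r : ℝ) (hr0 : 0 < r) (e : (ℝ × Y) ≃L[ℝ] E0) (he : NormF N r e)
    (a : ℝ) (y z : Y) (hz : N z ≤ 1) : ‖e (a, y)‖ ≤ |a| + ‖y - (a * r) • z‖ := by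
  rw [he a y]
  have hmem : (a * r) • z ∈ {z | N z ≤ r * |a|} := by
    show N ((a * r) • z) ≤ r * |a|
    rw [map_smul_eq_mul, Real.norm_eq_abs, abs_mul, abs_of_pos hr0]
    have h1 : 0 ≤ |a| * r := mul_nonneg (abs_nonneg a) hr0.le
    nlinarith
  have h := Metric.infDist_le_dist_of_mem (x := y) hmem
  rw [dist_eq_norm] at h
  linarith

theorem E5_six {Y : Type} [NormedAddCommGroup Y] [NormedSpace ℝ Y] {E0 : Type}
    [NormedAddCommGroup E0] [NormedSpace ℝ E0] (N : Seminorm ℝ Y) (hN : ∀ y, ‖y‖ ≤ N y)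
    (r : ℝ) (hr0 : 0 < r) (e : (ℝ × Y) ≃L[ℝ] E0) (he : NormF N r e)
    (a : ℝ) (y : Y) (η : ℝ) (hη : 0 < η) :
    ∃ z, N z ≤ 1 ∧ |a| + ‖y - (a * r) • z‖ ≤ ‖e (a, y)‖ + η := by
  have hne : ({z | N z ≤ r * |a|} : Set Y).Nonempty := ⟨0, by
    show N 0 ≤ r * |a|
    rw [map_zero]
    exact mul_nonneg hr0.le (abs_nonneg a)⟩
  obtain ⟨z0, hz0, hd⟩ := (Metric.infDist_lt_iff hne).1
    (lt_add_of_pos_right (Metric.infDist y {z | N z ≤ r * |a|}) hη)
  have hz0' : N z0 ≤ r * |a| := hz0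
  rw [dist_eq_norm] at hd
  rw [he a y]
  by_cases ha : a = 0
  · subst ha
    have hz00 : z0 = 0 := by
      have h1 := hN z0
      rw [abs_zero, mul_zero] at hz0'
      exact norm_le_zero_iff.1 (h1.trans hz0')
    refine ⟨0, by rw [map_zero]; exact zero_le_one, ?_⟩
    rw [hz00, sub_zero] at hd
    rw [smul_zero, sub_zero]
    linarith
  · have har : a * r ≠ 0 := mul_ne_zero ha hr0.ne'
    have ha' : 0 < |a| := abs_pos.2 ha
    refine ⟨(a * r)⁻¹ • z0, ?_, ?_⟩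
    · rw [map_smul_eq_mul, norm_inv, Real.norm_eq_abs, abs_mul, abs_of_pos hr0,
        inv_mul_le_iff₀ (mul_pos ha' hr0), mul_one, mul_comm]
      exact hz0'
    · rw [smul_inv_smul₀ har]
      linarith

theorem E5_T {Y : Type} [NormedAddCommGroup Y] [NormedSpace ℝ Y] {E0 : Type}
    [NormedAddCommGroup E0] [NormedSpace ℝ E0] (N : Seminorm ℝ Y) (hN : ∀ y, ‖y‖ ≤ N y)
    (r : ℝ) (hr0 : 0 < r) (e : (ℝ × Y) ≃L[ℝ] E0) (he : NormF N r e)
    (T : Y →L[ℝ] Y) (s δ : ℝ) (h1 : ‖T‖ ≤ 1 + δ)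
    (h2 : Moves N T (s + δ)) (q : ℝ) (hq0 : 0 ≤ q) (hq1 : q ≤ 1) (a : ℝ) (y z : Y)
    (hz : N z ≤ 1) : ‖e ((1 - q) * a, T y)‖ ≤
      (1 + δ) * ‖y - (a * r) • z‖ + |a| * (1 - q * (1 - r) + r * (s + δ)) := by
  obtain ⟨z', hz', hzz⟩ := h2 z hz
  have h5 := E5_five N r hr0 e he ((1 - q) * a) (T y) z' hz'
  have e1 : T y - ((1 - q) * a * r) • z'
      = T (y - (a * r) • z) + (a * r) • ((T z - z') + q • z') := by
    rw [map_sub, map_smul]
    module
  have h3 : ‖T (y - (a * r) • z)‖ ≤ (1 + δ) * ‖y - (a * r) • z‖ :=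
    (T.le_opNorm _).trans (mul_le_mul_of_nonneg_right h1 (norm_nonneg _))
  have h4 : ‖(T z - z') + q • z'‖ ≤ (s + δ) + q := by
    refine (norm_add_le _ _).trans (add_le_add hzz ?_)
    rw [norm_smul, Real.norm_eq_abs, abs_of_nonneg hq0]
    have := (hN z').trans hz'
    nlinarith
  have h6 : ‖(a * r) • ((T z - z') + q • z')‖ ≤ |a| * r * ((s + δ) + q) := by
    rw [norm_smul, Real.norm_eq_abs, abs_mul, abs_of_pos hr0]
    exact mul_le_mul_of_nonneg_left h4 (mul_nonneg (abs_nonneg a) hr0.le)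
  have h7 : |(1 - q) * a| = (1 - q) * |a| := by
    rw [abs_mul, abs_of_nonneg (by linarith : (0:ℝ) ≤ 1 - q)]
  rw [e1, h7] at h5
  have h8 := norm_add_le (T (y - (a * r) • z)) ((a * r) • ((T z - z') + q • z'))
  calc ‖e ((1 - q) * a, T y)‖ ≤ (1 - q) * |a| + ((1 + δ) * ‖y - (a * r) • z‖
        + |a| * r * ((s + δ) + q)) := by linarith
    _ = _ := by ring

theorem E5_lim {X Y C D : ℝ} (hC : 0 < C) (h : ∀ η : ℝ, 0 < η → X ≤ C * (Y + η) + D) :
    X ≤ C * Y + D := by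
  apply le_of_forall_pos_le_add
  intro ε hε
  have h1 := h (ε / C) (div_pos hε hC)
  have h2 : C * (Y + ε / C) + D = C * Y + D + ε := by
    field_simp
    ring
  rwa [h2] at h1

theorem v_bound {Y : Type} [NormedAddCommGroup Y] [NormedSpace ℝ Y] {E0 : Type}
    [NormedAddCommGroup E0] [NormedSpace ℝ E0] (N : Seminorm ℝ Y) (hN : ∀ y, ‖y‖ ≤ N y)
    (r : ℝ) (hr0 : 0 < r) (hr1 : r ≤ 1) (e : (ℝ × Y) ≃L[ℝ] E0) (he : NormF N r e)
    (T : Y →L[ℝ] Y) (s δ : ℝ) (hs : 0 ≤ s) (hδ : 0 ≤ δ) (h1 : ‖T‖ ≤ 1 + δ)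
    (h2 : Moves N T (s + δ)) :
    (∀ q, 0 ≤ q → q ≤ 1 → ∀ a y,
      ‖e ((1 - q) * a, T y)‖ ≤ max (1 + δ) (1 - q * (1 - r) + r * (s + δ)) * ‖e (a, y)‖) ∧
    (∀ a y, ‖e (a, T y)‖ ≤ (1 + δ) * ‖e (a, y)‖ + r * (s + δ) * |a|) ∧
    (∀ y, ‖e (0, y)‖ = ‖y‖) ∧ (∀ a y, |a| ≤ ‖e (a, y)‖ ∧ ‖y‖ ≤ ‖e (a, y)‖) ∧
    (∀ a y z, N z ≤ 1 → ‖e (a, y)‖ ≤ |a| + ‖y - (a * r) • z‖) ∧
    (∀ a y η, 0 < η → ∃ z, N z ≤ 1 ∧ |a| + ‖y - (a * r) • z‖ ≤ ‖e (a, y)‖ + η) := by
  have hsix := E5_six N hN r hr0 e he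
  refine ⟨?_, ?_, ?_, ?_, E5_five N r hr0 e he, hsix⟩
  · intro q hq0 hq1 a y
    have hC : 0 < max (1 + δ) (1 - q * (1 - r) + r * (s + δ)) :=
      lt_max_of_lt_left (by linarith)
    have hlim := E5_lim (X := ‖e ((1 - q) * a, T y)‖) (Y := ‖e (a, y)‖) (D := 0) hC (by
      intro η hη
      obtain ⟨z, hz, hzy⟩ := hsix a y η hη
      have h := E5_T N hN r hr0 e he T s δ h1 h2 q hq0 hq1 a y z hz
      have m1 := le_max_left (1 + δ) (1 - q * (1 - r) + r * (s + δ))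
      have m2 := le_max_right (1 + δ) (1 - q * (1 - r) + r * (s + δ))
      have g1 := mul_le_mul_of_nonneg_right m1 (norm_nonneg (y - (a * r) • z))
      have g2 := mul_le_mul_of_nonneg_left m2 (abs_nonneg a)
      have g3 := mul_le_mul_of_nonneg_left hzy hC.le
      rw [add_zero]
      refine le_trans ?_ g3
      calc ‖e ((1 - q) * a, T y)‖ ≤ _ := h
        _ ≤ _ := add_le_add g1 g2
        _ = _ := by ring)
    rwa [add_zero] at hlim
  · intro a y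
    have hlim := E5_lim (X := ‖e (a, T y)‖) (Y := ‖e (a, y)‖) (C := 1 + δ)
      (D := r * (s + δ) * |a|) (by linarith) (by
      intro η hη
      obtain ⟨z, hz, hzy⟩ := hsix a y η hη
      have h := E5_T N hN r hr0 e he T s δ h1 h2 0 le_rfl zero_le_one a y z hz
      rw [sub_zero, one_mul, zero_mul, sub_zero] at h
      have g3 := mul_le_mul_of_nonneg_left hzy (by linarith : (0:ℝ) ≤ 1 + δ)
      have g4 : 0 ≤ δ * |a| := mul_nonneg hδ (abs_nonneg a)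
      nlinarith)
    exact hlim
  · intro y
    rw [he 0 y, abs_zero, mul_zero, zero_add]
    have hset : ({z | N z ≤ 0} : Set Y) = {0} := by
      ext z
      simp only [Set.mem_setOf_eq, Set.mem_singleton_iff]
      constructor
      · intro hz
        exact norm_le_zero_iff.1 ((hN z).trans hz)
      · intro hz
        rw [hz, map_zero]
    rw [hset, Metric.infDist_singleton, dist_zero_right]
  · intro a y
    refine ⟨?_, ?_⟩
    · rw [he a y]
      have := Metric.infDist_nonneg (x := y) (s := {z | N z ≤ r * |a|})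
      linarith
    · apply le_of_forall_pos_le_add
      intro η hη
      obtain ⟨z, hz, hzy⟩ := hsix a y η hη
      refine le_trans ?_ hzy
      have g1 : ‖(a * r) • z‖ ≤ |a| := by
        rw [norm_smul, Real.norm_eq_abs, abs_mul, abs_of_pos hr0]
        have g2 := (hN z).trans hz
        have g3 := abs_nonneg a
        have g4 := norm_nonneg z
        have g5 : r * ‖z‖ ≤ 1 := by nlinarith
        nlinarith
      have g6 : y = (y - (a * r) • z) + (a * r) • z := by abel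
      calc ‖y‖ = ‖(y - (a * r) • z) + (a * r) • z‖ := by rw [← g6]
        _ ≤ ‖y - (a * r) • z‖ + ‖(a * r) • z‖ := norm_add_le _ _
        _ ≤ |a| + ‖y - (a * r) • z‖ := by linarith


end JE5

end Pool.Agent.Helper130.DL
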