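import Mathlib
import Pool.Agent.Helper130.DL.AuxDefs


set_option autoImplicit false

namespace Pool.Agent.Helper130.DL

open Filter Topology

namespace JE7

theorem dualN_comp_le {E : Type} [NormedAddCommGroup E] [NormedSpace ℝ E]
    (Γ : Submodule ℝ (StrongDual ℝ E)) (β : ℝ) (hβ : 0 < β) (u : E →L[ℝ] E) (A κ : ℝ)
    (hA : ‖u‖ ≤ A) (hκ : 0 ≤ κ) (h : ∀ F ∈ Γ, ‖F.comp u - F‖ ≤ κ * ‖F‖) (f : StrongDual ℝ E) :
    dualN Γ β (f.comp u) ≤ (A + 8 * β * κ) * dualN Γ β f := by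
  have hA0 : 0 ≤ A := le_trans (norm_nonneg u) hA
  have hne : (Γ : Set (StrongDual ℝ E)).Nonempty := ⟨0, Γ.zero_mem⟩
  obtain ⟨D, hD⟩ : ∃ D : ℝ, D = Metric.infDist f (Γ : Set (StrongDual ℝ E)) := ⟨_, rfl⟩
  have hD0 : 0 ≤ D := by rw [hD]; exact Metric.infDist_nonneg
  have hDf : D ≤ ‖f‖ := by
    rw [hD]
    have := Metric.infDist_le_dist_of_mem (x := f) (s := (Γ : Set (StrongDual ℝ E))) Γ.zero_mem
    simpa using this
  have hcomp : ∀ g : StrongDual ℝ E, ‖g.comp u‖ ≤ A * ‖g‖ := by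
    intro g
    refine le_trans (ContinuousLinearMap.opNorm_comp_le g u) ?_
    rw [mul_comm]
    exact mul_le_mul_of_nonneg_right hA (norm_nonneg g)
  have key : Metric.infDist (f.comp u) (Γ : Set (StrongDual ℝ E)) ≤ A * D + 2 * κ * ‖f‖ := by
    apply le_of_forall_pos_le_add
    intro ε hε
    have hs : 0 < A + κ + 1 := by linarith
    have hη : 0 < ε / (A + κ + 1) := by positivity
    obtain ⟨F, hF, hdist⟩ := (Metric.infDist_lt_iff hne).1
      (show Metric.infDist f (Γ : Set (StrongDual ℝ E)) < D + ε / (A + κ + 1) by rw [hD]; linarith)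
    rw [dist_eq_norm] at hdist
    have hFn : ‖F‖ ≤ 2 * ‖f‖ + ε / (A + κ + 1) := by
      have h1 : F = f - (f - F) := by abel
      have h2 : ‖F‖ ≤ ‖f‖ + ‖f - F‖ := by
        conv_lhs => rw [h1]
        exact norm_sub_le _ _
      linarith
    have h3 : Metric.infDist (f.comp u) (Γ : Set (StrongDual ℝ E)) ≤ ‖f.comp u - F‖ := by
      rw [← dist_eq_norm]
      exact Metric.infDist_le_dist_of_mem hF
    have h4 : f.comp u - F = (f - F).comp u + (F.comp u - F) := by
      rw [ContinuousLinearMap.sub_comp]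
      abel
    have h5 : ‖f.comp u - F‖ ≤ A * ‖f - F‖ + κ * ‖F‖ := by
      rw [h4]
      refine le_trans (norm_add_le _ _) ?_
      exact add_le_add (hcomp _) (h F hF)
    have h6 : A * ‖f - F‖ ≤ A * (D + ε / (A + κ + 1)) := mul_le_mul_of_nonneg_left hdist.le hA0
    have h7 : κ * ‖F‖ ≤ κ * (2 * ‖f‖ + ε / (A + κ + 1)) := mul_le_mul_of_nonneg_left hFn hκ
    have h8 : (A + κ) * (ε / (A + κ + 1)) ≤ ε := by
      have : (A + κ + 1) * (ε / (A + κ + 1)) = ε := by field_simp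
      linarith
    linarith
  unfold dualN
  rw [← hD]
  have h1 := hcomp f
  have h2 : 4 * β * Metric.infDist (f.comp u) (Γ : Set (StrongDual ℝ E)) ≤
      4 * β * (A * D + 2 * κ * ‖f‖) := mul_le_mul_of_nonneg_left key (by positivity)
  have h3 : 0 ≤ 8 * β * κ * (4 * β * D) := by positivity
  nlinarith

end JE7

end Pool.Agent.Helper130.DL
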