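import Mathlib
import Pool.Agent.Helper130.DL.AuxDefs


set_option autoImplicit false

namespace Pool.Agent.Helper130.DL

open Filter Topology

namespace JE8

theorem infDist_le_of_ann {E : Type} [NormedAddCommGroup E] [NormedSpace ℝ E]
    (Γ : Submodule ℝ (StrongDual ℝ E)) (hΓ : FiniteDimensional ℝ Γ) (h : StrongDual ℝ E)
    (C : ℝ) (hC : 0 ≤ C) (hh : ∀ w, (∀ F ∈ Γ, F w = 0) → |h w| ≤ C * ‖w‖) :
    Metric.infDist h (Γ : Set (StrongDual ℝ E)) ≤ C := by
  classical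
  haveI : Module.Free ℝ Γ := Module.Free.of_divisionRing ℝ Γ
  let b := Module.finBasis ℝ Γ
  let L : Fin (Module.finrank ℝ Γ) → E →ₗ[ℝ] ℝ := fun i => ((b i : StrongDual ℝ E) : E →ₗ[ℝ] ℝ)
  let W : Submodule ℝ E := ⨅ i, LinearMap.ker (L i)
  have hW : ∀ w ∈ W, ∀ F ∈ Γ, F w = 0 := by
    intro w hw F hF
    have hw' : ∀ i, (b i : StrongDual ℝ E) w = 0 := by
      intro i
      have := (Submodule.mem_iInf _).mp hw i
      exact this
    have h1 : (⟨F, hF⟩ : Γ) = ∑ i, b.repr ⟨F, hF⟩ i • b i := (b.sum_repr _).symm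
    have h2 : F = ∑ i, b.repr ⟨F, hF⟩ i • (b i : StrongDual ℝ E) := by
      have := congrArg (Submodule.subtype Γ) h1
      rw [map_sum] at this
      simpa using this
    rw [h2, ContinuousLinearMap.sum_apply]
    refine Finset.sum_eq_zero fun i _ => ?_
    rw [ContinuousLinearMap.smul_apply, hw' i, smul_zero]
  have hn : ‖h.comp W.subtypeL‖ ≤ C := by
    refine ContinuousLinearMap.opNorm_le_bound _ hC fun w => ?_
    rw [Real.norm_eq_abs]
    exact hh w (fun F hF => hW w w.2 F hF)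
  obtain ⟨h', hh1, hh2⟩ := exists_extension_norm_eq W (h.comp W.subtypeL)
  have hker : ⨅ i, LinearMap.ker (L i) ≤ LinearMap.ker ((h - h' : StrongDual ℝ E) : E →ₗ[ℝ] ℝ) := by
    intro w hw
    rw [LinearMap.mem_ker]
    show h w - h' w = 0
    have := hh1 ⟨w, hw⟩
    rw [this]
    exact sub_self _
  have hspan := mem_span_of_iInf_ker_le_ker hker
  let c : StrongDual ℝ E →ₗ[ℝ] (E →ₗ[ℝ] ℝ) := ContinuousLinearMap.coeLM ℝ
  have hle : Submodule.span ℝ (Set.range L) ≤ Γ.map c := by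
    rw [Submodule.span_le]
    rintro _ ⟨i, rfl⟩
    exact ⟨b i, (b i).2, rfl⟩
  obtain ⟨γ, hγ, hγe⟩ := hle hspan
  have hγ' : γ = h - h' := ContinuousLinearMap.coe_injective hγe
  have hmem : h - h' ∈ (Γ : Set (StrongDual ℝ E)) := by rw [← hγ']; exact hγ
  refine (Metric.infDist_le_dist_of_mem hmem).trans ?_
  rw [dist_eq_norm, sub_sub_cancel, hh2]
  exact hn

end JE8

end Pool.Agent.Helper130.DL
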