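import Mathlib
import Pool.Agent.Helper130.DL.AuxDefs


set_option autoImplicit false

namespace Pool.Agent.Helper130.DL

open Filter Topology

namespace JE9

theorem near {E : Type} [NormedAddCommGroup E] [NormedSpace ℝ E]
    (Γ : Submodule ℝ (StrongDual ℝ E)) (f : StrongDual ℝ E) (h : E) (κ : ℝ) (hκ0 : 0 ≤ κ)
    (hκ : ∀ F ∈ Γ, |F h| ≤ κ * ‖F‖) :
    |f h| ≤ Metric.infDist f (Γ : Set (StrongDual ℝ E)) * ‖h‖ + 2 * κ * ‖f‖ := by
  have hne : (Γ : Set (StrongDual ℝ E)).Nonempty := ⟨0, Γ.zero_mem⟩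
  have hd : Metric.infDist f (Γ : Set (StrongDual ℝ E)) ≤ ‖f‖ := by
    have := Metric.infDist_le_dist_of_mem (x := f) (show (0 : StrongDual ℝ E) ∈
      (Γ : Set (StrongDual ℝ E)) from Γ.zero_mem)
    rwa [dist_zero_right] at this
  have key : ∀ η : ℝ, 0 < η → |f h| ≤
      Metric.infDist f (Γ : Set (StrongDual ℝ E)) * ‖h‖ + 2 * κ * ‖f‖ + η * (‖h‖ + κ) := by
    intro η hη
    obtain ⟨F, hF, hFd⟩ := (Metric.infDist_lt_iff (x := f) hne).mp
      (lt_add_of_pos_right (Metric.infDist f (Γ : Set (StrongDual ℝ E))) hη)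
    rw [dist_eq_norm] at hFd
    have h1 : ‖F‖ ≤ 2 * ‖f‖ + η := by
      have h2 : ‖F‖ ≤ ‖f‖ + ‖f - F‖ := by
        have h3 := norm_sub_le f (f - F)
        rwa [sub_sub_cancel] at h3
      linarith
    have h4 : |f h| ≤ |(f - F) h| + |F h| := by
      have h5 : f h = (f - F) h + F h := by
        simp
      rw [h5]
      exact abs_add_le _ _
    have h6 : |(f - F) h| ≤ ‖f - F‖ * ‖h‖ := (f - F).le_opNorm h
    have h7 : ‖f - F‖ * ‖h‖ ≤ (Metric.infDist f (Γ : Set (StrongDual ℝ E)) + η) * ‖h‖ :=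
      mul_le_mul_of_nonneg_right hFd.le (norm_nonneg _)
    have h8 : κ * ‖F‖ ≤ κ * (2 * ‖f‖ + η) := mul_le_mul_of_nonneg_left h1 hκ0
    have h9 := hκ F hF
    nlinarith
  refine le_of_forall_pos_le_add fun ε hε => ?_
  have hpos : 0 < ‖h‖ + κ + 1 := by positivity
  have h1 := key (ε / (‖h‖ + κ + 1)) (div_pos hε hpos)
  have h2 : ε / (‖h‖ + κ + 1) * (‖h‖ + κ) ≤ ε := by
    rw [div_mul_eq_mul_div, div_le_iff₀ hpos]
    nlinarith
  linarith

end JE9

end Pool.Agent.Helper130.DL
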