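import Mathlib
import Pool.Agent.Helper130.DL.AuxDefs


set_option autoImplicit false

namespace Pool.Agent.Helper130.DL

open Filter Topology

namespace JGS

theorem Gs_props {Y : Type} [NormedAddCommGroup Y] [NormedSpace ℝ Y] {E0 : Type}
    [NormedAddCommGroup E0] [NormedSpace ℝ E0] (e : (ℝ × Y) ≃L[ℝ] E0) (H : ℕ → Submodule ℝ Y)
    (hH : Monotone H) (hfd : ∀ n, FiniteDimensional ℝ (H n))
    (hd : Dense (⋃ n, (H n : Set Y))) :
    Monotone (Gs e H) ∧ (∀ n, FiniteDimensional ℝ (Gs e H n)) ∧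
      Dense (⋃ n, (Gs e H n : Set E0)) ∧ (∀ n a y, e (a, y) ∈ Gs e H n ↔ y ∈ H n) := by
  have hmem : ∀ n a y, e (a, y) ∈ Gs e H n ↔ y ∈ H n := by
    intro n a y
    constructor
    · intro h
      obtain ⟨p, hp, hpe⟩ := Submodule.mem_map.1 h
      have h1 : e p = e (a, y) := hpe
      have h2 : p = (a, y) := e.injective h1
      rw [h2] at hp
      exact hp.2
    · intro h
      exact Submodule.mem_map.2 ⟨(a, y), ⟨Submodule.mem_top, h⟩, rfl⟩
  refine ⟨?_, ?_, ?_, hmem⟩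
  · intro n m hnm x hx
    obtain ⟨p, hp, rfl⟩ := Submodule.mem_map.1 hx
    exact Submodule.mem_map.2 ⟨p, ⟨Submodule.mem_top, hH hnm hp.2⟩, rfl⟩
  · intro n
    have h1 : (Submodule.prod (⊤ : Submodule ℝ ℝ) (H n)).FG :=
      Submodule.FG.prod Module.Finite.fg_top ((Submodule.fg_iff_finiteDimensional _).2 (hfd n))
    exact (Submodule.fg_iff_finiteDimensional _).1 (h1.map _)
  · have h1 : Dense (e '' ((Set.univ : Set ℝ) ×ˢ (⋃ n, (H n : Set Y)))) :=
      e.surjective.denseRange.dense_image e.continuous (dense_univ.prod hd)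
    refine h1.mono ?_
    rintro _ ⟨⟨a, y⟩, ⟨-, hy⟩, rfl⟩
    obtain ⟨n, hn⟩ := Set.mem_iUnion.1 hy
    exact Set.mem_iUnion.2 ⟨n, (hmem n a y).2 hn⟩

end JGS

end Pool.Agent.Helper130.DL
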