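import Mathlib
import Pool.Agent.Helper130.DL.AuxDefs


set_option autoImplicit false

namespace Pool.Agent.Helper130.DL

open Filter Topology

namespace JHL

theorem exists_H : ∃ H : ℕ → Submodule ℝ (lp (fun _ : ℕ => ℝ) 1), Monotone H ∧
    (∀ n, FiniteDimensional ℝ (H n)) ∧
    Dense (⋃ n, (H n : Set (lp (fun _ : ℕ => ℝ) 1))) := by
  let H : ℕ → Submodule ℝ (lp (fun _ : ℕ => ℝ) 1) := fun n =>
    { carrier := {y | ∀ k, n ≤ k → y k = 0}
      add_mem' := by
        intro a b ha hb k hk
        rw [lp.coeFn_add, Pi.add_apply, ha k hk, hb k hk, add_zero]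
      zero_mem' := by
        intro k _
        rfl
      smul_mem' := by
        intro c a ha k hk
        rw [lp.coeFn_smul, Pi.smul_apply, ha k hk, smul_zero] }
  have hmem : ∀ n y, y ∈ H n ↔ ∀ k, n ≤ k → (y : ∀ _ : ℕ, ℝ) k = 0 := fun n y => Iff.rfl
  refine ⟨H, ?_, ?_, ?_⟩
  · intro m n hmn y hy k hk
    exact hy k (le_trans hmn hk)
  · intro n
    let f : H n →ₗ[ℝ] (Fin n → ℝ) :=
      { toFun := fun y i => (y : lp (fun _ : ℕ => ℝ) 1) (i : ℕ)
        map_add' := by
          intro a b
          funext i
          rfl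
        map_smul' := by
          intro c a
          funext i
          rfl }
    refine FiniteDimensional.of_injective f ?_
    intro a b hab
    apply Subtype.ext
    apply lp.ext
    funext k
    rcases Nat.lt_or_ge k n with hk | hk
    · exact congrFun hab ⟨k, hk⟩
    · rw [(hmem n a).1 a.2 k hk, (hmem n b).1 b.2 k hk]
  · intro y
    have h1 : HasSum (fun i : ℕ => lp.single 1 i (y i : ℝ)) y :=
      lp.hasSum_single (by norm_num) y
    have h2 := h1.tendsto_sum_nat
    refine mem_closure_of_tendsto h2 (Eventually.of_forall ?_)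
    intro n
    refine Set.mem_iUnion.2 ⟨n, ?_⟩
    refine Submodule.sum_mem _ ?_
    intro i hi
    rw [hmem]
    intro k hk
    rw [lp.single_apply_ne]
    have := Finset.mem_range.1 hi
    omega

end JHL

end Pool.Agent.Helper130.DL
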