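import Mathlib
import Pool.Agent.Helper130.DL.AuxDefs


set_option autoImplicit false

namespace Pool.Agent.Helper130.DL

open Filter Topology

namespace JK0

theorem exists_U {Y : Type} [NormedAddCommGroup Y] [NormedSpace ℝ Y] {E0 : Type}
    [NormedAddCommGroup E0] [NormedSpace ℝ E0] {E : Type} [NormedAddCommGroup E]
    [NormedSpace ℝ E] (e : (ℝ × Y) ≃L[ℝ] E0) (H : ℕ → Submodule ℝ Y) {c : ℝ}
    (tw : Tower E0 (Gs e H) c E) (M M' : ℕ) (T : Y →L[ℝ] Y)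
    (hfd : FiniteDimensional ℝ (Gs e H M'))
    (hmem : ∀ a y, e (a, T y) ∈ Gs e H M') (q : ℝ) :
    ∃ U : E →L[ℝ] E, FiniteDimensional ℝ (LinearMap.range (U : E →ₗ[ℝ] E)) ∧
      IsU e H tw M M' T q U := by
  let D : E →L[ℝ] E0 := tw.L.comp (ContinuousLinearMap.id ℝ E - tw.P M)
  let W : (ℝ × Y) →L[ℝ] (ℝ × Y) :=
    ((1 - q) • ContinuousLinearMap.fst ℝ ℝ Y).prod (T.comp (ContinuousLinearMap.snd ℝ ℝ Y))
  let V0 : E0 →L[ℝ] E0 := (e : (ℝ × Y) →L[ℝ] E0).comp (W.comp (e.symm : E0 →L[ℝ] (ℝ × Y)))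
  let V : E0 →L[ℝ] Gs e H M' := V0.codRestrict (Gs e H M') (fun d => hmem _ _)
  refine ⟨tw.P M + (tw.j M').comp (V.comp D), ?_, ?_⟩
  · haveI := tw.fin M
    haveI : FiniteDimensional ℝ (LinearMap.range (tw.j M' : Gs e H M' →ₗ[ℝ] E)) :=
      LinearMap.finiteDimensional_range _
    have hle : LinearMap.range ((tw.P M + (tw.j M').comp (V.comp D) : E →L[ℝ] E) : E →ₗ[ℝ] E) ≤
        LinearMap.range (tw.P M : E →ₗ[ℝ] E) ⊔ LinearMap.range (tw.j M' : Gs e H M' →ₗ[ℝ] E) := by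
      rintro _ ⟨g, rfl⟩
      exact Submodule.add_mem_sup ⟨g, rfl⟩ ⟨V (D g), rfl⟩
    exact Submodule.finiteDimensional_of_le hle
  · intro g
    exact ⟨V (D g), rfl, rfl⟩

end JK0

end Pool.Agent.Helper130.DL
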