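import Mathlib
import Pool.Agent.Helper130.DL.AuxDefs


set_option autoImplicit false

namespace Pool.Agent.Helper130.DL

open Filter Topology

namespace JK1

theorem caseOne_dist {Y : Type} [NormedAddCommGroup Y] [NormedSpace ℝ Y] {E0 : Type}
    [NormedAddCommGroup E0] [NormedSpace ℝ E0] {E : Type} [NormedAddCommGroup E]
    [NormedSpace ℝ E] (N : Seminorm ℝ Y) (r : ℝ) (hr0 : 0 < r) (hr1 : r ≤ 1)
    (e : (ℝ × Y) ≃L[ℝ] E0) (H : ℕ → Submodule ℝ Y) {c : ℝ} (hc : 0 ≤ c)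
    (tw : Tower E0 (Gs e H) c E) (M : ℕ) (Γ : Submodule ℝ (StrongDual ℝ E)) (s δ : ℝ)
    (hs : 0 ≤ s) (hδ : 0 ≤ δ) (M' : ℕ) (T : Y →L[ℝ] Y) (st : Setup N e H tw M Γ s δ M' T)
    (hS : ∀ F ∈ Γ, ∃ F', Supp tw M F F')
    (infd : ∀ (h : StrongDual ℝ E) (C : ℝ), 0 ≤ C →
      (∀ w, (∀ F ∈ Γ, F w = 0) → |h w| ≤ C * ‖w‖) →
      Metric.infDist h (Γ : Set (StrongDual ℝ E)) ≤ C)
    (near : ∀ (f : StrongDual ℝ E) (h : E) (κ : ℝ), 0 ≤ κ → (∀ F ∈ Γ, |F h| ≤ κ * ‖F‖) →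
      |f h| ≤ Metric.infDist f (Γ : Set (StrongDual ℝ E)) * ‖h‖ + 2 * κ * ‖f‖)
    (b2 : ∀ a y, ‖e (a, T y)‖ ≤ (1 + δ) * ‖e (a, y)‖ + r * (s + δ) * |a|)
    (b4 : ∀ a y, |a| ≤ ‖e (a, y)‖ ∧ ‖y‖ ≤ ‖e (a, y)‖) (b10 : ‖e (1, 0)‖ ≤ 1)
    (hcase : ∀ c0 d0, tw.P M c0 = c0 → (∀ F ∈ Γ, ∀ F', Supp tw M F F' → F c0 + F' d0 = 0) →
      |(e.symm d0).1| ≤ 4 / 5 * (‖c0‖ + ‖d0‖))
    (q : ℝ) (hq0 : 0 ≤ q) (hq1 : q ≤ 1) (U : E →L[ℝ] E) (hU : IsU e H tw M M' T q U)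
    (f : StrongDual ℝ E) :
    Metric.infDist (f.comp U) (Γ : Set (StrongDual ℝ E)) ≤
      (1 + δ + 4 / 5 * (r * (s + δ))) * (1 + c) * Metric.infDist f (Γ : Set (StrongDual ℝ E)) +
        (1 + c) * (2 * δ + q) * ‖f‖ := by
  have hK0 : (0:ℝ) ≤ 1 + δ + 4 / 5 * (r * (s + δ)) := by positivity
  have hd0 : 0 ≤ Metric.infDist f (Γ : Set (StrongDual ℝ E)) := Metric.infDist_nonneg
  refine infd (f.comp U) _ (by positivity) fun w hw => ?_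
  obtain ⟨x, hx, hUw⟩ := hU w
  set c0 := tw.P M w with hc0
  set d := tw.L (w - c0) with hd
  set a := (e.symm d).1 with ha
  set y := (e.symm d).2 with hy
  have hed : e (a, y) = d := by
    rw [ha, hy]
    exact e.apply_symm_apply d
  have hFd : ∀ F ∈ Γ, ∀ F', Supp tw M F F' → F c0 + F' d = 0 := by
    intro F hF F' hFF
    have h1 := hFF w
    rw [hw F hF] at h1
    exact h1.symm
  have h45 : |a| ≤ 4 / 5 * (‖c0‖ + ‖d‖) := hcase c0 d (tw.idem M w) hFd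
  have hmain : ‖c0‖ + ‖d‖ ≤ (1 + c) * ‖w‖ := tw.main M w
  have hu1 : e (1, 0) ∈ Gs e H M' := by
    refine ⟨(1, 0), ?_, rfl⟩
    exact ⟨trivial, (H M').zero_mem⟩
  let u1 : Gs e H M' := ⟨e (1, 0), hu1⟩
  let x0 : Gs e H M' := x + (q * a) • u1
  have hx0 : (x0 : E0) = e (a, T y) := by
    change (x : E0) + (q * a) • e (1, 0) = e (a, T y)
    rw [hx, ← map_smul, ← map_add]
    congr 1
    ext
    · simp only [Prod.fst_add, Prod.smul_fst, smul_eq_mul, mul_one]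
      ring
    · simp
  set h0 := c0 + tw.j M' x0 with hh0
  have hUw' : U w = h0 - (q * a) • tw.j M' u1 := by
    rw [hUw, hh0]
    change c0 + tw.j M' x = c0 + tw.j M' (x + (q * a) • u1) - (q * a) • tw.j M' u1
    rw [map_add, map_smul]
    abel
  have hSnn : 0 ≤ ‖c0‖ + ‖d‖ := by positivity
  have hn0 : ‖h0‖ ≤ (1 + δ + 4 / 5 * (r * (s + δ))) * ((1 + c) * ‖w‖) := by
    have e1 : ‖h0‖ ≤ ‖c0‖ + ‖(x0 : E0)‖ :=
      (norm_add_le _ _).trans (add_le_add le_rfl (tw.j_norm M' x0))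
    have e2 := b2 a y
    rw [hed] at e2
    rw [hx0] at e1
    have hrs : 0 ≤ r * (s + δ) := by positivity
    have e3 : r * (s + δ) * |a| ≤ r * (s + δ) * (4 / 5 * (‖c0‖ + ‖d‖)) :=
      mul_le_mul_of_nonneg_left h45 hrs
    have e4 : (1 + δ + 4 / 5 * (r * (s + δ))) * (‖c0‖ + ‖d‖)
        ≤ (1 + δ + 4 / 5 * (r * (s + δ))) * ((1 + c) * ‖w‖) :=
      mul_le_mul_of_nonneg_left hmain hK0
    have e5 : 0 ≤ δ * ‖c0‖ := by positivity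
    nlinarith
  have hyn : ‖y‖ ≤ (1 + c) * ‖w‖ := by
    have e1 := (b4 a y).2
    rw [hed] at e1
    have e2 : 0 ≤ ‖c0‖ := norm_nonneg _
    linarith
  have hFh : ∀ F ∈ Γ, |F h0| ≤ (δ * ((1 + c) * ‖w‖)) * ‖F‖ := by
    intro F hF
    obtain ⟨F', hFF⟩ := hS F hF
    have e1 := hFF (tw.j M' x0)
    rw [tw.P_j M M' x0 st.lt, map_zero, zero_add, sub_zero, tw.L_j, hx0] at e1
    have e2 : e (a, T y) = d + e (0, T y - y) := by
      rw [← hed, ← map_add]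
      congr 1
      ext <;> simp
    have e3 : F h0 = F' (e (0, T y - y)) := by
      rw [hh0, map_add, e1, e2, map_add]
      have := hFd F hF F' hFF
      linarith
    rw [e3]
    refine (st.close F hF F' hFF y).trans ?_
    have e4 : δ * ‖F‖ * ‖y‖ ≤ δ * ‖F‖ * ((1 + c) * ‖w‖) :=
      mul_le_mul_of_nonneg_left hyn (by positivity)
    linarith
  have hnear := near f h0 (δ * ((1 + c) * ‖w‖)) (by positivity) hFh
  have hfj : |f (tw.j M' u1)| ≤ ‖f‖ := by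
    have e1 : ‖tw.j M' u1‖ ≤ 1 := (tw.j_norm M' u1).trans b10
    have e2 := f.le_opNorm (tw.j M' u1)
    rw [Real.norm_eq_abs] at e2
    have e3 : ‖f‖ * ‖tw.j M' u1‖ ≤ ‖f‖ * 1 := mul_le_mul_of_nonneg_left e1 (norm_nonneg _)
    linarith
  have ha1 : |a| ≤ (1 + c) * ‖w‖ := by linarith
  have hfin : |f (U w)| ≤ |f h0| + q * ((1 + c) * ‖w‖) * ‖f‖ := by
    rw [hUw', map_sub, map_smul, smul_eq_mul]
    have e1 : |f h0 - q * a * f (tw.j M' u1)| ≤ |f h0| + |q * a * f (tw.j M' u1)| := abs_sub _ _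
    have e2 : |q * a * f (tw.j M' u1)| ≤ q * ((1 + c) * ‖w‖) * ‖f‖ := by
      rw [abs_mul, abs_mul, abs_of_nonneg hq0]
      have e3 : q * |a| ≤ q * ((1 + c) * ‖w‖) := mul_le_mul_of_nonneg_left ha1 hq0
      exact mul_le_mul e3 hfj (abs_nonneg _) (by positivity)
    linarith
  have hdn : Metric.infDist f (Γ : Set (StrongDual ℝ E)) * ‖h0‖
      ≤ Metric.infDist f (Γ : Set (StrongDual ℝ E)) *
        ((1 + δ + 4 / 5 * (r * (s + δ))) * ((1 + c) * ‖w‖)) :=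
    mul_le_mul_of_nonneg_left hn0 hd0
  change |f (U w)| ≤ _
  calc |f (U w)| ≤ |f h0| + q * ((1 + c) * ‖w‖) * ‖f‖ := hfin
    _ ≤ (Metric.infDist f (Γ : Set (StrongDual ℝ E)) * ‖h0‖
        + 2 * (δ * ((1 + c) * ‖w‖)) * ‖f‖) + q * ((1 + c) * ‖w‖) * ‖f‖ := by linarith
    _ ≤ (Metric.infDist f (Γ : Set (StrongDual ℝ E)) *
        ((1 + δ + 4 / 5 * (r * (s + δ))) * ((1 + c) * ‖w‖))
        + 2 * (δ * ((1 + c) * ‖w‖)) * ‖f‖) + q * ((1 + c) * ‖w‖) * ‖f‖ := by linarith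
    _ = _ := by ring

end JK1

end Pool.Agent.Helper130.DL
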