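import Mathlib
import Pool.Agent.Helper130.DL.AuxDefs


set_option autoImplicit false

namespace Pool.Agent.Helper130.DL

open Filter Topology

namespace JK2

theorem caseOne_norm {Y : Type} [NormedAddCommGroup Y] [NormedSpace ℝ Y] {E0 : Type}
    [NormedAddCommGroup E0] [NormedSpace ℝ E0] {E : Type} [NormedAddCommGroup E]
    [NormedSpace ℝ E] (e : (ℝ × Y) ≃L[ℝ] E0) (H : ℕ → Submodule ℝ Y) {c : ℝ} (hc : 0 ≤ c)
    (tw : Tower E0 (Gs e H) c E) (M M' : ℕ) (T : Y →L[ℝ] Y) (q m : ℝ) (hm : 1 ≤ m)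
    (b1 : ∀ a y, ‖e ((1 - q) * a, T y)‖ ≤ m * ‖e (a, y)‖)
    (U : E →L[ℝ] E) (hU : IsU e H tw M M' T q U) :
    (∀ f : StrongDual ℝ E, ‖f.comp U‖ ≤ (1 + c) * m * ‖f‖) ∧
    (∀ g, ‖U g - tw.P M g‖ ≤ m * ‖tw.L (g - tw.P M g)‖) := by
  have key : ∀ g, ‖U g - tw.P M g‖ ≤ m * ‖tw.L (g - tw.P M g)‖ := by
    intro g
    obtain ⟨x, hx, hUg⟩ := hU g
    have h1 : U g - tw.P M g = tw.j M' x := by rw [hUg]; abel
    rw [h1]
    refine (tw.j_norm M' x).trans ?_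
    have h2 : ‖x‖ = ‖(x : E0)‖ := rfl
    rw [h2, hx]
    refine (b1 _ _).trans ?_
    have h3 : e ((e.symm (tw.L (g - tw.P M g))).1, (e.symm (tw.L (g - tw.P M g))).2) =
        tw.L (g - tw.P M g) := by
      rw [Prod.mk.eta]
      exact e.apply_symm_apply _
    rw [h3]
  refine ⟨?_, key⟩
  intro f
  have hm0 : 0 ≤ m := by linarith
  refine ContinuousLinearMap.opNorm_le_bound _ (by positivity) ?_
  intro g
  have h1 : ‖(f.comp U) g‖ ≤ ‖f‖ * ‖U g‖ := f.le_opNorm (U g)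
  have h2 : ‖U g‖ ≤ ‖tw.P M g‖ + ‖U g - tw.P M g‖ := by
    have h3 : U g = tw.P M g + (U g - tw.P M g) := by abel
    calc ‖U g‖ = ‖tw.P M g + (U g - tw.P M g)‖ := by rw [← h3]
      _ ≤ _ := norm_add_le _ _
  have h4 := key g
  have h5 := tw.main M g
  have h6 : ‖U g‖ ≤ m * ((1 + c) * ‖g‖) := by
    calc ‖U g‖ ≤ ‖tw.P M g‖ + m * ‖tw.L (g - tw.P M g)‖ := by linarith
      _ ≤ m * ‖tw.P M g‖ + m * ‖tw.L (g - tw.P M g)‖ := by
        have := norm_nonneg (tw.P M g)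
        nlinarith
      _ = m * (‖tw.P M g‖ + ‖tw.L (g - tw.P M g)‖) := by ring
      _ ≤ m * ((1 + c) * ‖g‖) := mul_le_mul_of_nonneg_left h5 hm0
  calc ‖(f.comp U) g‖ ≤ ‖f‖ * ‖U g‖ := h1
    _ ≤ ‖f‖ * (m * ((1 + c) * ‖g‖)) := mul_le_mul_of_nonneg_left h6 (norm_nonneg _)
    _ = (1 + c) * m * ‖f‖ * ‖g‖ := by ring

end JK2

end Pool.Agent.Helper130.DL
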