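import Mathlib
import Pool.Agent.Helper130.DL.AuxDefs


set_option autoImplicit false

namespace Pool.Agent.Helper130.DL

open Filter Topology

namespace JK3

theorem caseOne_arith (nf D r δ A hh : ℝ) (hnf : 0 ≤ nf) (hD : 0 ≤ D) (hDf : D ≤ nf)
    (hr0 : 0 < r) (hr1 : r ≤ 1) (hδ : 0 ≤ δ) (hA : A ≤ nf * (1 + r * δ))
    (hh1 : hh ≤ D * (2 + 2 * δ) + 4 * δ * nf) :
    A + r * hh ≤ nf * (1 + 9 * δ) + 2 * r * D := by
  have h1 : r * hh ≤ r * (D * (2 + 2 * δ) + 4 * δ * nf) := mul_le_mul_of_nonneg_left hh1 hr0.le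
  have h2 : r * (δ * nf) ≤ δ * nf := by
    have : 0 ≤ δ * nf := mul_nonneg hδ hnf
    nlinarith
  have h3 : r * (δ * D) ≤ δ * nf := by
    have h4 : r * (δ * D) ≤ 1 * (δ * D) := mul_le_mul_of_nonneg_right hr1 (mul_nonneg hδ hD)
    have h5 : δ * D ≤ δ * nf := mul_le_mul_of_nonneg_left hDf hδ
    linarith
  have h4 : 0 ≤ δ * nf := mul_nonneg hδ hnf
  nlinarith

theorem caseOne_x2 {Y : Type} [NormedAddCommGroup Y] [NormedSpace ℝ Y] {E0 : Type}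
    [NormedAddCommGroup E0] [NormedSpace ℝ E0] {E : Type} [NormedAddCommGroup E]
    [NormedSpace ℝ E] (N : Seminorm ℝ Y) (hN : ∀ y, ‖y‖ ≤ N y) (r : ℝ) (hr0 : 0 < r) (hr1 : r ≤ 1)
    (e : (ℝ × Y) ≃L[ℝ] E0) (H : ℕ → Submodule ℝ Y) {c : ℝ}
    (tw : Tower E0 (Gs e H) c E) (M : ℕ) (Γ : Submodule ℝ (StrongDual ℝ E)) (s δ : ℝ)
    (hδ : 0 ≤ δ) (M' : ℕ) (T : Y →L[ℝ] Y) (st : Setup N e H tw M Γ s δ M' T)
    (hmem : ∀ n a y, e (a, y) ∈ Gs e H n ↔ y ∈ H n)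
    (hS : ∀ F ∈ Γ, ∃ F', Supp tw M F F')
    (near : ∀ (f : StrongDual ℝ E) (h : E) (κ : ℝ), 0 ≤ κ → (∀ F ∈ Γ, |F h| ≤ κ * ‖F‖) →
      |f h| ≤ Metric.infDist f (Γ : Set (StrongDual ℝ E)) * ‖h‖ + 2 * κ * ‖f‖)
    (b3 : ∀ y, ‖e (0, y)‖ = ‖y‖)
    (b5 : ∀ a y z, N z ≤ 1 → ‖e (a, y)‖ ≤ |a| + ‖y - (a * r) • z‖)
    (f : StrongDual ℝ E) (z : Y) (hz : N z ≤ 1) (X2 : Gs e H M')
    (hX2 : (X2 : E0) = e (1, r • T z)) :
    |f (tw.j M' X2)| ≤ ‖f‖ * (1 + 9 * δ) +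
      2 * r * Metric.infDist f (Γ : Set (StrongDual ℝ E)) := by
  have hD0 : 0 ≤ Metric.infDist f (Γ : Set (StrongDual ℝ E)) := Metric.infDist_nonneg
  have hDf : Metric.infDist f (Γ : Set (StrongDual ℝ E)) ≤ ‖f‖ := by
    have := Metric.infDist_le_dist_of_mem (x := f) (Γ.zero_mem)
    rwa [dist_zero_right] at this
  obtain ⟨yy, hyy, ⟨z', hz', hzz⟩, hnet⟩ := st.net z hz
  have hzn : ‖z‖ ≤ 1 := (hN z).trans hz
  have hzn' : ‖z'‖ ≤ 1 := (hN z').trans hz'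
  let X3 : Gs e H M' := ⟨e (1, r • yy), (hmem _ _ _).2 ((H M').smul_mem r hyy)⟩
  let X4 : Gs e H M' := ⟨e (0, T z - yy), (hmem _ _ _).2 ((H M').sub_mem (st.mem z) hyy)⟩
  have hX : X2 = X3 + r • X4 := by
    apply Subtype.ext
    rw [hX2]
    show e (1, r • T z) = e (1, r • yy) + r • e (0, T z - yy)
    rw [← map_smul e r ((0 : ℝ), T z - yy), ← map_add]
    congr 1
    rw [Prod.smul_mk, Prod.mk_add_mk, smul_zero, add_zero, smul_sub]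
    congr 1
    abel
  have h3 : |f (tw.j M' X3)| ≤ ‖f‖ * (1 + r * δ) := by
    have h31 : ‖X3‖ ≤ 1 + r * δ := by
      have := b5 1 (r • yy) z' hz'
      rw [one_mul, ← smul_sub, norm_smul, Real.norm_of_nonneg hr0.le, abs_one] at this
      have h32 : r * ‖yy - z'‖ ≤ r * δ := mul_le_mul_of_nonneg_left hzz hr0.le
      calc ‖X3‖ = ‖e (1, r • yy)‖ := rfl
        _ ≤ 1 + r * δ := by linarith
    calc |f (tw.j M' X3)| ≤ ‖f‖ * ‖tw.j M' X3‖ := f.le_opNorm _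
      _ ≤ ‖f‖ * (1 + r * δ) :=
        mul_le_mul_of_nonneg_left ((tw.j_norm M' X3).trans h31) (norm_nonneg _)
  have h4 : ‖tw.j M' X4‖ ≤ 2 + 2 * δ := by
    have h41 : ‖X4‖ = ‖T z - yy‖ := by
      calc ‖X4‖ = ‖e (0, T z - yy)‖ := rfl
        _ = _ := b3 _
    have h42 : ‖T z‖ ≤ 1 + δ := by
      calc ‖T z‖ ≤ ‖T‖ * ‖z‖ := T.le_opNorm z
        _ ≤ (1 + δ) * 1 := mul_le_mul st.norm hzn (norm_nonneg _) (by linarith)
        _ = 1 + δ := mul_one _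
    have h43 : ‖yy‖ ≤ δ + 1 := by
      calc ‖yy‖ = ‖(yy - z') + z'‖ := by rw [sub_add_cancel]
        _ ≤ ‖yy - z'‖ + ‖z'‖ := norm_add_le _ _
        _ ≤ δ + 1 := add_le_add hzz hzn'
    calc ‖tw.j M' X4‖ ≤ ‖X4‖ := tw.j_norm M' X4
      _ = ‖T z - yy‖ := h41
      _ ≤ ‖T z‖ + ‖yy‖ := norm_sub_le _ _
      _ ≤ 2 + 2 * δ := by linarith
  have h5 : ∀ F ∈ Γ, |F (tw.j M' X4)| ≤ 2 * δ * ‖F‖ := by
    intro F hF
    obtain ⟨F', hF'⟩ := hS F hF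
    have h51 := hF' (tw.j M' X4)
    rw [tw.P_j M M' X4 st.lt, map_zero, sub_zero, tw.L_j, zero_add] at h51
    have h52 : (X4 : E0) = e (0, T z - z) + e (0, z - yy) := by
      show e (0, T z - yy) = _
      rw [← map_add]
      congr 1
      rw [Prod.mk_add_mk, add_zero]
      congr 1
      abel
    rw [h51, h52, map_add]
    have h53 := st.close F hF F' hF' z
    have h54 := hnet F hF F' hF'
    have h55 : δ * ‖F‖ * ‖z‖ ≤ δ * ‖F‖ := by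
      have : 0 ≤ δ * ‖F‖ := mul_nonneg hδ (norm_nonneg _)
      nlinarith
    calc |F' (e (0, T z - z)) + F' (e (0, z - yy))|
        ≤ |F' (e (0, T z - z))| + |F' (e (0, z - yy))| := abs_add_le _ _
      _ ≤ 2 * δ * ‖F‖ := by linarith
  have h6 := near f (tw.j M' X4) (2 * δ) (by linarith) h5
  have h7 : |f (tw.j M' X4)| ≤ Metric.infDist f (Γ : Set (StrongDual ℝ E)) * (2 + 2 * δ)
      + 4 * δ * ‖f‖ := by
    have := mul_le_mul_of_nonneg_left h4 hD0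
    linarith
  have h8 : f (tw.j M' X2) = f (tw.j M' X3) + r * f (tw.j M' X4) := by
    rw [hX, map_add, map_smul, map_add, map_smul, smul_eq_mul]
  rw [h8]
  calc |f (tw.j M' X3) + r * f (tw.j M' X4)| ≤ |f (tw.j M' X3)| + |r * f (tw.j M' X4)| :=
        abs_add_le _ _
    _ = |f (tw.j M' X3)| + r * |f (tw.j M' X4)| := by rw [abs_mul, abs_of_pos hr0]
    _ ≤ _ := caseOne_arith ‖f‖ _ r δ _ _ (norm_nonneg _) hD0 hDf hr0 hr1 hδ h3 h7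

theorem caseOne_norm0 {Y : Type} [NormedAddCommGroup Y] [NormedSpace ℝ Y] {E0 : Type}
    [NormedAddCommGroup E0] [NormedSpace ℝ E0] {E : Type} [NormedAddCommGroup E]
    [NormedSpace ℝ E] (N : Seminorm ℝ Y) (hN : ∀ y, ‖y‖ ≤ N y) (r : ℝ) (hr0 : 0 < r) (hr1 : r ≤ 1)
    (e : (ℝ × Y) ≃L[ℝ] E0) (H : ℕ → Submodule ℝ Y) {c : ℝ} (hc : 0 ≤ c)
    (tw : Tower E0 (Gs e H) c E) (M : ℕ) (Γ : Submodule ℝ (StrongDual ℝ E)) (s δ : ℝ)
    (hδ : 0 ≤ δ) (hδ1 : δ ≤ 1) (M' : ℕ) (T : Y →L[ℝ] Y) (st : Setup N e H tw M Γ s δ M' T)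
    (hmem : ∀ n a y, e (a, y) ∈ Gs e H n ↔ y ∈ H n)
    (hS : ∀ F ∈ Γ, ∃ F', Supp tw M F F')
    (near : ∀ (f : StrongDual ℝ E) (h : E) (κ : ℝ), 0 ≤ κ → (∀ F ∈ Γ, |F h| ≤ κ * ‖F‖) →
      |f h| ≤ Metric.infDist f (Γ : Set (StrongDual ℝ E)) * ‖h‖ + 2 * κ * ‖f‖)
    (b3 : ∀ y, ‖e (0, y)‖ = ‖y‖)
    (b5 : ∀ a y z, N z ≤ 1 → ‖e (a, y)‖ ≤ |a| + ‖y - (a * r) • z‖)
    (b6 : ∀ a y η, 0 < η → ∃ z, N z ≤ 1 ∧ |a| + ‖y - (a * r) • z‖ ≤ ‖e (a, y)‖ + η)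
    (U : E →L[ℝ] E) (hU : IsU e H tw M M' T 0 U) (f : StrongDual ℝ E) :
    ‖f.comp U‖ ≤ (1 + c) * (‖f‖ * (1 + 9 * δ) +
      2 * r * Metric.infDist f (Γ : Set (StrongDual ℝ E))) := by
  have hD0 : 0 ≤ Metric.infDist f (Γ : Set (StrongDual ℝ E)) := Metric.infDist_nonneg
  set C : ℝ := ‖f‖ * (1 + 9 * δ) + 2 * r * Metric.infDist f (Γ : Set (StrongDual ℝ E)) with hC
  have hf0 : 0 ≤ ‖f‖ := norm_nonneg f
  have hrD : 0 ≤ 2 * r * Metric.infDist f (Γ : Set (StrongDual ℝ E)) := by positivity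
  have hfδ : 0 ≤ ‖f‖ * δ := mul_nonneg hf0 hδ
  have hC1 : (1 + δ) * ‖f‖ ≤ C := by
    rw [hC]; nlinarith
  have hC2 : ‖f‖ ≤ C := by
    rw [hC]; nlinarith
  have hC0 : 0 ≤ C := hf0.trans hC2
  apply ContinuousLinearMap.opNorm_le_bound _ (mul_nonneg (by linarith) hC0)
  intro g
  obtain ⟨x, hx, hUg⟩ := hU g
  have hcomp : f.comp U g = f (tw.P M g) + f (tw.j M' x) := by
    rw [ContinuousLinearMap.comp_apply, hUg, map_add]
  set d : E0 := tw.L (g - tw.P M g) with hd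
  set a : ℝ := (e.symm d).1 with ha
  set y : Y := (e.symm d).2 with hy
  have hde : e (a, y) = d := by
    rw [ha, hy]
    exact e.apply_symm_apply d
  rw [sub_zero, one_mul] at hx
  have key : |f (tw.j M' x)| ≤ C * ‖d‖ := by
    apply le_of_forall_pos_le_add
    intro ε hε
    have hη : 0 < ε / (C + 1) := div_pos hε (by linarith)
    obtain ⟨z, hz, hz2⟩ := b6 a y (ε / (C + 1)) hη
    rw [hde] at hz2
    set w : Y := y - (a * r) • z with hw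
    let X1 : Gs e H M' := ⟨e (0, T w), (hmem _ _ _).2 (st.mem w)⟩
    let X2 : Gs e H M' := ⟨e (1, r • T z), (hmem _ _ _).2 ((H M').smul_mem r (st.mem z))⟩
    have hxx : x = X1 + a • X2 := by
      apply Subtype.ext
      rw [hx]
      show e (a, T y) = e (0, T w) + a • e (1, r • T z)
      rw [← map_smul e a ((1 : ℝ), r • T z), ← map_add]
      congr 1
      rw [Prod.smul_mk, Prod.mk_add_mk, smul_eq_mul, mul_one, zero_add, hw, map_sub, map_smul,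
        smul_smul, sub_add_cancel]
    have h1 : |f (tw.j M' X1)| ≤ (1 + δ) * ‖f‖ * ‖w‖ := by
      have h11 : ‖X1‖ ≤ (1 + δ) * ‖w‖ := by
        calc ‖X1‖ = ‖e (0, T w)‖ := rfl
          _ = ‖T w‖ := b3 _
          _ ≤ ‖T‖ * ‖w‖ := T.le_opNorm w
          _ ≤ (1 + δ) * ‖w‖ := mul_le_mul_of_nonneg_right st.norm (norm_nonneg _)
      calc |f (tw.j M' X1)| ≤ ‖f‖ * ‖tw.j M' X1‖ := f.le_opNorm _
        _ ≤ ‖f‖ * ((1 + δ) * ‖w‖) :=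
          mul_le_mul_of_nonneg_left ((tw.j_norm M' X1).trans h11) hf0
        _ = (1 + δ) * ‖f‖ * ‖w‖ := by ring
    have h2 : |f (tw.j M' X2)| ≤ C :=
      caseOne_x2 N hN r hr0 hr1 e H tw M Γ s δ hδ M' T st hmem hS near b3 b5 f z hz X2 rfl
    have h3 : f (tw.j M' x) = f (tw.j M' X1) + a * f (tw.j M' X2) := by
      rw [hxx, map_add, map_smul, map_add, map_smul, smul_eq_mul]
    have h4 : (1 + δ) * ‖f‖ * ‖w‖ ≤ C * ‖w‖ := mul_le_mul_of_nonneg_right hC1 (norm_nonneg _)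
    have h5 : |a| * |f (tw.j M' X2)| ≤ |a| * C := mul_le_mul_of_nonneg_left h2 (abs_nonneg _)
    have h6 : C * (|a| + ‖w‖) ≤ C * (‖d‖ + ε / (C + 1)) := mul_le_mul_of_nonneg_left hz2 hC0
    have h7 : C * (ε / (C + 1)) ≤ ε := by
      rw [mul_div_assoc', div_le_iff₀ (by linarith)]
      nlinarith
    calc |f (tw.j M' x)| = |f (tw.j M' X1) + a * f (tw.j M' X2)| := by rw [h3]
      _ ≤ |f (tw.j M' X1)| + |a * f (tw.j M' X2)| := abs_add_le _ _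
      _ = |f (tw.j M' X1)| + |a| * |f (tw.j M' X2)| := by rw [abs_mul]
      _ ≤ C * ‖d‖ + ε := by linarith
  have hm := tw.main M g
  rw [← hd] at hm
  have h8 : |f (tw.P M g)| ≤ C * ‖tw.P M g‖ :=
    (f.le_opNorm _).trans (mul_le_mul_of_nonneg_right hC2 (norm_nonneg _))
  have h9 : C * (‖tw.P M g‖ + ‖d‖) ≤ C * ((1 + c) * ‖g‖) := mul_le_mul_of_nonneg_left hm hC0
  rw [hcomp, Real.norm_eq_abs]
  calc |f (tw.P M g) + f (tw.j M' x)| ≤ |f (tw.P M g)| + |f (tw.j M' x)| := abs_add_le _ _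
    _ ≤ (1 + c) * C * ‖g‖ := by linarith

end JK3

end Pool.Agent.Helper130.DL
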