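import Mathlib
import Pool.Agent.Helper130.DL.AuxDefs


set_option autoImplicit false

namespace Pool.Agent.Helper130.DL

open Filter Topology

namespace JK4

/-- the key norm estimate -/
theorem k4_N {Y : Type} [NormedAddCommGroup Y] [NormedSpace ℝ Y] {E0 : Type}
    [NormedAddCommGroup E0] [NormedSpace ℝ E0] (N : Seminorm ℝ Y) (hN : ∀ y, ‖y‖ ≤ N y) (r : ℝ)
    (hr0 : 0 < r) (hr1 : r ≤ 1 / 4) (e : (ℝ × Y) ≃L[ℝ] E0)
    (b6 : ∀ a y η, 0 < η → ∃ z, N z ≤ 1 ∧ |a| + ‖y - (a * r) • z‖ ≤ ‖e (a, y)‖ + η)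
    (C : ℝ) (y0 : Y) (h4 : C + ‖e (1, y0)‖ ≤ 5 / 4) (a : ℝ) (y : Y) :
    |a| * C + ‖y - a • y0‖ ≤ ‖e (a, y)‖ := by
  apply le_of_forall_pos_le_add
  intro ε hε
  have ha : 0 < 1 + |a| := by positivity
  obtain ⟨z, hz1, hz2⟩ := b6 a y (ε / (1 + |a|)) (div_pos hε ha)
  obtain ⟨z0, hz01, hz02⟩ := b6 1 y0 (ε / (1 + |a|)) (div_pos hε ha)
  rw [one_mul, abs_one] at hz02
  have hzn : ‖z‖ ≤ 1 := (hN z).trans hz1
  have hz0n : ‖z0‖ ≤ 1 := (hN z0).trans hz01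
  have hdec : y - a • y0 = (y - (a * r) • z) - a • (y0 - r • z0) + (a * r) • (z - z0) := by
    module
  have h1 : ‖y - a • y0‖ ≤ ‖y - (a * r) • z‖ + |a| * ‖y0 - r • z0‖ + |a| * r * 2 := by
    rw [hdec]
    refine (norm_add_le _ _).trans ?_
    have e1 : ‖(y - (a * r) • z) - a • (y0 - r • z0)‖ ≤ ‖y - (a * r) • z‖ + |a| * ‖y0 - r • z0‖ := by
      refine (norm_sub_le _ _).trans ?_
      rw [norm_smul, Real.norm_eq_abs]
    have e2 : ‖(a * r) • (z - z0)‖ ≤ |a| * r * 2 := by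
      rw [norm_smul, Real.norm_eq_abs, abs_mul, abs_of_pos hr0]
      have : ‖z - z0‖ ≤ 2 := (norm_sub_le _ _).trans (by linarith)
      have hh : 0 ≤ |a| * r := by positivity
      exact mul_le_mul_of_nonneg_left this hh
    linarith
  have h2 : |a| * ‖y0 - r • z0‖ ≤ |a| * (‖e (1, y0)‖ + ε / (1 + |a|) - 1) :=
    mul_le_mul_of_nonneg_left (by linarith) (abs_nonneg a)
  have h3 : ε / (1 + |a|) * (1 + |a|) = ε := div_mul_cancel₀ ε ha.ne'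
  have h5 : |a| * (C + ‖e (1, y0)‖) ≤ |a| * (5 / 4) := mul_le_mul_of_nonneg_left h4 (abs_nonneg a)
  have h6 : |a| * r ≤ |a| * (1 / 4) := mul_le_mul_of_nonneg_left hr1 (abs_nonneg a)
  have h7 := abs_nonneg a
  nlinarith

theorem caseTwo {Y : Type} [NormedAddCommGroup Y] [NormedSpace ℝ Y] {E0 : Type}
    [NormedAddCommGroup E0] [NormedSpace ℝ E0] {E : Type} [NormedAddCommGroup E]
    [NormedSpace ℝ E] (N : Seminorm ℝ Y) (hN : ∀ y, ‖y‖ ≤ N y) (r : ℝ) (hr0 : 0 < r)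
    (hr1 : r ≤ 1 / 4)
    (e : (ℝ × Y) ≃L[ℝ] E0) (H : ℕ → Submodule ℝ Y) {c : ℝ} (hc : 0 ≤ c) (hc1 : c ≤ 1)
    (tw : Tower E0 (Gs e H) c E) (M : ℕ) (Γ : Submodule ℝ (StrongDual ℝ E)) (s δ : ℝ)
    (hδ : 0 ≤ δ) (hδ1 : δ ≤ 1) (M' : ℕ) (T : Y →L[ℝ] Y) (st : Setup N e H tw M Γ s δ M' T)
    (hfd : FiniteDimensional ℝ (Gs e H M'))
    (hmem : ∀ n a y, e (a, y) ∈ Gs e H n ↔ y ∈ H n)
    (hS : ∀ F ∈ Γ, ∃ F', Supp tw M F F')
    (b3 : ∀ y, ‖e (0, y)‖ = ‖y‖)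
    (b4 : ∀ a y, |a| ≤ ‖e (a, y)‖ ∧ ‖y‖ ≤ ‖e (a, y)‖)
    (b6 : ∀ a y η, 0 < η → ∃ z, N z ≤ 1 ∧ |a| + ‖y - (a * r) • z‖ ≤ ‖e (a, y)‖ + η)
    (c0 : E) (d0 : E0) (h1 : tw.P M c0 = c0)
    (h2 : ∀ F ∈ Γ, ∀ F', Supp tw M F F' → F c0 + F' d0 = 0) (h3 : (e.symm d0).1 = 1)
    (h4 : ‖c0‖ + ‖d0‖ ≤ 5 / 4) :
    ∃ U : E →L[ℝ] E, FiniteDimensional ℝ (LinearMap.range (U : E →ₗ[ℝ] E)) ∧
      ‖U‖ ≤ (1 + δ) * (1 + c) ∧ (∀ F ∈ Γ, ‖F.comp U - F‖ ≤ 5 * δ * ‖F‖) ∧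
      (∀ g, ‖U g - tw.P M g‖ ≤ 10 * ‖tw.L (g - tw.P M g)‖) := by
  set y0 : Y := (e.symm d0).2 with hy0
  have hd0 : e (1, y0) = d0 := by
    have : ((1 : ℝ), y0) = e.symm d0 := by
      rw [← h3]
    rw [this, e.apply_symm_apply]
  let Dm : E →L[ℝ] E0 := tw.L.comp (ContinuousLinearMap.id ℝ E - tw.P M)
  let Am : E →L[ℝ] ℝ := (ContinuousLinearMap.fst ℝ ℝ Y).comp ((e.symm : E0 →L[ℝ] ℝ × Y).comp Dm)
  let Ym : E →L[ℝ] Y := (ContinuousLinearMap.snd ℝ ℝ Y).comp ((e.symm : E0 →L[ℝ] ℝ × Y).comp Dm)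
    - Am.smulRight y0
  have hWmem : ∀ y, ((e : (ℝ × Y) →L[ℝ] E0).comp ((ContinuousLinearMap.inr ℝ ℝ Y).comp T)) y
      ∈ Gs e H M' := fun y => (hmem M' 0 (T y)).mpr (st.mem y)
  let Wm : Y →L[ℝ] Gs e H M' :=
    ((e : (ℝ × Y) →L[ℝ] E0).comp ((ContinuousLinearMap.inr ℝ ℝ Y).comp T)).codRestrict
      (Gs e H M') hWmem
  let U : E →L[ℝ] E := tw.P M - Am.smulRight c0 + (tw.j M').comp (Wm.comp Ym)
  have hDm : ∀ g, Dm g = tw.L (g - tw.P M g) := fun g => rfl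
  have hsplit : ∀ g, e (Am g, (e.symm (Dm g)).2) = Dm g := by
    intro g
    have : (Am g, (e.symm (Dm g)).2) = e.symm (Dm g) := rfl
    rw [this, e.apply_symm_apply]
  have hYm : ∀ g, Ym g = (e.symm (Dm g)).2 - Am g • y0 := fun g => rfl
  have hU : ∀ g, U g = tw.P M g - Am g • c0 + tw.j M' (Wm (Ym g)) := fun g => rfl
  have hWv : ∀ y, ((Wm y : Gs e H M') : E0) = e (0, T y) := fun y => rfl
  have hWn : ∀ y, ‖tw.j M' (Wm y)‖ ≤ (1 + δ) * ‖y‖ := by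
    intro y
    refine (tw.j_norm M' _).trans ?_
    have : ‖Wm y‖ = ‖T y‖ := by
      rw [← b3 (T y), ← hWv y]
      rfl
    rw [this]
    exact (T.le_opNorm y).trans (mul_le_mul_of_nonneg_right st.norm (norm_nonneg y))
  have hkey : ∀ g, |Am g| * ‖c0‖ + ‖Ym g‖ ≤ ‖Dm g‖ := by
    intro g
    have := k4_N N hN r hr0 hr1 e b6 ‖c0‖ y0 (by rw [hd0]; exact h4) (Am g) (e.symm (Dm g)).2
    rw [hsplit g, ← hYm g] at this
    exact this
  have hmain : ∀ g, ‖tw.P M g‖ + ‖Dm g‖ ≤ (1 + c) * ‖g‖ := fun g => tw.main M g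
  have hdiff : ∀ g, ‖U g - tw.P M g‖ ≤ |Am g| * ‖c0‖ + (1 + δ) * ‖Ym g‖ := by
    intro g
    have : U g - tw.P M g = - (Am g • c0) + tw.j M' (Wm (Ym g)) := by
      rw [hU]; abel
    rw [this]
    refine (norm_add_le _ _).trans ?_
    rw [norm_neg, norm_smul, Real.norm_eq_abs]
    have := hWn (Ym g)
    linarith
  refine ⟨U, ?_, ?_, ?_, ?_⟩
  · have hP := tw.fin M
    have hle : LinearMap.range (U : E →ₗ[ℝ] E) ≤
        (LinearMap.range (tw.P M : E →ₗ[ℝ] E) ⊔ Submodule.span ℝ {c0}) ⊔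
          LinearMap.range (tw.j M' : Gs e H M' →ₗ[ℝ] E) := by
      rintro _ ⟨g, rfl⟩
      have : (U : E →ₗ[ℝ] E) g = (tw.P M g - Am g • c0) + tw.j M' (Wm (Ym g)) := rfl
      rw [this]
      apply Submodule.add_mem
      · apply Submodule.mem_sup_left
        apply Submodule.sub_mem
        · exact Submodule.mem_sup_left ⟨g, rfl⟩
        · exact Submodule.mem_sup_right
            (Submodule.smul_mem _ _ (Submodule.mem_span_singleton_self c0))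
      · exact Submodule.mem_sup_right ⟨Wm (Ym g), rfl⟩
    exact Submodule.finiteDimensional_of_le hle
  · apply ContinuousLinearMap.opNorm_le_bound _ (by positivity)
    intro g
    have e1 : ‖U g‖ ≤ ‖tw.P M g‖ + ‖U g - tw.P M g‖ := by
      have : U g = tw.P M g + (U g - tw.P M g) := by abel
      calc ‖U g‖ = ‖tw.P M g + (U g - tw.P M g)‖ := by rw [← this]
        _ ≤ _ := norm_add_le _ _
    have e2 := hdiff g
    have e3 := hkey g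
    have e4 := hmain g
    have e5 : 0 ≤ |Am g| * ‖c0‖ := by positivity
    have e6 := norm_nonneg (tw.P M g)
    have e7 : |Am g| * ‖c0‖ + (1 + δ) * ‖Ym g‖ ≤ (1 + δ) * ‖Dm g‖ := by nlinarith
    have e8 : ‖U g‖ ≤ (1 + δ) * (‖tw.P M g‖ + ‖Dm g‖) := by nlinarith
    calc ‖U g‖ ≤ (1 + δ) * (‖tw.P M g‖ + ‖Dm g‖) := e8
      _ ≤ (1 + δ) * ((1 + c) * ‖g‖) := mul_le_mul_of_nonneg_left e4 (by linarith)
      _ = (1 + δ) * (1 + c) * ‖g‖ := by ring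
  · intro F hF
    obtain ⟨F', hF'⟩ := hS F hF
    apply ContinuousLinearMap.opNorm_le_bound _ (by positivity)
    intro g
    have e1 : F (tw.j M' (Wm (Ym g))) = F' (e (0, T (Ym g))) := by
      have := hF' (tw.j M' (Wm (Ym g)))
      rw [tw.P_j M M' _ st.lt, map_zero, zero_add, sub_zero, tw.L_j, hWv] at this
      exact this
    have e2 : F g = F (tw.P M g) + F' (Dm g) := hF' g
    have e3 := h2 F hF F' hF'
    have e4 : Dm g = e (0, Ym g) + Am g • d0 := by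
      rw [← hd0, ← map_smul, ← map_add]
      conv_lhs => rw [← hsplit g]
      congr 1
      rw [hYm, Prod.smul_mk, Prod.mk_add_mk]
      simp
    have e5 : (F.comp U - F) g = F' (e (0, T (Ym g) - Ym g)) := by
      have e6 : (F.comp U - F) g = F (U g) - F g := rfl
      rw [e6, hU, map_add, map_sub, map_smul, e1, e2, e4, map_add, map_smul]
      have e7 : e (0, T (Ym g) - Ym g) = e (0, T (Ym g)) - e (0, Ym g) := by
        rw [← map_sub]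
        congr 1
        simp
      rw [e7, map_sub, smul_eq_mul, smul_eq_mul]
      linear_combination (-(Am g)) * e3
    rw [e5, Real.norm_eq_abs]
    refine (st.close F hF F' hF' (Ym g)).trans ?_
    have e8 := hkey g
    have e9 := hmain g
    have e10 : 0 ≤ |Am g| * ‖c0‖ := by positivity
    have e11 := norm_nonneg (tw.P M g)
    have e12 : (1 + c) * ‖g‖ ≤ 2 * ‖g‖ := mul_le_mul_of_nonneg_right (by linarith) (norm_nonneg g)
    have e13 : ‖Ym g‖ ≤ 5 * ‖g‖ := by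
      have := norm_nonneg g
      linarith
    calc δ * ‖F‖ * ‖Ym g‖ ≤ δ * ‖F‖ * (5 * ‖g‖) := by gcongr
      _ = 5 * δ * ‖F‖ * ‖g‖ := by ring
  · intro g
    have e2 := hdiff g
    have e3 := hkey g
    have e5 : 0 ≤ |Am g| * ‖c0‖ := by positivity
    have e6 := norm_nonneg (Ym g)
    have e7 := norm_nonneg (Dm g)
    show ‖U g - tw.P M g‖ ≤ 10 * ‖Dm g‖
    nlinarith


end JK4

end Pool.Agent.Helper130.DL
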