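import Mathlib
import Pool.Agent.Helper130.DL.AuxDefs


set_option autoImplicit false

namespace Pool.Agent.Helper130.DL

open Filter Topology

namespace JNB

theorem num_big (s r b c δ X D Z : ℝ) (hs : 0 < s) (hs1 : s ≤ 1) (hr : 0 < r) (hr1 : r ≤ 1 / 4)
    (hb1 : 1 / 2 ≤ b) (hc : 0 ≤ c) (hc1 : c ≤ s * (r * s) / 1000) (hδ : 0 ≤ δ)
    (hδ1 : δ * (1 + b) ≤ s * (r * s) / 10000) (hD : 0 ≤ D) (hDX : D ≤ X)
    (hZ1 : Z ≤ (1 + c) * max (1 + δ) (1 + r * (s + δ)) * X)
    (hZ2 : Z ≤ (1 + c) * (X * (1 + 9 * δ) + 2 * r * D)) :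
    Z + b * ((1 + δ + 4 / 5 * (r * (s + δ))) * (1 + c) * D + (1 + c) * (2 * δ) * X) ≤
      (1 + (1 - s / 100) * (r * s)) * (X + b * D) := by
  have hX : 0 ≤ X := hD.trans hDX
  obtain ⟨ρ, hρ⟩ : ∃ ρ, ρ = r * s := ⟨_, rfl⟩
  have hρ0 : 0 < ρ := by rw [hρ]; positivity
  have hρ1 : ρ ≤ 1 / 4 := by rw [hρ]; nlinarith
  rw [← hρ] at hc1 hδ1 ⊢
  obtain ⟨w, hw⟩ : ∃ w, w = s * ρ := ⟨_, rfl⟩
  have hw0 : 0 < w := by rw [hw]; positivity
  have hwρ : w ≤ ρ := by rw [hw]; nlinarith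
  rw [← hw] at hc1 hδ1
  have hδb : 0 ≤ δ * b := mul_nonneg hδ (by linarith)
  have hδ2 : δ ≤ w / 15000 := by nlinarith
  have hδ3 : b * δ ≤ w / 10000 := by nlinarith
  have hrs : r * (s + δ) ≤ ρ + δ / 4 := by rw [hρ]; nlinarith
  have hc2 : c ≤ 1 / 4000 := by linarith
  have hδ4 : δ ≤ 1 / 60000 := by linarith
  -- step 1
  have hlam : (1 + δ + 4 / 5 * (r * (s + δ))) * (1 + c) ≤ 1 + 4 / 5 * ρ + 2 * δ + 13 / 10 * c := by
    have h1 : (1 + δ + 4 / 5 * (r * (s + δ))) * (1 + c) ≤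
        (1 + 6 / 5 * δ + 4 / 5 * ρ) * (1 + c) := by
      apply mul_le_mul_of_nonneg_right _ (by linarith)
      linarith
    have h2 : 6 / 5 * δ * c ≤ 1 / 100 * c := by
      apply mul_le_mul_of_nonneg_right _ hc
      linarith
    have h3 : 4 / 5 * ρ * c ≤ 1 / 5 * c := by
      apply mul_le_mul_of_nonneg_right _ hc
      linarith
    nlinarith
  have hlam2 : (1 + δ + 4 / 5 * (r * (s + δ))) * (1 + c) ≤ 1 + (1 - s / 100) * ρ - 18 / 100 * ρ := by
    have : (1 - s / 100) * ρ = ρ - w / 100 := by rw [hw]; ring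
    rw [this]
    linarith
  have h2 : b * ((1 + δ + 4 / 5 * (r * (s + δ))) * (1 + c) * D) ≤
      (1 + (1 - s / 100) * ρ) * (b * D) - 9 / 100 * ρ * D := by
    have h3 : (1 + δ + 4 / 5 * (r * (s + δ))) * (1 + c) * (b * D) ≤
        (1 + (1 - s / 100) * ρ - 18 / 100 * ρ) * (b * D) :=
      mul_le_mul_of_nonneg_right hlam2 (mul_nonneg (by linarith) hD)
    have h4 : 9 / 100 * ρ * D ≤ 18 / 100 * ρ * (b * D) := by
      have : 0 ≤ ρ * D := mul_nonneg hρ0.le hD
      nlinarith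
    nlinarith
  have h3 : b * ((1 + c) * (2 * δ) * X) ≤ 21 / 100000 * w * X := by
    have h4 : b * ((1 + c) * (2 * δ)) ≤ 21 / 100000 * w := by
      have : (1 + c) * (2 * (b * δ)) ≤ (21 / 20) * (2 * (w / 10000)) := by
        apply mul_le_mul (by linarith) (by linarith) (by nlinarith) (by norm_num)
      nlinarith
    calc b * ((1 + c) * (2 * δ) * X) = b * ((1 + c) * (2 * δ)) * X := by ring
      _ ≤ _ := mul_le_mul_of_nonneg_right h4 hX
  have key : Z ≤ (1 + (1 - s / 100) * ρ) * X + 9 / 100 * ρ * D - 21 / 100000 * w * X := by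
    have e1 : (1 + (1 - s / 100) * ρ) * X = X + ρ * X - w * X / 100 := by rw [hw]; ring
    rw [e1]
    rcases le_total (s * X / 2) D with hcase | hcase
    · have hm : max (1 + δ) (1 + r * (s + δ)) ≤ 1 + ρ + δ := by
        apply max_le
        · linarith
        · linarith
      have hZ3 : Z ≤ (1 + c) * (1 + ρ + δ) * X := by
        refine hZ1.trans ?_
        apply mul_le_mul_of_nonneg_right _ hX
        apply mul_le_mul_of_nonneg_left hm (by linarith)
      have hZ4 : (1 + c) * (1 + ρ + δ) * X ≤ (1 + ρ + 2 * δ + 13 / 10 * c) * X := by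
        apply mul_le_mul_of_nonneg_right _ hX
        nlinarith
      have h5 : 9 / 200 * w * X ≤ 9 / 100 * ρ * D := by
        have : ρ * (s * X / 2) ≤ ρ * D := mul_le_mul_of_nonneg_left hcase hρ0.le
        rw [hw]
        nlinarith
      have h6 : (2 * δ + 13 / 10 * c) * X ≤ (2 * (w / 15000) + 13 / 10 * (w / 1000)) * X := by
        apply mul_le_mul_of_nonneg_right _ hX
        linarith
      have h7 : 0 ≤ w * X := mul_nonneg hw0.le hX
      nlinarith
    · obtain ⟨t, ht⟩ : ∃ t, t = 2 * r * D := ⟨_, rfl⟩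
      have ht0 : 0 ≤ t := by rw [ht]; positivity
      have ht1 : t ≤ ρ * X := by
        rw [ht, hρ]
        nlinarith
      have e2 : 9 / 100 * ρ * D = 45 / 1000 * s * t := by rw [ht, hρ]; ring
      rw [e2]
      rw [← ht] at hZ2
      have h5 : (1 + c - 45 / 1000 * s) * t ≤ (1 + c - 45 / 1000 * s) * (ρ * X) :=
        mul_le_mul_of_nonneg_left ht1 (by linarith)
      have h6 : c * (1 + 9 * δ) ≤ 11 / 10 * c := by nlinarith
      have h7 : c * ρ ≤ c := by nlinarith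
      have h8 : (c * (1 + 9 * δ) + 9 * δ + c * ρ) * X ≤
          (11 / 10 * (w / 1000) + 9 * (w / 15000) + w / 1000) * X := by
        apply mul_le_mul_of_nonneg_right _ hX
        linarith
      have h9 : 0 ≤ w * X := mul_nonneg hw0.le hX
      have e3 : s * (ρ * X) = w * X := by rw [hw]; ring
      nlinarith
  have e4 : Z + b * ((1 + δ + 4 / 5 * (r * (s + δ))) * (1 + c) * D + (1 + c) * (2 * δ) * X) =
      Z + b * ((1 + δ + 4 / 5 * (r * (s + δ))) * (1 + c) * D) + b * ((1 + c) * (2 * δ) * X) := by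
    ring
  rw [e4]
  nlinarith

end JNB

end Pool.Agent.Helper130.DL
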