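import Mathlib
import Pool.Agent.Helper130.DL.AuxDefs


set_option autoImplicit false

namespace Pool.Agent.Helper130.DL

open Filter Topology

namespace JNS

theorem num_small (s r b c δ X D : ℝ) (hs : 0 < s) (hs1 : s ≤ 1) (hr : 0 < r) (hr1 : r ≤ 1 / 4)
    (hb : 0 < b) (hb1 : b ≤ 1 / 2) (hc : 0 ≤ c) (hc1 : c ≤ s * (r * s) / 1000) (hδ : 0 ≤ δ)
    (hδ1 : δ ≤ s * (r * s) / 10000) (hD : 0 ≤ D) (hDX : D ≤ X) :
    (1 + c) * max (1 + δ) (1 - s * (r * s) / 10 * (1 - r) + r * (s + δ)) * X +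
      b * ((1 + δ + 4 / 5 * (r * (s + δ))) * (1 + c) * D +
        (1 + c) * (2 * δ + s * (r * s) / 10) * X) ≤
      (1 + (1 - s / 100) * (r * s)) * (X + b * D) := by
  have hX : 0 ≤ X := hD.trans hDX
  obtain ⟨t, ht⟩ : ∃ t, t = s * (r * s) := ⟨_, rfl⟩
  obtain ⟨ρ, hρ⟩ : ∃ ρ, ρ = r * s := ⟨_, rfl⟩
  have hρ0 : 0 < ρ := by rw [hρ]; positivity
  have hρ1 : ρ ≤ 1 / 4 := by rw [hρ]; nlinarith
  have ht0 : 0 < t := by rw [ht]; positivity
  have htρ : t ≤ ρ := by rw [ht, ← hρ]; nlinarith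
  have hrδ : r * δ ≤ δ / 4 := by nlinarith
  have hrδ0 : 0 ≤ r * δ := by positivity
  have e1 : r * (s + δ) = ρ + r * δ := by rw [hρ]; ring
  have e2 : (1 + (1 - s / 100) * (r * s)) = 1 + ρ - t / 100 := by rw [ht, hρ]; ring
  rw [e1, e2]
  rw [← ht] at hc1 hδ1 ⊢
  have hbd : b * (2 * δ + t / 10) ≤ δ + t / 20 := by nlinarith
  have hbd0 : 0 ≤ b * (2 * δ + t / 10) := by positivity
  have hA1 : (1 + c) * (1 + δ) + b * ((1 + c) * (2 * δ + t / 10)) ≤ 1 + ρ - t / 100 := by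
    have h1 : 1 + δ + b * (2 * δ + t / 10) ≤ 1.1 := by nlinarith
    have h2 : c * (1 + δ + b * (2 * δ + t / 10)) ≤ c * 1.1 := mul_le_mul_of_nonneg_left h1 hc
    nlinarith
  have hA2 : (1 + c) * (1 - t / 10 * (1 - r) + (ρ + r * δ)) + b * ((1 + c) * (2 * δ + t / 10)) ≤
      1 + ρ - t / 100 := by
    have h0 : t / 10 * (1 - r) ≥ 3 / 40 * t := by nlinarith
    have h1 : 1 - t / 10 * (1 - r) + (ρ + r * δ) + b * (2 * δ + t / 10) ≤ 1.3 := by nlinarith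
    have h2 : c * (1 - t / 10 * (1 - r) + (ρ + r * δ) + b * (2 * δ + t / 10)) ≤ c * 1.3 :=
      mul_le_mul_of_nonneg_left h1 hc
    nlinarith
  have hB : (1 + δ + 4 / 5 * (ρ + r * δ)) * (1 + c) ≤ 1 + ρ - t / 100 := by
    have h1 : 1 + δ + 4 / 5 * (ρ + r * δ) ≤ 1.3 := by nlinarith
    have h2 : c * (1 + δ + 4 / 5 * (ρ + r * δ)) ≤ c * 1.3 := mul_le_mul_of_nonneg_left h1 hc
    nlinarith
  have hA : (1 + c) * max (1 + δ) (1 - t / 10 * (1 - r) + (ρ + r * δ)) +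
      b * ((1 + c) * (2 * δ + t / 10)) ≤ 1 + ρ - t / 100 := by
    rcases max_cases (1 + δ) (1 - t / 10 * (1 - r) + (ρ + r * δ)) with ⟨h, -⟩ | ⟨h, -⟩
    · rw [h]; exact hA1
    · rw [h]; exact hA2
  have h3 := mul_le_mul_of_nonneg_right hA hX
  have h4 := mul_le_mul_of_nonneg_right hB (mul_nonneg hb.le hD)
  calc (1 + c) * max (1 + δ) (1 - t / 10 * (1 - r) + (ρ + r * δ)) * X +
      b * ((1 + δ + 4 / 5 * (ρ + r * δ)) * (1 + c) * D + (1 + c) * (2 * δ + t / 10) * X)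
      = ((1 + c) * max (1 + δ) (1 - t / 10 * (1 - r) + (ρ + r * δ)) +
      b * ((1 + c) * (2 * δ + t / 10))) * X +
        (1 + δ + 4 / 5 * (ρ + r * δ)) * (1 + c) * (b * D) := by ring
    _ ≤ (1 + ρ - t / 100) * X + (1 + ρ - t / 100) * (b * D) := add_le_add h3 h4
    _ = (1 + ρ - t / 100) * (X + b * D) := by ring

end JNS

end Pool.Agent.Helper130.DL
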