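import Mathlib
import Pool.Agent.Helper130.DL.AuxDefs


set_option autoImplicit false

namespace Pool.Agent.Helper130.DL

open Filter Topology

namespace JPF

/-- the distance comparison -/
theorem infDist_cmp {X : Type} [NormedAddCommGroup X] [NormedSpace ℝ X] (S S' : Set X)
    (h0 : (0 : X) ∈ S) (a : ℝ) (ha : 0 ≤ a)
    (h : ∀ F ∈ S, ∃ F' ∈ S', ‖F' - F‖ ≤ a * ‖F‖) (f : X) :
    Metric.infDist f S' ≤ Metric.infDist f S + 2 * a * ‖f‖ := by
  have h1 : (Metric.infDist f S' - a * ‖f‖) / (1 + a) ≤ Metric.infDist f S := by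
    rw [Metric.le_infDist ⟨0, h0⟩]
    intro F hF
    rw [div_le_iff₀ (by linarith)]
    obtain ⟨F', hF', hn⟩ := h F hF
    have h2 : Metric.infDist f S' ≤ dist f F' := Metric.infDist_le_dist_of_mem hF'
    have h3 : dist f F' ≤ dist f F + ‖F' - F‖ := by
      have := dist_triangle f F F'
      rw [dist_comm F F', dist_eq_norm F' F] at this
      exact this
    have h4 : ‖F‖ ≤ dist f F + ‖f‖ := by
      have := norm_sub_norm_le F f
      rw [dist_comm, dist_eq_norm]
      linarith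
    have h5 : a * ‖F‖ ≤ a * (dist f F + ‖f‖) := mul_le_mul_of_nonneg_left h4 ha
    nlinarith
  have h2 : Metric.infDist f S ≤ ‖f‖ := by
    have := Metric.infDist_le_dist_of_mem (x := f) h0
    rwa [dist_zero_right] at this
  rw [div_le_iff₀ (by linarith)] at h1
  nlinarith [mul_le_mul_of_nonneg_left h2 ha]

theorem basis_data {V : Type} [NormedAddCommGroup V] [NormedSpace ℝ V] (Γ : Submodule ℝ V)
    (hΓ : FiniteDimensional ℝ Γ) : ∃ (k : ℕ) (v : Fin k → V) (cf : Fin k → (Γ →ₗ[ℝ] ℝ)) (C : ℝ), 0 < C ∧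
      (∀ F : Γ, (F : V) = ∑ i, cf i F • v i) ∧ ∀ F : Γ, ∑ i, |cf i F| ≤ C * ‖(F : V)‖ := by
  let b := Module.finBasis ℝ Γ
  have h1 : ∀ i, ∃ c : ℝ, ∀ F : Γ, |b.repr F i| ≤ c * ‖(F : V)‖ := by
    intro i
    let l : Γ →L[ℝ] ℝ := LinearMap.toContinuousLinearMap (b.coord i)
    exact ⟨‖l‖, fun F => l.le_opNorm F⟩
  choose cc hcc using h1
  refine ⟨Module.finrank ℝ Γ, fun i => (b i : V), fun i => b.coord i, ∑ i, |cc i| + 1, by positivity, ?_, ?_⟩
  · intro F
    have := b.sum_repr F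
    have h2 := congrArg (fun x : Γ => (x : V)) this
    simp only [Submodule.coe_sum, Submodule.coe_smul] at h2
    exact h2.symm
  · intro F
    have h2 : ∑ i, |b.coord i F| ≤ ∑ i, |cc i| * ‖(F : V)‖ := by
      apply Finset.sum_le_sum
      intro i _
      exact (hcc i F).trans (mul_le_mul_of_nonneg_right (le_abs_self _) (norm_nonneg _))
    rw [← Finset.sum_mul] at h2
    nlinarith [norm_nonneg (F : V)]

theorem perturb {E0 : Type} [NormedAddCommGroup E0] [NormedSpace ℝ E0]
    {G : ℕ → Submodule ℝ E0} {c : ℝ} {E : Type} [NormedAddCommGroup E] [NormedSpace ℝ E]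
    (tw : Tower E0 G c E) (Γ : Submodule ℝ (StrongDual ℝ E)) (hΓ : FiniteDimensional ℝ Γ)
    (β : ℝ) (hβ : 0 < β) (η : ℝ) (hη : 0 < η) :
    ∃ M0, ∀ M ≥ M0, ∃ Γ' : Submodule ℝ (StrongDual ℝ E), FiniteDimensional ℝ Γ' ∧
      (∀ F ∈ Γ', ∃ F', Supp tw M F F') ∧
      ∀ f, dualN Γ' β f ≤ (1 + η) * dualN Γ β f ∧ dualN Γ β f ≤ (1 + η) * dualN Γ' β f := by
  classical
  obtain ⟨k, v, cf, C, hC0, hF, hC⟩ := basis_data Γ hΓ
  choose D hD using tw.dual
  let B : Γ → StrongDual ℝ E0 := fun F => ∑ i, cf i F • D (v i)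
  have hB : ∀ F : Γ, B F = ∑ i, cf i F • D (v i) := fun F => rfl
  let Q : ℕ → E →L[ℝ] E0 := fun M => tw.L ∘L (ContinuousLinearMap.id ℝ E - tw.P M)
  have hQ : ∀ M g, Q M g = tw.L (g - tw.P M g) := fun M g => rfl
  have hBadd : ∀ F F1, B (F + F1) = B F + B F1 := by
    intro F F1
    simp only [B, map_add, add_smul, Finset.sum_add_distrib]
  have hBsmul : ∀ (r : ℝ) F, B (r • F) = r • B F := by
    intro r F
    simp only [B, map_smul, Finset.smul_sum, smul_eq_mul, mul_smul]
  let A : ℕ → Γ →ₗ[ℝ] StrongDual ℝ E := fun M =>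
    { toFun := fun F => (F : StrongDual ℝ E).comp (tw.P M) + (B F).comp (Q M)
      map_add' := by
        intro F F1
        rw [hBadd]
        ext g
        simp only [Submodule.coe_add, add_apply, ContinuousLinearMap.comp_apply]
        ring
      map_smul' := by
        intro r F
        rw [hBsmul]
        ext g
        simp only [Submodule.coe_smul, add_apply, RingHom.id_apply,
          ContinuousLinearMap.comp_apply, smul_apply, smul_eq_mul]
        ring }
  have hA : ∀ M (F : Γ) g, A M F g = (F : StrongDual ℝ E) (tw.P M g) + B F (tw.L (g - tw.P M g)) :=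
    fun M F g => rfl
  set ε : ℝ := min (1 / 2) (η / (16 * β)) with hε
  have hεpos : 0 < ε := lt_min (by norm_num) (by positivity)
  have hε1 : ε ≤ 1 / 2 := min_le_left _ _
  have hε2 : 16 * β * ε ≤ η := by
    have : ε ≤ η / (16 * β) := min_le_right _ _
    rw [le_div_iff₀ (by positivity)] at this
    linarith
  have hMi : ∀ i : Fin k, ∃ M0, ∀ M ≥ M0, ∀ g, |v i g - v i (tw.P M g)
      - D (v i) (tw.L (g - tw.P M g))| ≤ (ε / C) * ‖g‖ := by
    intro i
    exact hD _ _ (by positivity)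
  choose Mi hMi using hMi
  refine ⟨Finset.univ.sup Mi, ?_⟩
  intro M hM
  have hclose : ∀ F : Γ, ‖A M F - (F : StrongDual ℝ E)‖ ≤ ε * ‖(F : StrongDual ℝ E)‖ := by
    intro F
    apply ContinuousLinearMap.opNorm_le_bound _ (by positivity)
    intro g
    have h1 : (A M F - (F : StrongDual ℝ E)) g = - ∑ i, cf i F * (v i g
        - v i (tw.P M g) - D (v i) (tw.L (g - tw.P M g))) := by
      rw [sub_apply, hA, hB]
      have h2 : ∀ x, (F : StrongDual ℝ E) x = ∑ i, cf i F * v i x := by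
        intro x
        conv_lhs => rw [hF F]
        rw [sum_apply]
        rfl
      rw [h2 g, h2 (tw.P M g), sum_apply]
      simp only [smul_apply, smul_eq_mul, mul_sub, Finset.sum_sub_distrib]
      ring
    rw [h1, norm_neg, Real.norm_eq_abs]
    refine (Finset.abs_sum_le_sum_abs _ _).trans ?_
    have h3 : ∑ i, |cf i F * (v i g
        - v i (tw.P M g) - D (v i) (tw.L (g - tw.P M g)))| ≤
        ∑ i, |cf i F| * ((ε / C) * ‖g‖) := by
      apply Finset.sum_le_sum
      intro i _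
      rw [abs_mul]
      exact mul_le_mul_of_nonneg_left (hMi i M (le_trans (Finset.le_sup (Finset.mem_univ i)) hM) g) (abs_nonneg _)
    refine h3.trans ?_
    rw [← Finset.sum_mul]
    have h4 := mul_le_mul_of_nonneg_right (hC F) (by positivity : 0 ≤ (ε / C) * ‖g‖)
    refine h4.trans (le_of_eq ?_)
    field_simp
  refine ⟨LinearMap.range (A M), inferInstance, ?_, ?_⟩
  · rintro _ ⟨F, rfl⟩
    refine ⟨B F, ?_⟩
    intro g
    rw [hA, hA, tw.idem, sub_self, map_zero, map_zero, add_zero]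
  · intro f
    have hc1 : Metric.infDist f (LinearMap.range (A M) : Set (StrongDual ℝ E)) ≤
        Metric.infDist f (Γ : Set (StrongDual ℝ E)) + 2 * ε * ‖f‖ := by
      apply infDist_cmp _ _ Γ.zero_mem ε hεpos.le
      intro F hF
      exact ⟨A M ⟨F, hF⟩, ⟨⟨F, hF⟩, rfl⟩, hclose ⟨F, hF⟩⟩
    have hc2 : Metric.infDist f (Γ : Set (StrongDual ℝ E)) ≤
        Metric.infDist f (LinearMap.range (A M) : Set (StrongDual ℝ E)) + 2 * (2 * ε) * ‖f‖ := by
      apply infDist_cmp _ _ (Submodule.zero_mem _) (2 * ε) (by linarith)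
      rintro _ ⟨F, rfl⟩
      refine ⟨F, F.2, ?_⟩
      have h1 := hclose F
      rw [norm_sub_rev]
      have h2 : ‖(F : StrongDual ℝ E)‖ ≤ ‖A M F‖ + ‖A M F - (F : StrongDual ℝ E)‖ := by
        have := norm_sub_norm_le (F : StrongDual ℝ E) (A M F)
        rw [norm_sub_rev] at this
        linarith
      have h3 : ‖(F : StrongDual ℝ E)‖ ≤ 2 * ‖A M F‖ := by
        nlinarith [norm_nonneg (F : StrongDual ℝ E)]
      nlinarith
    have hd1 : 0 ≤ Metric.infDist f (Γ : Set (StrongDual ℝ E)) := Metric.infDist_nonneg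
    have hd2 : 0 ≤ Metric.infDist f (LinearMap.range (A M) : Set (StrongDual ℝ E)) := Metric.infDist_nonneg
    have hn := norm_nonneg f
    unfold dualN
    constructor
    · have h1 : 4 * β * (2 * ε * ‖f‖) ≤ η * ‖f‖ := by
        have : 8 * β * ε ≤ η := by nlinarith
        nlinarith
      have h2 := mul_le_mul_of_nonneg_left hc1 (by positivity : 0 ≤ 4 * β)
      have h3 : 0 ≤ η * (4 * β * Metric.infDist f (Γ : Set (StrongDual ℝ E))) := by positivity
      nlinarith
    · have h1 : 4 * β * (2 * (2 * ε) * ‖f‖) ≤ η * ‖f‖ := by nlinarith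
      have h2 := mul_le_mul_of_nonneg_left hc2 (by positivity : 0 ≤ 4 * β)
      have h3 : 0 ≤ η * (4 * β * Metric.infDist f (LinearMap.range (A M) : Set (StrongDual ℝ E))) := by positivity
      nlinarith

end JPF

end Pool.Agent.Helper130.DL
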