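import Mathlib
import Pool.Agent.Helper130.DL.AuxDefs


set_option autoImplicit false

namespace Pool.Agent.Helper130.DL

open Filter Topology

namespace JPK

theorem unif_compact {E0 : Type} [NormedAddCommGroup E0] [NormedSpace ℝ E0]
    {G : ℕ → Submodule ℝ E0} {c : ℝ} (hc : 0 ≤ c) {E : Type} [NormedAddCommGroup E]
    [NormedSpace ℝ E] (tw : Tower E0 G c E) (K : Set E) (hK : IsCompact K) (ε : ℝ) (hε : 0 < ε) :
    ∃ M0, ∀ M ≥ M0, ∀ g ∈ K, ‖tw.P M g - g‖ ≤ ε := by
  have h2c : 0 < 2 + c := by linarith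
  obtain ⟨t, ht, htK⟩ := Metric.totallyBounded_iff.1 hK.totallyBounded (ε / (2 * (2 + c)))
    (by positivity)
  have hev : ∀ᶠ M in atTop, ∀ g' ∈ t, ‖tw.P M g' - g'‖ < ε / 2 := by
    rw [Filter.eventually_all_finite ht]
    intro g' _
    have := (tw.P_lim g')
    rw [Metric.tendsto_nhds] at this
    filter_upwards [this (ε / 2) (half_pos hε)] with M hM
    rwa [dist_eq_norm] at hM
  obtain ⟨M0, hM0⟩ := Filter.eventually_atTop.1 hev
  refine ⟨M0, fun M hM g hg => ?_⟩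
  have hg' := htK hg
  simp only [Set.mem_iUnion, Metric.mem_ball, exists_prop] at hg'
  obtain ⟨g', hg't, hd⟩ := hg'
  have h1 := hM0 M hM g' hg't
  have h2 : ‖tw.P M (g - g')‖ ≤ (1 + c) * ‖g - g'‖ :=
    le_trans (le_add_of_nonneg_right (norm_nonneg _)) (tw.main M (g - g'))
  rw [dist_eq_norm] at hd
  have h3 : tw.P M g - g = tw.P M (g - g') + (tw.P M g' - g') - (g - g') := by
    rw [map_sub]; abel
  rw [h3]
  have h4 := norm_sub_le (tw.P M (g - g') + (tw.P M g' - g')) (g - g')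
  have h5 := norm_add_le (tw.P M (g - g')) (tw.P M g' - g')
  have h6 : (2 + c) * ‖g - g'‖ ≤ ε / 2 := by
    have : (2 + c) * ‖g - g'‖ ≤ (2 + c) * (ε / (2 * (2 + c))) := by gcongr
    have h7 : (2 + c) * (ε / (2 * (2 + c))) = ε / 2 := by field_simp
    linarith
  nlinarith

end JPK

end Pool.Agent.Helper130.DL
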