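import Mathlib
import Pool.Agent.Helper130.DL.AuxDefs


set_option autoImplicit false

namespace Pool.Agent.Helper130.DL

open Filter Topology

namespace JR1

theorem LAP_of {E : Type} [NormedAddCommGroup E] [NormedSpace ℝ E]
    (Γ : Submodule ℝ (StrongDual ℝ E)) (β : ℝ) (hβ : 0 < β) (lam : ℝ) (hlam : 0 < lam)
    (h : ∀ K : Set E, IsCompact K → ∀ ε : ℝ, 0 < ε → ∃ u : E →L[ℝ] E,
      FiniteDimensional ℝ (LinearMap.range (u : E →ₗ[ℝ] E)) ∧
      (∀ f, dualN Γ β (f.comp u) ≤ lam * dualN Γ β f) ∧ ∀ g ∈ K, ‖u g - g‖ < ε) :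
    HasLAP E (preN Γ β) lam := by
  have hd0 : ∀ f : StrongDual ℝ E, ‖f‖ ≤ dualN Γ β f := by
    intro f
    unfold dualN
    have := Metric.infDist_nonneg (x := f) (s := (Γ : Set (StrongDual ℝ E)))
    nlinarith
  have hbd : ∀ x : E, ∀ t ∈ {t : ℝ | ∃ f : StrongDual ℝ E, dualN Γ β f ≤ 1 ∧ t = |f x|}, t ≤ ‖x‖ := by
    rintro x t ⟨f, hf, rfl⟩
    have h1 := f.le_opNorm x
    rw [Real.norm_eq_abs] at h1
    have h2 := (hd0 f).trans hf
    nlinarith [norm_nonneg x]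
  have hne : ∀ x : E, {t : ℝ | ∃ f : StrongDual ℝ E, dualN Γ β f ≤ 1 ∧ t = |f x|}.Nonempty := by
    intro x
    refine ⟨_, 0, ?_, rfl⟩
    unfold dualN
    rw [Metric.infDist_zero_of_mem (by simp)]
    simp
  have hba : ∀ x : E, BddAbove {t : ℝ | ∃ f : StrongDual ℝ E, dualN Γ β f ≤ 1 ∧ t = |f x|} :=
    fun x => ⟨‖x‖, hbd x⟩
  have hp : ∀ x : E, preN Γ β x ≤ ‖x‖ := fun x => csSup_le (hne x) (hbd x)
  have hle : ∀ (f : StrongDual ℝ E) (x : E), dualN Γ β f ≤ 1 → |f x| ≤ preN Γ β x :=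
    fun f x hf => le_csSup (hba x) ⟨f, hf, rfl⟩
  have hpn : ∀ x : E, 0 ≤ preN Γ β x := by
    intro x
    have := hle 0 x (by
      unfold dualN
      rw [Metric.infDist_zero_of_mem (by simp)]
      simp)
    simpa using this
  have hsc : ∀ (c : ℝ), 0 < c → ∀ g : StrongDual ℝ E, dualN Γ β (c⁻¹ • g) ≤ c⁻¹ * dualN Γ β g := by
    intro c hc g
    have h1 : c * Metric.infDist (c⁻¹ • g) (Γ : Set (StrongDual ℝ E)) ≤ Metric.infDist g (Γ : Set (StrongDual ℝ E)) := by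
      rw [Metric.infDist_eq_iInf (x := g)]
      have : Nonempty (Γ : Set (StrongDual ℝ E)) := ⟨⟨0, Γ.zero_mem⟩⟩
      apply le_ciInf
      intro γ
      have h2 : Metric.infDist (c⁻¹ • g) (Γ : Set (StrongDual ℝ E)) ≤ dist (c⁻¹ • g) (c⁻¹ • (γ : StrongDual ℝ E)) :=
        Metric.infDist_le_dist_of_mem (Γ.smul_mem _ γ.2)
      have h5 : dist (c⁻¹ • g) (c⁻¹ • (γ : StrongDual ℝ E)) = c⁻¹ * dist g (γ : StrongDual ℝ E) := by
        have h6 : c⁻¹ • g - c⁻¹ • (γ : StrongDual ℝ E) = c⁻¹ • (g - (γ : StrongDual ℝ E)) := by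
          ext y; simp [mul_sub]
        rw [dist_eq_norm, h6, norm_smul, Real.norm_of_nonneg (by positivity : (0:ℝ) ≤ c⁻¹), dist_eq_norm]
      rw [h5] at h2
      calc c * Metric.infDist (c⁻¹ • g) (Γ : Set (StrongDual ℝ E)) ≤ c * (c⁻¹ * dist g γ) :=
            mul_le_mul_of_nonneg_left h2 hc.le
        _ = dist g γ := by field_simp
    unfold dualN
    rw [norm_smul, Real.norm_of_nonneg (by positivity : (0:ℝ) ≤ c⁻¹), mul_add]
    have h3 : Metric.infDist (c⁻¹ • g) (Γ : Set (StrongDual ℝ E)) ≤ c⁻¹ * Metric.infDist g (Γ : Set (StrongDual ℝ E)) := by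
      rw [inv_mul_eq_div, le_div_iff₀ hc]; linarith
    have h4 := mul_le_mul_of_nonneg_left h3 (by positivity : 0 ≤ 4 * β)
    linarith
  have hg : ∀ (g : StrongDual ℝ E) (x : E), |g x| ≤ dualN Γ β g * preN Γ β x := by
    intro g x
    rcases (norm_nonneg g |>.trans (hd0 g)).eq_or_lt with h0 | h0
    · have : g = 0 := by
        rw [← norm_le_zero_iff]; rw [h0]; exact hd0 g
      subst this
      simpa using mul_nonneg (norm_nonneg (0 : StrongDual ℝ E) |>.trans (hd0 0)) (hpn x)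
    · have h1 := hsc _ h0 g
      rw [inv_mul_cancel₀ h0.ne'] at h1
      have h2 := hle _ x h1
      rw [_root_.smul_apply, smul_eq_mul, abs_mul, abs_of_pos (inv_pos.mpr h0), inv_mul_le_iff₀ h0] at h2
      exact h2
  intro K hK ε hε
  obtain ⟨u, hu1, hu2, hu3⟩ := h K hK ε hε
  refine ⟨u, hu1, ?_, ?_⟩
  · intro x
    apply csSup_le (hne _)
    rintro t ⟨f, hf, rfl⟩
    have h1 := hg (f.comp u) x
    rw [ContinuousLinearMap.comp_apply] at h1
    refine h1.trans ?_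
    apply mul_le_mul_of_nonneg_right _ (hpn x)
    have h2 := hu2 f
    nlinarith
  · intro x hx
    exact lt_of_le_of_lt (hp _) (hu3 x hx)

end JR1

end Pool.Agent.Helper130.DL
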