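import Mathlib
import Pool.Agent.Helper130.DL.AuxDefs


set_option autoImplicit false

namespace Pool.Agent.Helper130.DL

open Filter Topology

namespace JR2


variable {E : Type} [NormedAddCommGroup E] [NormedSpace ℝ E]

lemma dualN_zero (Γ : Submodule ℝ (StrongDual ℝ E)) (β : ℝ) : dualN Γ β (0 : StrongDual ℝ E) = 0 := by
  unfold dualN
  have : Metric.infDist (0 : StrongDual ℝ E) (Γ : Set (StrongDual ℝ E)) = 0 :=
    Metric.infDist_zero_of_mem (Submodule.zero_mem Γ)
  rw [this]; simp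

lemma norm_le_dualN (Γ : Submodule ℝ (StrongDual ℝ E)) (β : ℝ) (hβ : 0 < β) (f : StrongDual ℝ E) :
    ‖f‖ ≤ dualN Γ β f := by
  unfold dualN
  have := Metric.infDist_nonneg (x := f) (s := (Γ : Set (StrongDual ℝ E)))
  have h2 : 0 ≤ 4 * β * Metric.infDist f (Γ : Set (StrongDual ℝ E)) := by positivity
  linarith

lemma infDist_le_norm (Γ : Submodule ℝ (StrongDual ℝ E)) (f : StrongDual ℝ E) :
    Metric.infDist f (Γ : Set (StrongDual ℝ E)) ≤ ‖f‖ := by
  have := Metric.infDist_le_dist_of_mem (x := f) (Submodule.zero_mem Γ : (0 : StrongDual ℝ E) ∈ (Γ : Set _))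
  simpa using this

lemma infDist_smul_le (Γ : Submodule ℝ (StrongDual ℝ E)) (f : StrongDual ℝ E) (c : ℝ) :
    Metric.infDist (c • f) (Γ : Set (StrongDual ℝ E)) ≤
      |c| * Metric.infDist f (Γ : Set (StrongDual ℝ E)) := by
  by_cases hc : c = 0
  · subst hc
    have : Metric.infDist (0 : StrongDual ℝ E) (Γ : Set (StrongDual ℝ E)) = 0 :=
      Metric.infDist_zero_of_mem (Submodule.zero_mem Γ)
    simp [this]
  have hc' : 0 < |c| := abs_pos.mpr hc
  have hne : (Γ : Set (StrongDual ℝ E)).Nonempty := ⟨0, Submodule.zero_mem Γ⟩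
  rw [← div_le_iff₀' hc']
  by_contra hcon
  push Not at hcon
  obtain ⟨F, hF, hd⟩ := (Metric.infDist_lt_iff hne).1 hcon
  have h1 : Metric.infDist (c • f) (Γ : Set (StrongDual ℝ E)) ≤ dist (c • f) (c • F) :=
    Metric.infDist_le_dist_of_mem (Γ.smul_mem c hF)
  have e : c • f - c • F = c • (f - F) := by ext w; simp [mul_sub]
  rw [dist_eq_norm, e, norm_smul, Real.norm_eq_abs, ← dist_eq_norm] at h1
  rw [lt_div_iff₀' hc'] at hd
  linarith

lemma dualN_smul_le (Γ : Submodule ℝ (StrongDual ℝ E)) (β : ℝ) (hβ : 0 < β) (f : StrongDual ℝ E)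
    (c : ℝ) : dualN Γ β (c • f) ≤ |c| * dualN Γ β f := by
  unfold dualN
  have h1 := infDist_smul_le Γ f c
  rw [norm_smul, Real.norm_eq_abs]
  have h2 : 4 * β * Metric.infDist (c • f) (Γ : Set (StrongDual ℝ E)) ≤
    4 * β * (|c| * Metric.infDist f (Γ : Set (StrongDual ℝ E))) :=
    mul_le_mul_of_nonneg_left h1 (by positivity)
  nlinarith

lemma bdd (Γ : Submodule ℝ (StrongDual ℝ E)) (β : ℝ) (hβ : 0 < β) (x : E) :
    ∀ t ∈ {t : ℝ | ∃ f : StrongDual ℝ E, dualN Γ β f ≤ 1 ∧ t = |f x|}, t ≤ ‖x‖ := by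
  rintro t ⟨f, hf, rfl⟩
  have h1 := f.le_opNorm x
  rw [Real.norm_eq_abs] at h1
  have h2 : ‖f‖ ≤ 1 := (norm_le_dualN Γ β hβ f).trans hf
  calc |f x| ≤ ‖f‖ * ‖x‖ := h1
    _ ≤ 1 * ‖x‖ := by gcongr
    _ = ‖x‖ := one_mul _

lemma nonem (Γ : Submodule ℝ (StrongDual ℝ E)) (β : ℝ) (x : E) :
    {t : ℝ | ∃ f : StrongDual ℝ E, dualN Γ β f ≤ 1 ∧ t = |f x|}.Nonempty :=
  ⟨0, 0, by rw [dualN_zero]; norm_num, by simp⟩

lemma le_preN (Γ : Submodule ℝ (StrongDual ℝ E)) (β : ℝ) (hβ : 0 < β) (x : E)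
    (f : StrongDual ℝ E) (hf : dualN Γ β f ≤ 1) : |f x| ≤ preN Γ β x :=
  le_csSup ⟨‖x‖, bdd Γ β hβ x⟩ ⟨f, hf, rfl⟩

lemma preN_le (Γ : Submodule ℝ (StrongDual ℝ E)) (β : ℝ) (x : E) (C : ℝ)
    (h : ∀ f : StrongDual ℝ E, dualN Γ β f ≤ 1 → |f x| ≤ C) : preN Γ β x ≤ C :=
  csSup_le (nonem Γ β x) (by rintro t ⟨f, hf, rfl⟩; exact h f hf)

lemma abs_le_mul (Γ : Submodule ℝ (StrongDual ℝ E)) (β : ℝ) (hβ : 0 < β) (x : E)
    (f : StrongDual ℝ E) : |f x| ≤ dualN Γ β f * preN Γ β x := by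
  have h0 : 0 ≤ ‖f‖ := norm_nonneg f
  have h1 := norm_le_dualN Γ β hβ f
  by_cases hd : dualN Γ β f = 0
  · have : f = 0 := by
      rw [← norm_eq_zero]; linarith
    subst this
    simp [dualN_zero]
  have hp : 0 < dualN Γ β f := lt_of_le_of_ne (h0.trans h1) (Ne.symm hd)
  have h2 : dualN Γ β ((dualN Γ β f)⁻¹ • f) ≤ 1 := by
    refine (dualN_smul_le Γ β hβ f _).trans ?_
    rw [abs_of_pos (inv_pos.mpr hp)]
    rw [inv_mul_cancel₀ hd]
  have h3 := le_preN Γ β hβ x _ h2
  rw [smul_apply, smul_eq_mul, abs_mul, abs_of_pos (inv_pos.mpr hp)] at h3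
  rw [inv_mul_le_iff₀ hp] at h3
  exact h3

lemma mem_of_ann (Γ : Submodule ℝ (StrongDual ℝ E)) (hΓ : FiniteDimensional ℝ Γ)
    (f : StrongDual ℝ E) (h : ∀ w : E, (∀ F ∈ Γ, F w = 0) → f w = 0) : f ∈ Γ := by
  classical
  have hfree : Module.Free ℝ Γ := Module.Free.of_divisionRing ℝ Γ
  let b := Module.finBasis ℝ Γ
  have h1 : (f : E →ₗ[ℝ] ℝ) ∈ Submodule.span ℝ (Set.range fun i => (((b i : Γ) : StrongDual ℝ E) : E →ₗ[ℝ] ℝ)) := by
    apply mem_span_of_iInf_ker_le_ker
    intro w hw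
    rw [Submodule.mem_iInf] at hw
    rw [LinearMap.mem_ker]
    apply h w
    intro F hF
    have h2 : (⟨F, hF⟩ : Γ) ∈ Submodule.span ℝ (Set.range b) := by rw [b.span_eq]; trivial
    have h3 : F = ∑ i, (b.repr ⟨F, hF⟩ i) • ((b i : Γ) : StrongDual ℝ E) := by
      have := congrArg (fun z : Γ => (z : StrongDual ℝ E)) (b.sum_repr ⟨F, hF⟩)
      simp only [Submodule.coe_sum, Submodule.coe_smul] at this
      exact this.symm
    rw [h3]
    simp only [sum_apply, smul_apply]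
    apply Finset.sum_eq_zero
    intro i _
    have := hw i
    rw [LinearMap.mem_ker] at this
    have h4 : ((b i : Γ) : StrongDual ℝ E) w = 0 := this
    rw [h4, smul_zero]
  rw [Submodule.mem_span_range_iff_exists_fun] at h1
  obtain ⟨c, hc⟩ := h1
  have h5 : f = ∑ i, c i • ((b i : Γ) : StrongDual ℝ E) := by
    ext w
    have := congrArg (fun z : E →ₗ[ℝ] ℝ => z w) hc
    simp only [LinearMap.sum_apply, LinearMap.smul_apply] at this
    simp only [sum_apply, smul_apply]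
    exact this.symm
  rw [h5]
  exact Submodule.sum_mem _ fun i _ => Γ.smul_mem _ (b i).2

/-- the preannihilator -/
def W (Γ : Submodule ℝ (StrongDual ℝ E)) : Submodule ℝ E where
  carrier := {w | ∀ F ∈ Γ, F w = 0}
  add_mem' := by
    intro a b ha hb F hF
    rw [map_add, ha F hF, hb F hF, add_zero]
  zero_mem' := by intro F _; exact map_zero F
  smul_mem' := by
    intro c x hx F hF
    rw [map_smul, hx F hF, smul_zero]

lemma exists_w (Γ : Submodule ℝ (StrongDual ℝ E)) (hΓ : FiniteDimensional ℝ Γ)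
    (f : StrongDual ℝ E) (η : ℝ) (hη : 0 < η) :
    ∃ w : E, ‖w‖ ≤ 1 ∧ (∀ F ∈ Γ, F w = 0) ∧
      Metric.infDist f (Γ : Set (StrongDual ℝ E)) - η ≤ f w := by
  by_contra hcon
  push Not at hcon
  set fW : StrongDual ℝ (W Γ) := f.comp (W Γ).subtypeL with hfW
  obtain ⟨h, hh, hn⟩ := exists_extension_norm_eq (W Γ) fW
  have h1 : f - h ∈ Γ := by
    apply mem_of_ann Γ hΓ
    intro w hw
    have := hh ⟨w, hw⟩
    rw [sub_apply]
    have h2 : fW ⟨w, hw⟩ = f w := rfl
    rw [h2] at this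
    have h3 : h w = f w := this
    rw [h3, sub_self]
  have h2 : Metric.infDist f (Γ : Set (StrongDual ℝ E)) ≤ ‖h‖ := by
    have := Metric.infDist_le_dist_of_mem (x := f) (h1 : f - h ∈ (Γ : Set (StrongDual ℝ E)))
    rw [dist_eq_norm] at this
    simpa using this
  have hnn : 0 ≤ Metric.infDist f (Γ : Set (StrongDual ℝ E)) := Metric.infDist_nonneg
  have h0 := hcon 0 (by simp) (by intro F _; exact map_zero F)
  rw [map_zero] at h0
  have h3 : ‖fW‖ ≤ Metric.infDist f (Γ : Set (StrongDual ℝ E)) - η := by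
    apply ContinuousLinearMap.opNorm_le_of_unit_norm (𝕜 := ℝ) h0.le
    intro w hw
    have h4 : ∀ F ∈ Γ, F (w : E) = 0 := w.2
    have h5 := hcon (w : E) (by rw [← hw]; rfl) h4
    have h6 := hcon (-(w : E)) (by rw [norm_neg, ← hw]; rfl) (by
      intro F hF; rw [map_neg, h4 F hF, neg_zero])
    rw [map_neg] at h6
    have h7 : fW w = f (w : E) := rfl
    rw [Real.norm_eq_abs, h7, abs_le]
    constructor <;> linarith
  rw [← hn] at h3
  linarith

lemma exists_x (f : StrongDual ℝ E) (η : ℝ) (hη : 0 < η) :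
    ∃ x : E, ‖x‖ ≤ 1 ∧ ‖f‖ - η ≤ f x := by
  by_contra hcon
  push Not at hcon
  have h0 := hcon 0 (by simp)
  rw [map_zero] at h0
  have h3 : ‖f‖ ≤ ‖f‖ - η := by
    apply ContinuousLinearMap.opNorm_le_of_unit_norm (𝕜 := ℝ) h0.le
    intro w hw
    have h5 := hcon (w : E) (by rw [← hw])
    have h6 := hcon (-(w : E)) (by rw [norm_neg, ← hw])
    rw [map_neg] at h6
    rw [Real.norm_eq_abs, abs_le]
    constructor <;> linarith
  linarith

theorem preN_norm {E : Type} [NormedAddCommGroup E] [NormedSpace ℝ E]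
    (Γ : Submodule ℝ (StrongDual ℝ E)) (hΓ : FiniteDimensional ℝ Γ) (β : ℝ) (hβ : 0 < β) :
    (∃ N : Seminorm ℝ E, ∀ x, N x = preN Γ β x) ∧
    (∀ x, ‖x‖ ≤ (1 + 4 * β) * preN Γ β x ∧ preN Γ β x ≤ ‖x‖) ∧
    (∀ f : StrongDual ℝ E, IsLUB {t : ℝ | ∃ x, preN Γ β x ≤ 1 ∧ t = |f x|} (dualN Γ β f)) := by
  refine ⟨?_, ?_, ?_⟩
  · refine ⟨Seminorm.ofSMulLE (preN Γ β) ?_ ?_ ?_, fun x => rfl⟩
    · apply le_antisymm
      · apply preN_le
        intro f _
        simp
      · have := le_preN Γ β hβ (0 : E) 0 (by rw [dualN_zero]; norm_num)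
        simpa using this
    · intro x y
      apply preN_le
      intro f hf
      rw [map_add]
      exact (abs_add_le _ _).trans (add_le_add (le_preN Γ β hβ x f hf) (le_preN Γ β hβ y f hf))
    · intro r x
      apply preN_le
      intro f hf
      rw [map_smul, smul_eq_mul, abs_mul, Real.norm_eq_abs]
      exact mul_le_mul_of_nonneg_left (le_preN Γ β hβ x f hf) (abs_nonneg r)
  · intro x
    refine ⟨?_, preN_le Γ β x _ fun f hf => bdd Γ β hβ x _ ⟨f, hf, rfl⟩⟩
    obtain ⟨f, hf1, hf2⟩ := exists_dual_vector'' ℝ x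
    have h1 := abs_le_mul Γ β hβ x f
    rw [hf2] at h1
    have h2 : dualN Γ β f ≤ 1 + 4 * β := by
      unfold dualN
      have := infDist_le_norm Γ f
      have h3 : 4 * β * Metric.infDist f (Γ : Set (StrongDual ℝ E)) ≤ 4 * β * 1 :=
        mul_le_mul_of_nonneg_left (this.trans hf1) (by positivity)
      linarith
    have h4 : 0 ≤ preN Γ β x := by
      have := le_preN Γ β hβ x 0 (by rw [dualN_zero]; norm_num)
      simpa using this
    have h5 : |((‖x‖ : ℝ) : ℝ)| = ‖x‖ := abs_of_nonneg (norm_nonneg x)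
    calc ‖x‖ ≤ |(‖x‖ : ℝ)| := le_abs_self _
      _ ≤ dualN Γ β f * preN Γ β x := by simpa using h1
      _ ≤ (1 + 4 * β) * preN Γ β x := mul_le_mul_of_nonneg_right h2 h4
  · intro f
    constructor
    · rintro t ⟨x, hx, rfl⟩
      have h1 := abs_le_mul Γ β hβ x f
      have h2 : 0 ≤ dualN Γ β f := (norm_nonneg f).trans (norm_le_dualN Γ β hβ f)
      calc |f x| ≤ dualN Γ β f * preN Γ β x := h1
        _ ≤ dualN Γ β f * 1 := mul_le_mul_of_nonneg_left hx h2
        _ = dualN Γ β f := mul_one _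
    · intro b hb
      have key : ∀ η : ℝ, 0 < η → dualN Γ β f - (1 + 4 * β) * η ≤ b := by
        intro η hη
        obtain ⟨x, hx1, hx2⟩ := exists_x f η hη
        obtain ⟨w, hw1, hw2, hw3⟩ := exists_w Γ hΓ f η hη
        have h1 : preN Γ β (x + (4 * β) • w) ≤ 1 := by
          apply preN_le
          intro g hg
          have h2 : |g w| ≤ Metric.infDist g (Γ : Set (StrongDual ℝ E)) := by
            by_contra hcon
            push Not at hcon
            have hne : (Γ : Set (StrongDual ℝ E)).Nonempty := ⟨0, Submodule.zero_mem Γ⟩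
            obtain ⟨F, hF, hd⟩ := (Metric.infDist_lt_iff hne).1 hcon
            have h3 : g w = (g - F) w := by
              rw [sub_apply, hw2 F hF, sub_zero]
            have h4 := (g - F).le_opNorm w
            rw [Real.norm_eq_abs, ← h3] at h4
            rw [dist_eq_norm] at hd
            have h5 : ‖g - F‖ * ‖w‖ ≤ ‖g - F‖ * 1 := mul_le_mul_of_nonneg_left hw1 (norm_nonneg _)
            linarith
          have h3 : |g x| ≤ ‖g‖ := by
            have h4 := g.le_opNorm x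
            rw [Real.norm_eq_abs] at h4
            have h5 : ‖g‖ * ‖x‖ ≤ ‖g‖ * 1 := mul_le_mul_of_nonneg_left hx1 (norm_nonneg _)
            linarith
          rw [map_add, map_smul, smul_eq_mul]
          calc |g x + 4 * β * g w| ≤ |g x| + |4 * β * g w| := abs_add_le _ _
            _ = |g x| + 4 * β * |g w| := by
                rw [abs_mul (4 * β), abs_of_pos (by positivity : 0 < 4 * β)]
            _ ≤ ‖g‖ + 4 * β * Metric.infDist g (Γ : Set (StrongDual ℝ E)) :=
                add_le_add h3 (mul_le_mul_of_nonneg_left h2 (by positivity))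
            _ ≤ 1 := hg
        have h2 : |f (x + (4 * β) • w)| ≤ b := hb ⟨_, h1, rfl⟩
        have h3 := (le_abs_self _).trans h2
        rw [map_add, map_smul, smul_eq_mul] at h3
        have h4 : 4 * β * (Metric.infDist f (Γ : Set (StrongDual ℝ E)) - η) ≤ 4 * β * f w :=
          mul_le_mul_of_nonneg_left hw3 (by positivity)
        unfold dualN
        nlinarith
      by_contra hcon
      push Not at hcon
      have h5 := key ((dualN Γ β f - b) / (2 * (1 + 4 * β))) (div_pos (by linarith) (by positivity))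
      have h6 : (1 + 4 * β) * ((dualN Γ β f - b) / (2 * (1 + 4 * β))) = (dualN Γ β f - b) / 2 := by
        field_simp
      rw [h6] at h5
      linarith

end JR2

end Pool.Agent.Helper130.DL
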