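import Mathlib
import Pool.Agent.Helper130.DL.AuxDefs
import Pool.Agent.Helper130.DL.KE1
import Pool.Agent.Helper130.DL.KE2
import Pool.Agent.Helper130.DL.KE3
import Pool.Agent.Helper130.DL.KE4
import Pool.Agent.Helper130.DL.KE5
import Pool.Agent.Helper130.DL.KE7
import Pool.Agent.Helper130.DL.KE8
import Pool.Agent.Helper130.DL.KE9
import Pool.Agent.Helper130.DL.KGS
import Pool.Agent.Helper130.DL.KK0
import Pool.Agent.Helper130.DL.KK1
import Pool.Agent.Helper130.DL.KK2
import Pool.Agent.Helper130.DL.KK3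
import Pool.Agent.Helper130.DL.KK4
import Pool.Agent.Helper130.DL.KNS
import Pool.Agent.Helper130.DL.KNB

set_option autoImplicit false

namespace Pool.Agent.Helper130.DL

open Filter Topology

theorem key {Y : Type} [NormedAddCommGroup Y] [NormedSpace ℝ Y] {E0 : Type}
    [NormedAddCommGroup E0] [NormedSpace ℝ E0] {E : Type} [NormedAddCommGroup E]
    [NormedSpace ℝ E] (N : Seminorm ℝ Y) (hN : ∀ y, ‖y‖ ≤ N y) (r : ℝ) (hr0 : 0 < r)
    (hr1 : r ≤ 1 / 4) (e : (ℝ × Y) ≃L[ℝ] E0) (he : NormF N r e) (H : ℕ → Submodule ℝ Y)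
    (hH : Monotone H) (hfd : ∀ n, FiniteDimensional ℝ (H n))
    (hd : Dense (⋃ n, (H n : Set Y))) (s : ℝ) (hs0 : 0 < s) (hs1 : s ≤ 1) (hg : Good N s)
    {c : ℝ} (hc : 0 ≤ c) (hc1 : c ≤ s * (r * s) / 1000) (tw : Tower E0 (Gs e H) c E) (M : ℕ)
    (Γ : Submodule ℝ (StrongDual ℝ E)) (hΓ : FiniteDimensional ℝ Γ)
    (hS : ∀ F ∈ Γ, ∃ F', Supp tw M F F') (β : ℝ) (hβ : 0 < β) :
    ∃ u : E →L[ℝ] E, FiniteDimensional ℝ (LinearMap.range (u : E →ₗ[ℝ] E)) ∧
      (∀ f, dualN Γ β (f.comp u) ≤ (1 + (1 - s / 100) * (r * s)) * dualN Γ β f) ∧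
      ∀ g, ‖u g - tw.P M g‖ ≤ 10 * ‖tw.L (g - tw.P M g)‖ := by
  have hrs : 0 < r * s := by positivity
  have hrs1 : r * s ≤ 1 / 4 := by nlinarith
  obtain ⟨hGm, hGf, hGd, hmem⟩ := JGS.Gs_props e H hH hfd hd
  set δ : ℝ := s * (r * s) / (10000 * (1 + 4 * β)) with hδd
  have hδ : 0 < δ := by positivity
  have hδb : δ * (1 + 4 * β) ≤ s * (r * s) / 10000 := by
    rw [hδd]
    apply le_of_eq
    field_simp
  have hδ1' : δ ≤ s * (r * s) / 10000 := by
    refine le_trans ?_ hδb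
    nlinarith
  have hδ1 : δ ≤ 1 := by nlinarith
  obtain ⟨M', T, st⟩ := JE4.exists_setup N hN e H tw M Γ (JE1.approx_range H hH hd)
    (JE2.net N hN H hH hd) (JE3.unif e hGm hGd tw M Γ hΓ hS) s hg δ hδ
  obtain ⟨b1, b2, b3, b4, b5, b6⟩ := JE5.v_bound N hN r hr0 (by linarith) e he T s δ hs0.le hδ.le
    st.norm st.mov
  have hmemT : ∀ a y, e (a, T y) ∈ Gs e H M' := fun a y => (hmem M' a (T y)).2 (st.mem y)
  have hinfX : ∀ f : StrongDual ℝ E, Metric.infDist f (Γ : Set (StrongDual ℝ E)) ≤ ‖f‖ := by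
    intro f
    refine (Metric.infDist_le_dist_of_mem (Γ.zero_mem)).trans ?_
    rw [dist_zero_right]
  by_cases hcase : ∀ c0 d0, tw.P M c0 = c0 →
      (∀ F ∈ Γ, ∀ F', Supp tw M F F' → F c0 + F' d0 = 0) →
      |(e.symm d0).1| ≤ 4 / 5 * (‖c0‖ + ‖d0‖)
  · -- Case I
    have b10 : ‖e (1, 0)‖ ≤ 1 := by
      have := b5 1 0 0 (by simp)
      simpa using this
    rcases le_or_gt (4 * β) (1 / 2) with hb | hb
    · -- small β
      set q : ℝ := s * (r * s) / 10 with hq
      have hq0 : 0 ≤ q := by positivity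
      have hq1 : q ≤ 1 := by nlinarith
      obtain ⟨U, hUf, hU⟩ := JK0.exists_U e H tw M M' T (hGf M') hmemT q
      have hm1 : (1 : ℝ) ≤ max (1 + δ) (1 - q * (1 - r) + r * (s + δ)) :=
        le_trans (by linarith) (le_max_left _ _)
      have hm10 : max (1 + δ) (1 - q * (1 - r) + r * (s + δ)) ≤ 10 := by
        apply max_le (by linarith)
        nlinarith
      obtain ⟨n1, n2⟩ := JK2.caseOne_norm e H hc tw M M' T q _ hm1 (b1 q hq0 hq1) U hU
      have n3 := JK1.caseOne_dist N r hr0 (by linarith) e H hc tw M Γ s δ hs0.le hδ.le M' T st hS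
        (JE8.infDist_le_of_ann Γ hΓ) (JE9.near Γ) b2 b4 b10 hcase q hq0 hq1 U hU
      refine ⟨U, hUf, ?_, ?_⟩
      · intro f
        have h1 := n1 f
        have h2 := n3 f
        have h3 := JNS.num_small s r (4 * β) c δ ‖f‖
          (Metric.infDist f (Γ : Set (StrongDual ℝ E))) hs0 hs1 hr0 hr1 (by positivity) hb hc hc1
          hδ.le hδ1' Metric.infDist_nonneg (hinfX f)
        rw [← hq] at h3
        unfold dualN
        refine le_trans ?_ h3
        have h4 := mul_le_mul_of_nonneg_left h2 (by positivity : (0:ℝ) ≤ 4 * β)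
        linarith
      · intro g
        refine (n2 g).trans ?_
        exact mul_le_mul_of_nonneg_right hm10 (norm_nonneg _)
    · -- big β
      obtain ⟨U, hUf, hU⟩ := JK0.exists_U e H tw M M' T (hGf M') hmemT 0
      have hm1 : (1 : ℝ) ≤ max (1 + δ) (1 - 0 * (1 - r) + r * (s + δ)) :=
        le_trans (by linarith) (le_max_left _ _)
      have hm10 : max (1 + δ) (1 - 0 * (1 - r) + r * (s + δ)) ≤ 10 := by
        apply max_le (by linarith)
        nlinarith
      obtain ⟨n1, n2⟩ := JK2.caseOne_norm e H hc tw M M' T 0 _ hm1 (b1 0 le_rfl zero_le_one) U hU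
      have n3 := JK1.caseOne_dist N r hr0 (by linarith) e H hc tw M Γ s δ hs0.le hδ.le M' T st hS
        (JE8.infDist_le_of_ann Γ hΓ) (JE9.near Γ) b2 b4 b10 hcase 0 le_rfl zero_le_one U hU
      have n4 := JK3.caseOne_norm0 N hN r hr0 (by linarith) e H hc tw M Γ s δ hδ.le hδ1 M' T st
        hmem hS (JE9.near Γ) b3 b5 b6 U hU
      refine ⟨U, hUf, ?_, ?_⟩
      · intro f
        have h1 := n1 f
        have h2 := n3 f
        have h3 := JNB.num_big s r (4 * β) c δ ‖f‖
          (Metric.infDist f (Γ : Set (StrongDual ℝ E))) ‖f.comp U‖ hs0 hs1 hr0 hr1 hb.le hc hc1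
          hδ.le hδb Metric.infDist_nonneg (hinfX f) (by simpa using h1) (n4 f)
        unfold dualN
        refine le_trans ?_ h3
        have h4 := mul_le_mul_of_nonneg_left h2 (by positivity : (0:ℝ) ≤ 4 * β)
        simp only [add_zero] at h4
        linarith
      · intro g
        refine (n2 g).trans ?_
        exact mul_le_mul_of_nonneg_right hm10 (norm_nonneg _)
  · -- Case II
    push Not at hcase
    obtain ⟨c1, d1, h1, h2, h3⟩ := hcase
    set a := (e.symm d1).1 with ha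
    have ha0 : 0 < |a| := lt_of_le_of_lt (by positivity) h3
    have ha1 : a ≠ 0 := abs_pos.1 ha0
    obtain ⟨U, hUf, hU1, hU2, hU3⟩ := JK4.caseTwo N hN r hr0 hr1 e H hc
      (by nlinarith) tw M Γ s δ hδ.le hδ1 M' T st
      (hGf M') hmem hS b3 b4 b6 (a⁻¹ • c1) (a⁻¹ • d1) (by rw [map_smul, h1])
      (by
        intro F hF F' hF'
        have := h2 F hF F' hF'
        rw [map_smul, map_smul, ← smul_add, this, smul_zero])
      (by
        rw [map_smul, Prod.smul_fst, smul_eq_mul, ← ha]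
        exact inv_mul_cancel₀ ha1)
      (by
        rw [norm_smul, norm_smul, ← mul_add, norm_inv, Real.norm_eq_abs]
        rw [inv_mul_le_iff₀ ha0]
        linarith)
    refine ⟨U, hUf, ?_, hU3⟩
    intro f
    have h4 := JE7.dualN_comp_le Γ β hβ U ((1 + δ) * (1 + c)) (5 * δ) hU1 (by positivity) hU2 f
    refine h4.trans ?_
    apply mul_le_mul_of_nonneg_right
    · nlinarith [mul_nonneg hδ.le hc]
    · unfold dualN
      have := Metric.infDist_nonneg (x := f) (s := (Γ : Set (StrongDual ℝ E)))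
      positivity

end Pool.Agent.Helper130.DL
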