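import Mathlib
import Pool.Agent.Helper130.DL.Key
import Pool.Agent.Helper130.DL.KA2
import Pool.Agent.Helper130.DL.KA3
import Pool.Agent.Helper130.DL.KA4
import Pool.Agent.Helper130.DL.KA5
import Pool.Agent.Helper130.DL.KB1
import Pool.Agent.Helper130.DL.KB2
import Pool.Agent.Helper130.DL.KC1
import Pool.Agent.Helper130.DL.KC2a
import Pool.Agent.Helper130.DL.KC2b
import Pool.Agent.Helper130.DL.KC3
import Pool.Agent.Helper130.DL.KD1a
import Pool.Agent.Helper130.DL.KD1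
import Pool.Agent.Helper130.DL.KD2
import Pool.Agent.Helper130.DL.KD3
import Pool.Agent.Helper130.DL.KD4
import Pool.Agent.Helper130.DL.KHL
import Pool.Agent.Helper130.DL.KPF
import Pool.Agent.Helper130.DL.KPK
import Pool.Agent.Helper130.DL.KR1
import Pool.Agent.Helper130.DL.KR2
import Pool.Agent.Helper234.L1MAP.Main

set_option autoImplicit false

namespace Pool.Agent.Helper130.DL

open Filter Topology

theorem exists_tower {E0 : Type} [NormedAddCommGroup E0] [NormedSpace ℝ E0] [CompleteSpace E0]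
    (G : ℕ → Submodule ℝ E0) (hG : Monotone G) (hfd : ∀ n, FiniteDimensional ℝ (G n))
    (hd : Dense (⋃ n, (G n : Set E0))) (c : ℝ) (hc : 0 < c) :
    ∃ (E : Type) (_ : NormedAddCommGroup E) (_ : NormedSpace ℝ E) (_ : CompleteSpace E),
      Nonempty (Tower E0 G c E) := by
  obtain ⟨X, iX1, iX2, iX3, ⟨b⟩⟩ := JA2.exists_base G hG hfd
  obtain ⟨p, K, h1, h2, h3, h4⟩ := JA3.chain_norm b c hc
  obtain ⟨E, iE1, iE2, iE3, e, he⟩ := JB1.renormed p 1 K one_pos
    (fun x => by rw [one_mul]; exact h1 x) h2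
  exact ⟨E, iE1, iE2, iE3, JA5.tower_of hfd b (JA4.dual_rep hG hd b) c p K h1 h2 h3 h4 e he⟩

/-- an equivalent norm on `ℓ¹` with an almost optimal constant -/
theorem exists_gap : ∃ (N : Seminorm ℝ (lp (fun _ : ℕ => ℝ) 1)) (s : ℝ), (∀ y, ‖y‖ ≤ N y) ∧
    0 < s ∧ s ≤ 1 ∧ Good N s ∧ ¬ Good N ((1 - s / 400) * s) := by
  obtain ⟨N0, ⟨a, b, ha, hab⟩, hN0⟩ := Pool.Agent.Helper234.L1MAP.final.1
  set N : Seminorm ℝ (lp (fun _ : ℕ => ℝ) 1) := (Real.toNNReal a⁻¹) • N0 with hN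
  have hNv : ∀ y, N y = a⁻¹ * N0 y := fun y => by
    rw [hN, Seminorm.smul_apply, NNReal.smul_def, Real.coe_toNNReal _ (by positivity),
      smul_eq_mul]
  have h1 : ∀ y, ‖y‖ ≤ N y := by
    intro y
    rw [hNv, inv_mul_eq_div, le_div_iff₀ ha, mul_comm]
    exact (hab y).1
  have h2 : ∀ y, N y ≤ (a⁻¹ * b) * ‖y‖ := by
    intro y
    rw [hNv, mul_assoc]
    exact mul_le_mul_of_nonneg_left (hab y).2 (by positivity)
  have hnot : ¬ ∀ s, 0 < s → Good N s := by
    intro hall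
    apply hN0
    intro K hK ε hε
    obtain ⟨T, hT, hT1, hT2⟩ := JC2b.map_of_good (fun U hU h A ε hε => JC2a.mazur U hU h A ε hε)
      N (a⁻¹ * b) (fun y => ⟨h1 y, h2 y⟩) hall K hK (a⁻¹ * ε) (by positivity)
    refine ⟨T, hT, ?_, ?_⟩
    · intro x
      have := hT1 x
      rw [hNv, hNv] at this
      exact le_of_mul_le_mul_left this (by positivity)
    · intro x hx
      have := hT2 x hx
      rw [hNv] at this
      exact le_of_mul_le_mul_left this (by positivity)
  obtain ⟨s, hs0, hs1, hg, hb⟩ := JC3.exists_gap_of N (JC1.good_one N h1) hnot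
  exact ⟨N, s, h1, hs0, hs1, hg, hb⟩

theorem main : ∃ lam : ℝ, 1 ≤ lam ∧
    ∃ (E : Type) (_ : NormedAddCommGroup E) (_ : NormedSpace ℝ E) (_ : CompleteSpace E),
      (∀ Γ : Submodule ℝ (StrongDual ℝ E), FiniteDimensional ℝ Γ → ∀ β : ℝ, 0 < β →
        ((∃ N : Seminorm ℝ E, ∀ x, N x = preN Γ β x) ∧
          (∀ x, ‖x‖ ≤ (1 + 4 * β) * preN Γ β x ∧ preN Γ β x ≤ ‖x‖) ∧
          (∀ f : StrongDual ℝ E,
            IsLUB {t : ℝ | ∃ x, preN Γ β x ≤ 1 ∧ t = |f x|} (dualN Γ β f))) ∧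
        HasLAP E (preN Γ β) lam) ∧
      ¬ HasLAP (StrongDual ℝ E) (fun f => ‖f‖) lam := by
  obtain ⟨N, s, hN, hs0, hs1, hg, hb⟩ := exists_gap
  -- the witness of the failure
  unfold Good at hb
  push Not at hb
  obtain ⟨Φ, ε0, hε0, hbad⟩ := hb
  -- the parameter r
  obtain ⟨r, hr0, hr1, hrε⟩ : ∃ r : ℝ, 0 < r ∧ r ≤ 1 / 4 ∧ r < ε0 :=
    ⟨min (1 / 4) (ε0 / 2), by positivity, min_le_left _ _,
      lt_of_le_of_lt (min_le_right _ _) (by linarith)⟩
  have hrs : 0 < r * s := by positivity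
  obtain ⟨E0, _, _, _, e, he⟩ := JB2.exists_E0 (fun p a b ha h1 h2 => JB1.renormed p a b ha h1 h2)
    N hN r hr0 (by linarith)
  obtain ⟨H, hH, hfd, hd⟩ := JHL.exists_H
  obtain ⟨hGm, hGf, hGd, hmem⟩ := JGS.Gs_props e H hH hfd hd
  set c : ℝ := s * (r * s) / 1000 with hc
  have hc0 : 0 < c := by positivity
  obtain ⟨E, iE1, iE2, iE3, ⟨tw⟩⟩ := exists_tower (Gs e H) hGm hGf hGd c hc0
  refine ⟨1 + (1 - s / 200) * (r * s), ?_, E, iE1, iE2, iE3, ?_, ?_⟩
  · have : 0 ≤ (1 - s / 200) * (r * s) := mul_nonneg (by linarith) hrs.le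
    linarith
  · intro Γ hΓ β hβ
    refine ⟨JR2.preN_norm Γ hΓ β hβ, ?_⟩
    have hlam : (0:ℝ) < 1 + (1 - s / 200) * (r * s) := by
      have : 0 ≤ (1 - s / 200) * (r * s) := mul_nonneg (by linarith) hrs.le
      linarith
    apply JR1.LAP_of Γ β hβ _ hlam
    intro K hK ε hε
    -- η
    set lam1 : ℝ := 1 + (1 - s / 100) * (r * s) with hlam1
    have hlam1' : 1 ≤ lam1 := by
      have : 0 ≤ (1 - s / 100) * (r * s) := mul_nonneg (by linarith) hrs.le
      linarith
    have hrs1 : r * s ≤ 1 / 4 := by nlinarith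
    obtain ⟨η, hη0, hη1⟩ : ∃ η : ℝ, 0 < η ∧
        (1 + η) * (1 + η) * lam1 ≤ 1 + (1 - s / 200) * (r * s) := by
      refine ⟨s * (r * s) / 1000, by positivity, ?_⟩
      have h3 : 0 < s * (r * s) := by positivity
      have h1 : s * (r * s) / 1000 ≤ 1 / 1000 := by nlinarith
      have h2 : lam1 ≤ 5 / 4 := by
        rw [hlam1]
        nlinarith
      have h5 : (1 + s * (r * s) / 1000) * (1 + s * (r * s) / 1000) ≤
          1 + 3 * (s * (r * s) / 1000) := by nlinarith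
      have h6 : (1 + s * (r * s) / 1000) * (1 + s * (r * s) / 1000) * lam1 ≤
          (1 + 3 * (s * (r * s) / 1000)) * lam1 :=
        mul_le_mul_of_nonneg_right h5 (by linarith)
      have h7 : 3 * (s * (r * s) / 1000) * lam1 ≤ 3 * (s * (r * s) / 1000) * (5 / 4) :=
        mul_le_mul_of_nonneg_left h2 (by positivity)
      have h8 : (1 + 3 * (s * (r * s) / 1000)) * lam1 =
          lam1 + 3 * (s * (r * s) / 1000) * lam1 := by ring
      have h9 : lam1 = 1 + r * s - s * (r * s) / 100 := by rw [hlam1]; ring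
      have h10 : 1 + (1 - s / 200) * (r * s) = 1 + r * s - s * (r * s) / 200 := by ring
      rw [h10]
      linarith
    obtain ⟨M1, hM1⟩ := JPF.perturb tw Γ hΓ β hβ η hη0
    obtain ⟨M2, hM2⟩ := JPK.unif_compact hc0.le tw K hK (ε / 22) (by positivity)
    set M := max M1 M2 with hM
    obtain ⟨Γ', hΓ', hS, hcomp⟩ := hM1 M (le_max_left _ _)
    obtain ⟨u, hu1, hu2, hu3⟩ := key N hN r hr0 hr1 e he H hH hfd hd s hs0 hs1 hg hc0.le le_rfl
      tw M Γ' hΓ' hS β hβ
    refine ⟨u, hu1, ?_, ?_⟩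
    · intro f
      have hnn : 0 ≤ dualN Γ β f := by
        unfold dualN
        have := Metric.infDist_nonneg (x := f) (s := (Γ : Set (StrongDual ℝ E)))
        positivity
      calc dualN Γ β (f.comp u) ≤ (1 + η) * dualN Γ' β (f.comp u) := (hcomp _).2
        _ ≤ (1 + η) * (lam1 * dualN Γ' β f) := by
          exact mul_le_mul_of_nonneg_left (hu2 f) (by positivity)
        _ ≤ (1 + η) * (lam1 * ((1 + η) * dualN Γ β f)) := by
          apply mul_le_mul_of_nonneg_left _ (by positivity)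
          exact mul_le_mul_of_nonneg_left (hcomp f).1 (by positivity)
        _ = ((1 + η) * (1 + η) * lam1) * dualN Γ β f := by ring
        _ ≤ _ := mul_le_mul_of_nonneg_right hη1 hnn
    · intro g hg
      have h1 := hM2 M (le_max_right _ _) g hg
      have h2 := hu3 g
      have h3 : ‖tw.L (g - tw.P M g)‖ ≤ ‖g - tw.P M g‖ := tw.L_norm _
      rw [norm_sub_rev] at h3
      have h4 : u g - g = (u g - tw.P M g) + (tw.P M g - g) := by abel
      rw [h4]
      refine lt_of_le_of_lt (norm_add_le _ _) ?_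
      linarith
  · apply JD4.dual_fails e tw
      (fun lam h0 h Φ ε hε => JD1.dual_ap (fun V0 hV Φ ε hε => JD1a.adj_approx V0 hV Φ ε hε)
        lam h0 h Φ ε hε)
      (fun u hu => JD2.to_E0 hGm hGd tw u hu) N r hr0
      (fun v hv t ht ε hε h1 Φ h2 => JD3.to_Y N hN r hr0 (by linarith) e he v hv t ht ε hε h1 Φ h2)
      ((1 - s / 400) * s) Φ ε0 hε0
    · intro T hT h1 h2
      exact hbad T hT h1 h2
    · exact mul_nonneg (by linarith) hrs.le
    · have h3 : 0 < s * (r * s) := by positivity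
      nlinarith
    · have h3 : 0 < s * (r * s) := by positivity
      have h4 : r * s ≤ r := by nlinarith
      nlinarith

end Pool.Agent.Helper130.DL
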